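import Mathlib
import Pool.Agent.helper45.OC3

/-! Definitions for MP_64f3b0_co, Q1. -/

namespace Pool.Agent.SR

open Pool.Agent.helper45.OC

/-- `G m S`: the finite poset `S` can be built from one element by adding elements, the link of
each new element being in the class for `m - 1`. -/
inductive G {α : Type*} [PartialOrder α] : ℕ → Set α → Prop
  | zero (S : Set α) : G 0 S
  | pt (m : ℕ) (x : α) : G (m + 1) {x}
  | add (m : ℕ) (S : Set α) (x : α) : x ∉ S → G (m + 1) S →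
      G m {y | y ∈ S ∧ (y < x ∨ x < y)} → G (m + 1) (insert x S)

/-- `y` meets every block (= fibre of `p`). -/
def Hits {ι κ : Type*} (p : ι → κ) (y : Finset ι) : Prop := ∀ b, ∃ i ∈ y, p i = b

/-- ground set: `n` vertices of `S`, `K` apices, `M` pairs (the cube coordinates) -/
abbrev Gr (n K M : ℕ) := (Fin n ⊕ Fin K) ⊕ (Fin M × Bool)

/-- blocks -/
def blk (n K M : ℕ) : Gr n K M → Option (Fin M)
  | Sum.inl _ => none
  | Sum.inr q => some q.1

/-- the simplex `S` -/
def sS (n K M : ℕ) : Finset (Gr n K M) :=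
  Finset.univ.image (fun i : Fin n => Sum.inl (Sum.inl i))

/-- the apices -/
def ap {n K M : ℕ} (i : Fin K) : Gr n K M := Sum.inl (Sum.inr i)

/-- the vertex `0` of the cube -/
def zz (n K M : ℕ) : Finset (Gr n K M) :=
  Finset.univ.image (fun j : Fin M => Sum.inr (j, false))

/-- everything but the apices -/
def U1 (n K M : ℕ) : Finset (Gr n K M) :=
  sS n K M ∪ Finset.univ.image (fun q : Fin M × Bool => Sum.inr q)

/-- skeleton of simplex times cube -/
def fam1 (n K M : ℕ) : Set (Finset (Gr n K M)) :=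
  {y | Hits (blk n K M) y ∧ y ⊆ U1 n K M ∧ y.card ≤ n + M}

/-- the cones -/
def fam2 (n K M : ℕ) : Set (Finset (Gr n K M)) :=
  {y | ∃ (i : Fin K) (t : Finset (Gr n K M)), t ⊂ sS n K M ∧ y = insert (ap i) (t ∪ zz n K M)}

/-- the poset of nonempty cells of the complex -/
def fam (n K M : ℕ) : Set (Finset (Gr n K M)) := fam1 n K M ∪ fam2 n K M

/-- rank -/
def rk (n K M : ℕ) (y : Finset (Gr n K M)) : ℕ := y.card - (M + 1)

/-- weights: `∑ over cells of the number of multichains` -/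
def gg (n K M : ℕ) (l : ℕ) : ℤ :=
  (∑ s ∈ Finset.range n, ∑ i ∈ Finset.range (n - s),
    ((n.choose (s + 1) : ℤ) * (M.choose i : ℤ) * 2 ^ (M - i) *
      (((l : ℤ) + 1) ^ (s + 1) - (l : ℤ) ^ (s + 1)) * (2 * (l : ℤ) + 1) ^ i)) +
  (K : ℤ) * ∑ t ∈ Finset.range n, (n.choose t : ℤ) *
      (((l : ℤ) + 1) ^ (t + 1) - (l : ℤ) ^ (t + 1))

/-- number of chains with `j` elements -/
def cc (n K M : ℕ) : ℕ → ℤ
  | 0 => 1
  | j + 1 => ∑ l ∈ Finset.range (j + 1), (-1 : ℤ) ^ (j - l) * (j.choose l : ℤ) * gg n K M l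

/-- the geometric cell with support `y` -/
def cell {ι κ : Type*} [Fintype ι] [DecidableEq κ] {N : ℕ} (e : ι ≃ Fin N) (p : ι → κ)
    (y : Finset ι) : Set (Fin N → ℝ) :=
  {x | (∀ i, 0 ≤ x i) ∧ (∀ b : κ, ∑ i ∈ Finset.univ.filter (fun i => p i = b), x (e i) = 1) ∧
    ∀ i, i ∉ y → x (e i) = 0}

/-- the geometric complex -/
def cplx {ι κ : Type*} [Fintype ι] [DecidableEq κ] {N : ℕ} (e : ι ≃ Fin N) (p : ι → κ)
    (L : Set (Finset ι)) : Set (Set (Fin N → ℝ)) :=
  insert ∅ (cell e p '' L)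

end Pool.Agent.SR
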