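import Mathlib
import Pool.Agent.SR.Defs

/-! Transport of homology vanishing and of Cohen-Macaulayness along order isomorphisms. -/

namespace Pool.Agent.SR

open Pool.Agent.helper45.OC

universe u v w

/-- chains along an order isomorphism -/
def chainCongr {Q : Type u} {Q' : Type w} [PartialOrder Q] [PartialOrder Q'] (e : Q ≃o Q')
    (n : ℕ) : Chain Q n ≃ Chain Q' n where
  toFun c := ⟨e ∘ c.1, e.strictMono.comp c.2⟩
  invFun c := ⟨e.symm ∘ c.1, e.symm.strictMono.comp c.2⟩
  left_inv c := by ext i; simp
  right_inv c := by ext i; simp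

lemma boundary_congr {Q : Type u} {Q' : Type w} [PartialOrder Q] [PartialOrder Q'] (e : Q ≃o Q')
    (k : Type v) [Field k] (n : ℕ) (z : Chain Q (n + 1) →₀ k) :
    boundary k Q' n (Finsupp.mapDomain (chainCongr e (n + 1)) z) =
      Finsupp.mapDomain (chainCongr e n) (boundary k Q n z) := by
  have key : (boundary k Q' n) ∘ₗ (Finsupp.lmapDomain k k (chainCongr e (n + 1))) =
      (Finsupp.lmapDomain k k (chainCongr e n)) ∘ₗ boundary k Q n := by
    apply Finsupp.lhom_ext
    intro c b
    have hb : (Finsupp.single c b : Chain Q (n + 1) →₀ k) = b • Finsupp.single c 1 := by simp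
    rw [hb, map_smul, map_smul]
    congr 1
    rw [LinearMap.comp_apply, LinearMap.comp_apply, Finsupp.lmapDomain_apply,
      Finsupp.mapDomain_single, boundary_single, boundary_single, map_sum]
    refine Finset.sum_congr rfl fun i _ => ?_
    rw [map_smul, Finsupp.lmapDomain_apply, Finsupp.mapDomain_single]
    rfl
  exact LinearMap.congr_fun key z

theorem hv_congr {Q : Type u} {Q' : Type w} [PartialOrder Q] [PartialOrder Q'] (e : Q ≃o Q')
    (k : Type v) [Field k] (n : ℕ) (h : HomologyVanishes k Q n) : HomologyVanishes k Q' n := by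
  have hround : ∀ (m : ℕ) (z : Chain Q' m →₀ k),
      Finsupp.mapDomain (chainCongr e m) (Finsupp.mapDomain (chainCongr e.symm m) z) = z := by
    intro m z
    rw [← Finsupp.mapDomain_comp]
    have : (chainCongr e m : Chain Q m → Chain Q' m) ∘ (chainCongr e.symm m) = id := by
      funext c
      apply Subtype.ext
      funext i
      simp [chainCongr]
    rw [this, Finsupp.mapDomain_id]
  cases n with
  | zero =>
    intro z
    obtain ⟨w, hw⟩ := h (Finsupp.mapDomain (chainCongr e.symm 0) z)
    refine ⟨Finsupp.mapDomain (chainCongr e (0 + 1)) w, ?_⟩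
    rw [boundary_congr, hw, hround]
  | succ n =>
    intro z hz
    obtain ⟨w, hw⟩ := h (Finsupp.mapDomain (chainCongr e.symm (n + 1)) z) (by
      rw [boundary_congr, hz, Finsupp.mapDomain_zero])
    refine ⟨Finsupp.mapDomain (chainCongr e (n + 1 + 1)) w, ?_⟩
    rw [boundary_congr, hw, hround]

/-- links along an order isomorphism -/
def linkCongr {Q : Type u} {Q' : Type w} [PartialOrder Q] [PartialOrder Q'] (e : Q ≃o Q')
    {m : ℕ} (c : Chain Q' m) : Link (chainCongr e.symm m c) ≃o Link c where
  toFun x := ⟨e x.1, fun i => by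
    rcases x.2 i with h | h
    · left
      have h' : x.1 < e.symm (c.1 i) := h
      exact e.lt_symm_apply.1 h'
    · right
      have h' : e.symm (c.1 i) < x.1 := h
      exact e.symm_apply_lt.1 h'⟩
  invFun x := ⟨e.symm x.1, fun i => by
    rcases x.2 i with h | h
    · left
      exact e.symm.strictMono h
    · right
      exact e.symm.strictMono h⟩
  left_inv x := by
    apply Subtype.ext
    simp
  right_inv x := by
    apply Subtype.ext
    simp
  map_rel_iff' := by
    intro a b
    exact e.le_iff_le

/-- transport of Cohen-Macaulayness -/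
theorem cm_congr {Q : Type u} {Q' : Type w} [PartialOrder Q] [PartialOrder Q'] (e : Q ≃o Q')
    (k : Type v) [Field k] (h : CohenMacaulay k Q) : CohenMacaulay k Q' := by
  intro m c n hne
  obtain ⟨d⟩ := hne
  exact hv_congr (linkCongr e c) k n
    (h m (chainCongr e.symm m c) n ⟨chainCongr (linkCongr e c).symm (n + 1) d⟩)

end Pool.Agent.SR
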