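import Pool.Agent.SR.Defs

/-! M1 of MP_64f3b0_co, Q1: basic operations for the class `G`. -/

namespace Pool.Agent.SR

theorem G.congr {α : Type*} [PartialOrder α] {m : ℕ} {S T : Set α} (h : G m S) (e : S = T) :
    G m T := e ▸ h

theorem G.finite {α : Type*} [PartialOrder α] {m : ℕ} {S : Set α} (h : G (m + 1) S) :
    S.Finite := by
  generalize hk : m + 1 = k at h
  induction h generalizing m with
  | zero S => omega
  | pt m x => exact Set.finite_singleton x
  | add m' S x hx hS hl ih1 ih2 => exact (ih1 (m := m') rfl).insert x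

theorem G.nonempty {α : Type*} [PartialOrder α] {m : ℕ} {S : Set α} (h : G (m + 1) S) :
    S.Nonempty := by
  cases h with
  | pt m x => exact Set.singleton_nonempty x
  | add m S x hx hS hl => exact Set.insert_nonempty _ _

theorem G.cone {α : Type*} [PartialOrder α] {S : Set α} (hS : S.Finite) (a : α) (ha : a ∈ S)
    (h : ∀ y ∈ S, y ≠ a → y < a ∨ a < y) (m : ℕ) : G m S := by
  induction m generalizing S with
  | zero => exact G.zero S
  | succ m ih =>
    classical
    have key : ∀ T : Set α, T.Finite → (∀ y ∈ T, y ≠ a ∧ (y < a ∨ a < y)) →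
        G (m + 1) (insert a T) := by
      intro T hT
      induction T, hT using Set.Finite.induction_on with
      | empty =>
        intro _
        exact (G.pt m a).congr (by simp)
      | @insert x T hx hT ihT =>
        intro hc
        have hc' : ∀ y ∈ T, y ≠ a ∧ (y < a ∨ a < y) := fun y hy => hc y (Or.inr hy)
        have hxa := hc x (Or.inl rfl)
        have h1 := ihT hc'
        have hxn : x ∉ insert a T := by
          rintro (h | h)
          · exact hxa.1 h
          · exact hx h
        have h2 : G m {y | y ∈ insert a T ∧ (y < x ∨ x < y)} := by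
          refine ih ((hT.insert a).subset (fun y hy => hy.1)) ⟨Or.inl rfl, ?_⟩ ?_
          · exact hxa.2.symm
          · rintro y ⟨hy, -⟩ hya
            rcases hy with hy | hy
            · exact absurd hy hya
            · exact (hc' y hy).2
        exact (G.add m _ x hxn h1 h2).congr (Set.insert_comm x a T)
    have := key (S \ {a}) (hS.subset Set.sdiff_subset) (by
      rintro y ⟨hy, hya⟩
      exact ⟨hya, h y hy hya⟩)
    refine this.congr ?_
    rw [Set.insert_sdiff_singleton, Set.insert_eq_of_mem ha]

theorem G.batch {α : Type*} [PartialOrder α] {m : ℕ} {S N : Set α} (hN : N.Finite)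
    (hS : G (m + 1) S) (hd : Disjoint S N) (ω : α → ℕ)
    (hinc : ∀ x ∈ N, ∀ y ∈ N, ω x = ω y → ¬ x < y)
    (hl : ∀ x ∈ N, G m {y | (y ∈ S ∨ (y ∈ N ∧ ω y < ω x)) ∧ (y < x ∨ x < y)}) :
    G (m + 1) (S ∪ N) := by
  classical
  obtain ⟨c, hc⟩ : ∃ c, N.ncard = c := ⟨_, rfl⟩
  induction c generalizing N with
  | zero =>
    have : N = ∅ := (Set.ncard_eq_zero hN).1 hc
    subst this
    exact hS.congr (by simp)
  | succ c ih =>
    have hne : N.Nonempty := by
      rw [Set.nonempty_iff_ne_empty]
      rintro rfl
      simp at hc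
    obtain ⟨x, hxN, hxmax⟩ := Set.exists_max_image N ω hN hne
    have hN' : (N \ {x}).Finite := hN.subset Set.sdiff_subset
    have hc' : (N \ {x}).ncard = c := by
      have := Set.ncard_sdiff_singleton_of_mem hxN
      omega
    have h1 : G (m + 1) (S ∪ (N \ {x})) := by
      refine ih hN' (hd.mono_right Set.sdiff_subset) ?_ ?_ hc'
      · intro a ha b hb
        exact hinc a ha.1 b hb.1
      · intro a ha
        refine (hl a ha.1).congr ?_
        ext y
        simp only [Set.mem_ofPred_eq, Set.mem_sdiff, Set.mem_singleton_iff]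
        constructor
        · rintro ⟨h | ⟨h, h'⟩, hc⟩
          · exact ⟨Or.inl h, hc⟩
          · refine ⟨Or.inr ⟨⟨h, ?_⟩, h'⟩, hc⟩
            rintro rfl
            exact absurd (hxmax a ha.1) (not_le.2 h')
        · rintro ⟨h | ⟨⟨h, -⟩, h'⟩, hc⟩
          · exact ⟨Or.inl h, hc⟩
          · exact ⟨Or.inr ⟨h, h'⟩, hc⟩
    have hxS : x ∉ S := fun h => (Set.disjoint_left.1 hd) h hxN
    have hxn : x ∉ S ∪ (N \ {x}) := by
      rintro (h | h)
      · exact hxS h
      · exact h.2 rfl
    have h2 : G m {y | y ∈ S ∪ (N \ {x}) ∧ (y < x ∨ x < y)} := by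
      refine (hl x hxN).congr ?_
      ext y
      simp only [Set.mem_ofPred_eq, Set.mem_union, Set.mem_sdiff, Set.mem_singleton_iff]
      constructor
      · rintro ⟨h | ⟨h, h'⟩, hc⟩
        · exact ⟨Or.inl h, hc⟩
        · refine ⟨Or.inr ⟨h, ?_⟩, hc⟩
          rintro rfl
          exact lt_irrefl _ h'
      · rintro ⟨h | ⟨h, hyx⟩, hc⟩
        · exact ⟨Or.inl h, hc⟩
        · refine ⟨Or.inr ⟨h, ?_⟩, hc⟩
          refine lt_of_le_of_ne (hxmax y h) ?_
          intro he
          rcases hc with hc | hc
          · exact hinc y h x hxN he hc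
          · exact hinc x hxN y h he.symm hc
    refine (G.add m _ x hxn h1 h2).congr ?_
    ext y
    simp only [Set.mem_insert_iff, Set.mem_union, Set.mem_sdiff, Set.mem_singleton_iff]
    constructor
    · rintro (h | h | h)
      · exact Or.inr (h ▸ hxN)
      · exact Or.inl h
      · exact Or.inr h.1
    · rintro (h | h)
      · exact Or.inr (Or.inl h)
      · by_cases hyx : y = x
        · exact Or.inl hyx
        · exact Or.inr (Or.inr ⟨h, hyx⟩)

theorem G.join {α : Type*} [PartialOrder α] {p q : ℕ} {A B : Set α} (hA : G p A) (hB : G q B)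
    (fA : A.Finite) (fB : B.Finite) (h : ∀ a ∈ A, ∀ b ∈ B, a < b) : G (p + q) (A ∪ B) := by
  classical
  induction hA generalizing q B with
  | zero A =>
    -- `p = 0`
    rw [Nat.zero_add]
    clear fB
    induction hB generalizing A with
    | zero B => exact G.zero _
    | pt m x =>
      refine G.cone (fA.union (Set.finite_singleton x)) x (Or.inr rfl) ?_ _
      rintro y (hy | hy) hyx
      · exact Or.inl (h y hy x rfl)
      · exact absurd hy hyx
    | add m B x hx hB hl ih1 ih2 =>
      by_cases hxA : x ∈ A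
      · exact absurd (h x hxA x (Or.inl rfl)) (lt_irrefl _)
      have h1 : G (m + 1) (A ∪ B) := ih1 A fA (fun a ha b hb => h a ha b (Or.inr hb))
      have h2 : G m {y | y ∈ A ∪ B ∧ (y < x ∨ x < y)} := by
        refine (ih2 A fA (fun a ha b hb => h a ha b (Or.inr hb.1))).congr ?_
        ext y
        simp only [Set.mem_ofPred_eq, Set.mem_union]
        constructor
        · rintro (hy | ⟨hy, hc⟩)
          · exact ⟨Or.inl hy, Or.inl (h y hy x (Or.inl rfl))⟩
          · exact ⟨Or.inr hy, hc⟩
        · rintro ⟨hy | hy, hc⟩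
          · exact Or.inl hy
          · exact Or.inr ⟨hy, hc⟩
      refine (G.add m (A ∪ B) x ?_ h1 h2).congr ?_
      · rintro (hh | hh)
        · exact hxA hh
        · exact hx hh
      · rw [Set.union_insert]
  | pt m x =>
    refine G.cone (fA.union fB) x (Or.inl rfl) ?_ _
    rintro y (hy | hy) hyx
    · exact absurd hy hyx
    · exact Or.inr (h x rfl y hy)
  | add m A x hx hA hl ih1 ih2 =>
    have fA' : A.Finite := fA.subset (Set.subset_insert _ _)
    by_cases hxB : x ∈ B
    · exact absurd (h x (Or.inl rfl) x hxB) (lt_irrefl _)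
    have h1 : G (m + 1 + q) (A ∪ B) := ih1 hB fA' fB (fun a ha b hb => h a (Or.inr ha) b hb)
    have h2 : G (m + q) {y | y ∈ A ∪ B ∧ (y < x ∨ x < y)} := by
      refine (ih2 hB (fA'.subset (fun y hy => hy.1)) fB
        (fun a ha b hb => h a (Or.inr ha.1) b hb)).congr ?_
      ext y
      simp only [Set.mem_ofPred_eq, Set.mem_union]
      constructor
      · rintro (⟨hy, hc⟩ | hy)
        · exact ⟨Or.inl hy, hc⟩
        · exact ⟨Or.inr hy, Or.inr (h x (Or.inl rfl) y hy)⟩
      · rintro ⟨hy | hy, hc⟩
        · exact Or.inl ⟨hy, hc⟩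
        · exact Or.inr hy
    have e1 : m + 1 + q = m + q + 1 := by omega
    rw [e1] at h1 ⊢
    refine (G.add (m + q) (A ∪ B) x ?_ h1 h2).congr ?_
    · rintro (hh | hh)
      · exact hx hh
      · exact hxB hh
    · rw [Set.insert_union]

end Pool.Agent.SR
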