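import Pool.Agent.SR.Defs
import Pool.Agent.SR.M1

namespace Pool.Agent.SR

open Pool.Agent.helper45.OC

lemma m4_fin {ι : Type*} (U : Finset ι) (S : Set (Finset ι)) (h : ∀ y ∈ S, y ⊆ U) : S.Finite := by
  classical
  exact (Finset.finite_toSet U.powerset).subset
    (fun y hy => by simpa [Finset.mem_powerset] using h y hy)

theorem G_bool_aux {ι : Type*} [DecidableEq ι] (r : ℕ)
    (ih : ∀ x U : Finset ι, x ⊆ U → x.card + r ≤ U.card →
      G r {y : Finset ι | x ⊂ y ∧ y ⊆ U ∧ y.card ≤ x.card + r})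
    (x U : Finset ι) (s0 : ι) (hx : x ⊆ U) (h0U : s0 ∈ U) (h0x : s0 ∉ x) (D : Set (Finset ι))
    (hD : ∀ y ∈ D, s0 ∉ y ∧ y.card = x.card + (r + 1)) :
    G (r + 1) ({y : Finset ι | x ⊂ y ∧ y ⊆ U ∧ y.card ≤ x.card + (r + 1)} \ D) := by
  -- the sets containing `s0`
  set A : Set (Finset ι) := {y | x ⊂ y ∧ y ⊆ U ∧ s0 ∈ y ∧ y.card ≤ x.card + (r + 1)} with hA
  set N1 : Set (Finset ι) := {y | x ⊂ y ∧ y ⊆ U ∧ s0 ∉ y ∧ y.card < x.card + (r + 1)} with hN1
  set N2 : Set (Finset ι) := {y | x ⊂ y ∧ y ⊆ U ∧ s0 ∉ y ∧ y.card = x.card + (r + 1) ∧ y ∉ D}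
    with hN2
  have fA : A.Finite := m4_fin U A (fun y hy => hy.2.1)
  have fN1 : N1.Finite := m4_fin U N1 (fun y hy => hy.2.1)
  have fN2 : N2.Finite := m4_fin U N2 (fun y hy => hy.2.1)
  have gA : G (r + 1) A := by
    refine G.cone fA (insert s0 x) ?_ ?_ _
    · refine ⟨Finset.ssubset_insert h0x, ?_, Finset.mem_insert_self _ _, ?_⟩
      · exact Finset.insert_subset h0U hx
      · rw [Finset.card_insert_of_notMem h0x]; omega
    · rintro y ⟨h1, h2, h3, h4⟩ hne
      right
      have h5 : insert s0 x ⊆ y := Finset.insert_subset h3 h1.subset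
      exact lt_of_le_of_ne h5 (Ne.symm hne)
  have gB : G (r + 1) (A ∪ N1) := by
    refine G.batch fN1 gA ?_ (fun y => y.card) ?_ ?_
    · rw [Set.disjoint_left]
      rintro y ⟨_, _, h3, _⟩ ⟨_, _, h3', _⟩
      exact h3' h3
    · intro y _ z _ hyz hlt
      have := Finset.card_lt_card hlt
      omega
    · rintro y ⟨y1, y2, y3, y4⟩
      refine G.cone ?_ (insert s0 y) ?_ ?_ _
      · refine m4_fin U _ ?_
        rintro z ⟨hz | hz, _⟩
        · exact hz.2.1
        · exact hz.1.2.1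
      · refine ⟨Or.inl ⟨?_, ?_, Finset.mem_insert_self _ _, ?_⟩, Or.inr (Finset.ssubset_insert y3)⟩
        · exact y1.trans (Finset.ssubset_insert y3)
        · exact Finset.insert_subset h0U y2
        · rw [Finset.card_insert_of_notMem y3]; omega
      · rintro z ⟨hz | ⟨hz, hzc⟩, hlt | hlt⟩ hne
        · exact absurd (hlt.subset hz.2.2.1) y3
        · right
          have h5 : insert s0 y ⊆ z := Finset.insert_subset hz.2.2.1 hlt.subset
          exact lt_of_le_of_ne h5 (Ne.symm hne)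
        · left
          exact lt_trans hlt (Finset.ssubset_insert y3)
        · have := Finset.card_lt_card hlt
          omega
  have gC : G (r + 1) (A ∪ N1 ∪ N2) := by
    refine G.batch fN2 gB ?_ (fun _ => 0) ?_ ?_
    · rw [Set.disjoint_left]
      rintro y (⟨_, _, h3, _⟩ | ⟨_, _, _, h4⟩) ⟨_, _, h3', h4', _⟩
      · exact h3' h3
      · omega
    · rintro y ⟨_, _, _, hy, _⟩ z ⟨_, _, _, hz, _⟩ _ hlt
      have := Finset.card_lt_card hlt
      omega
    · rintro y ⟨y1, y2, y3, y4, y5⟩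
      have e : {z | (z ∈ A ∪ N1 ∨ (z ∈ N2 ∧ (fun _ : Finset ι => 0) z < (fun _ : Finset ι => 0) y)) ∧
          (z < y ∨ y < z)} = {z : Finset ι | x ⊂ z ∧ z ⊆ y ∧ z.card ≤ x.card + r} := by
        ext z
        constructor
        · rintro ⟨(hz | hz) | ⟨_, hz⟩, hlt | hlt⟩
          · exact absurd (hlt.subset hz.2.2.1) y3
          · have := Finset.card_lt_card hlt
            have := hz.2.2.2
            omega
          · have := Finset.card_lt_card hlt
            exact ⟨hz.1, hlt.subset, by omega⟩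
          · have := Finset.card_lt_card hlt
            have := hz.2.2.2
            omega
          · simp at hz
          · simp at hz
        · rintro ⟨h1, h2, h3⟩
          have hlt : z ⊂ y := by
            refine lt_of_le_of_ne h2 ?_
            rintro rfl
            omega
          refine ⟨Or.inl (Or.inr ⟨h1, h2.trans y2, fun h => y3 (h2 h), by omega⟩), Or.inl hlt⟩
      rw [e]
      exact ih x y y1.subset (by omega)
  have e : ({y : Finset ι | x ⊂ y ∧ y ⊆ U ∧ y.card ≤ x.card + (r + 1)} \ D) = A ∪ N1 ∪ N2 := by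
    ext y
    constructor
    · rintro ⟨⟨h1, h2, h3⟩, h4⟩
      by_cases hs : s0 ∈ y
      · exact Or.inl (Or.inl ⟨h1, h2, hs, h3⟩)
      · rcases h3.lt_or_eq with h5 | h5
        · exact Or.inl (Or.inr ⟨h1, h2, hs, h5⟩)
        · exact Or.inr ⟨h1, h2, hs, h5, h4⟩
    · rintro ((⟨h1, h2, h3, h4⟩ | ⟨h1, h2, h3, h4⟩) | ⟨h1, h2, h3, h4, h5⟩)
      · exact ⟨⟨h1, h2, h4⟩, fun h => (hD y h).1 h3⟩
      · exact ⟨⟨h1, h2, h4.le⟩, fun h => by have := (hD y h).2; omega⟩
      · exact ⟨⟨h1, h2, h4.le⟩, h5⟩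
  rw [e]
  exact gC

/-! ## M4: truncated Boolean intervals -/

theorem G_bool {ι : Type*} [DecidableEq ι] (x U : Finset ι) (r : ℕ) (hx : x ⊆ U)
    (hr : x.card + r ≤ U.card) :
    G r {y : Finset ι | x ⊂ y ∧ y ⊆ U ∧ y.card ≤ x.card + r} := by
  induction r generalizing x U with
  | zero => exact G.zero _
  | succ r ih =>
    obtain ⟨s0, h0U, h0x⟩ : ∃ s0 ∈ U, s0 ∉ x := by
      by_contra hcon
      push Not at hcon
      have : U ⊆ x := fun s hs => hcon s hs
      have := Finset.card_le_card this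
      omega
    have h := G_bool_aux r (fun x U h1 h2 => ih x U h1 h2) x U s0 hx h0U h0x ∅ (by simp)
    simpa using h

theorem G_bool_del {ι : Type*} [DecidableEq ι] (x U w : Finset ι) (r : ℕ) (hx : x ⊆ U)
    (hr : x.card + r < U.card) (hw : x ⊂ w) (hwU : w ⊆ U) (hwc : w.card = x.card + r) :
    G r ({y : Finset ι | x ⊂ y ∧ y ⊆ U ∧ y.card ≤ x.card + r} \ {w}) := by
  rcases r with _ | r
  · exact G.zero _
  · obtain ⟨s0, h0U, h0w⟩ : ∃ s0 ∈ U, s0 ∉ w := by
      by_contra hcon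
      push Not at hcon
      have : U ⊆ w := fun s hs => hcon s hs
      have := Finset.card_le_card this
      omega
    refine G_bool_aux r (fun x U h1 h2 => G_bool x U r h1 h2) x U s0 hx h0U
      (fun h => h0w (hw.subset h)) {w} ?_
    rintro y rfl
    exact ⟨h0w, hwc⟩

end Pool.Agent.SR
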