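import Pool.Agent.SR.M1
import Pool.Agent.SR.M4

/-! # M5: skeleta of (simplex) times (cube) -/

namespace Pool.Agent.SR

/-- the hitting subsets of `U` of size `< m + |κ|` -/
def FF {ι κ : Type*} [Fintype κ] (p : ι → κ) (U : Finset ι) (m : ℕ) : Set (Finset ι) :=
  {y : Finset ι | Hits p y ∧ y ⊆ U ∧ y.card < m + Fintype.card κ}

theorem m5_fin {ι : Type*} [DecidableEq ι] (U : Finset ι) {S : Set (Finset ι)}
    (h : ∀ y ∈ S, y ⊆ U) : S.Finite :=
  (U.powerset.finite_toSet).subset (fun y hy => by
    simpa using h y hy)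

theorem G_step {ι κ : Type*} [DecidableEq ι] [Fintype κ] (p : ι → κ)
    (U : Finset ι) (e f : ι) (he : e ∈ U) (hf : f ∈ U) (hef : e ≠ f) (hp : p f = p e)
    (hblk : ∀ i ∈ U, p i = p e → i = e ∨ i = f) (m : ℕ)
    (hI : G (m + 1) (FF p (U.erase e) (m + 1)))
    (hII : ∀ y : Finset ι, Hits p y → y ⊆ U → e ∈ y → f ∉ y → y.card = m + Fintype.card κ →
      G m (FF p y m))
    (O : Set (Finset ι)) (hO : ∀ y ∈ O, e ∈ y ∧ f ∉ y ∧ y.card = m + Fintype.card κ) :
    G (m + 1) (FF p U (m + 1) \ O) := by
  classical
  -- a hitting subset of `U` which avoids `f` contains `e`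
  have hcon : ∀ z : Finset ι, Hits p z → z ⊆ U → f ∉ z → e ∈ z := by
    intro z hz hzU hfz
    obtain ⟨i, hi, hpi⟩ := hz (p e)
    rcases hblk i (hzU hi) hpi with rfl | rfl
    · exact hi
    · exact absurd hi hfz
  have hcon' : ∀ z : Finset ι, Hits p z → z ⊆ U → e ∉ z → f ∈ z := by
    intro z hz hzU hez
    obtain ⟨i, hi, hpi⟩ := hz (p e)
    rcases hblk i (hzU hi) hpi with rfl | rfl
    · exact absurd hi hez
    · exact hi
  have hup : ∀ y z : Finset ι, Hits p y → y ⊆ z → Hits p z := by
    intro y z hy hyz b
    obtain ⟨i, hi, hpi⟩ := hy b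
    exact ⟨i, hyz hi, hpi⟩
  set c := Fintype.card κ with hc
  set S0 : Set (Finset ι) := FF p (U.erase e) (m + 1) with hS0
  set N1 : Set (Finset ι) :=
    {y | Hits p y ∧ y ⊆ U ∧ y.card < m + 1 + c ∧ e ∈ y ∧ f ∈ y} with hN1
  set N2 : Set (Finset ι) :=
    {y | Hits p y ∧ y ⊆ U ∧ y.card + 1 < m + 1 + c ∧ e ∈ y ∧ f ∉ y} with hN2
  set N3 : Set (Finset ι) :=
    {y | Hits p y ∧ y ⊆ U ∧ y.card = m + c ∧ e ∈ y ∧ f ∉ y ∧ y ∉ O} with hN3
  have memS0 : ∀ y, y ∈ S0 ↔ Hits p y ∧ y ⊆ U ∧ y.card < m + 1 + c ∧ e ∉ y := by
    intro y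
    rw [hS0]
    simp only [FF, Set.mem_ofPred_eq, Finset.subset_erase]
    tauto
  have fin : ∀ S : Set (Finset ι), (∀ y ∈ S, y ⊆ U) → S.Finite := fun S h => m5_fin U h
  -- step (ii)
  have h1 : G (m + 1) (S0 ∪ N1) := by
    refine G.batch (fin _ fun y hy => hy.2.1) hI ?_ (fun y => U.card - y.card) ?_ ?_
    · rw [Set.disjoint_left]
      intro y hy hy'
      exact ((memS0 y).1 hy).2.2.2 hy'.2.2.2.1
    · intro x hx y hy hxy hlt
      have h1 := Finset.card_le_card hx.2.1
      have h2 := Finset.card_le_card hy.2.1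
      have h3 := Finset.card_lt_card hlt
      have hxy' : U.card - x.card = U.card - y.card := hxy
      omega
    · intro x hx
      obtain ⟨hxH, hxU, hxc, hxe, hxf⟩ := hx
      have hW : x.erase e ∈ S0 := by
        rw [memS0]
        refine ⟨?_, (Finset.erase_subset _ _).trans hxU, ?_, by simp⟩
        · intro b
          obtain ⟨i, hi, hpi⟩ := hxH b
          by_cases hie : i = e
          · subst hie
            exact ⟨f, by simp [hxf, hef.symm], hp.trans hpi⟩
          · exact ⟨i, by simp [hi, hie], hpi⟩
        · have := Finset.card_erase_lt_of_mem hxe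
          omega
      have hWx : x.erase e < x := Finset.erase_ssubset hxe
      refine G.cone (fin _ ?_) (x.erase e) (by exact ⟨Or.inl hW, Or.inl hWx⟩) ?_ m
      · rintro y ⟨hy | hy, -⟩
        · exact ((memS0 y).1 hy).2.1
        · exact hy.1.2.1
      · rintro y ⟨hy, hyx⟩ hne
        rcases hy with hy | ⟨hy, hω⟩
        · have hy' := (memS0 y).1 hy
          rcases hyx with hyx | hyx
          · left
            refine lt_of_le_of_ne ?_ hne
            exact Finset.subset_erase.2 ⟨hyx.1, hy'.2.2.2⟩
          · exact absurd (hyx.1 hxe) hy'.2.2.2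
        · rcases hyx with hyx | hyx
          · exfalso
            have h1 := Finset.card_le_card hxU
            have h2 := Finset.card_le_card hy.2.1
            have h3 := Finset.card_lt_card hyx
            have hω' : U.card - y.card < U.card - x.card := hω
            omega
          · right
            exact hWx.trans hyx
  -- step (iii)
  have h2 : G (m + 1) (S0 ∪ N1 ∪ N2) := by
    refine G.batch (fin _ fun y hy => hy.2.1) h1 ?_ (fun y => y.card) ?_ ?_
    · rw [Set.disjoint_left]
      rintro y (hy | hy) hy'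
      · exact ((memS0 y).1 hy).2.2.2 hy'.2.2.2.1
      · exact hy'.2.2.2.2 hy.2.2.2.2
    · intro x hx y hy hxy hlt
      have h3 := Finset.card_lt_card hlt
      have hxy' : x.card = y.card := hxy
      omega
    · intro x hx
      obtain ⟨hxH, hxU, hxc, hxe, hxf⟩ := hx
      have hA : insert f x ∈ N1 := by
        refine ⟨hup x _ hxH (Finset.subset_insert _ _), Finset.insert_subset hf hxU, ?_,
          Finset.mem_insert_of_mem hxe, Finset.mem_insert_self _ _⟩
        rw [Finset.card_insert_of_notMem hxf]
        exact hxc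
      have hxA : x < insert f x := Finset.ssubset_insert hxf
      refine G.cone (fin _ ?_) (insert f x) (by exact ⟨Or.inl (Or.inr hA), Or.inr hxA⟩) ?_ m
      · rintro y ⟨(hy | hy) | hy, -⟩
        · exact ((memS0 y).1 hy).2.1
        · exact hy.2.1
        · exact hy.1.2.1
      · rintro y ⟨hy, hyx⟩ hne
        rcases hy with (hy | hy) | ⟨hy, hω⟩
        · have hy' := (memS0 y).1 hy
          rcases hyx with hyx | hyx
          · exact absurd (hyx.1 (hcon' y hy'.1 hy'.2.1 hy'.2.2.2)) hxf
          · exact absurd (hyx.1 hxe) hy'.2.2.2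
        · rcases hyx with hyx | hyx
          · exact absurd (hyx.1 hy.2.2.2.2) hxf
          · right
            refine lt_of_le_of_ne ?_ (Ne.symm hne)
            exact Finset.insert_subset hy.2.2.2.2 hyx.1
        · rcases hyx with hyx | hyx
          · left
            exact hyx.trans hxA
          · exfalso
            have h3 := Finset.card_lt_card hyx
            have hω' : y.card < x.card := hω
            omega
  -- step (iv)
  have h3 : G (m + 1) (S0 ∪ N1 ∪ N2 ∪ N3) := by
    refine G.batch (fin _ fun y hy => hy.2.1) h2 ?_ (fun _ => 0) ?_ ?_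
    · rw [Set.disjoint_left]
      rintro y ((hy | hy) | hy) hy'
      · exact ((memS0 y).1 hy).2.2.2 hy'.2.2.2.1
      · exact hy'.2.2.2.2.1 hy.2.2.2.2
      · have h1 := hy.2.2.1
        have h2 := hy'.2.2.1
        omega
    · intro x hx y hy _ hlt
      have h3 := Finset.card_lt_card hlt
      have h1 := hx.2.2.1
      have h2 := hy.2.2.1
      omega
    · intro x hx
      obtain ⟨hxH, hxU, hxc, hxe, hxf, hxO⟩ := hx
      have key : {y | (y ∈ S0 ∪ N1 ∪ N2 ∨ (y ∈ N3 ∧ (0 : ℕ) < 0)) ∧ (y < x ∨ x < y)} =
          FF p x m := by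
        ext y
        simp only [FF, Set.mem_ofPred_eq]
        constructor
        · rintro ⟨((hy | hy) | hy) | ⟨-, hy⟩, hyx⟩
          · have hy' := (memS0 y).1 hy
            rcases hyx with hyx | hyx
            · exact absurd (hyx.1 (hcon' y hy'.1 hy'.2.1 hy'.2.2.2)) hxf
            · exact absurd (hyx.1 hxe) hy'.2.2.2
          · rcases hyx with hyx | hyx
            · exact absurd (hyx.1 hy.2.2.2.2) hxf
            · exfalso
              have h3 := Finset.card_lt_card hyx
              have h4 := hy.2.2.1
              omega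
          · rcases hyx with hyx | hyx
            · have h3 := Finset.card_lt_card hyx
              exact ⟨hy.1, hyx.1, by omega⟩
            · exfalso
              have h3 := Finset.card_lt_card hyx
              have h4 := hy.2.2.1
              omega
          · exact absurd hy (lt_irrefl _)
        · rintro ⟨hyH, hyx, hyc⟩
          have hyU := hyx.trans hxU
          have hyf : f ∉ y := fun h => hxf (hyx h)
          refine ⟨Or.inl (Or.inr ⟨hyH, hyU, by omega, hcon y hyH hyU hyf, hyf⟩), Or.inl ?_⟩
          refine lt_of_le_of_ne hyx ?_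
          rintro rfl
          omega
      rw [key]
      exact hII x hxH hxU hxe hxf hxc
  have hfin : FF p U (m + 1) \ O = S0 ∪ N1 ∪ N2 ∪ N3 := by
    ext y
    constructor
    · rintro ⟨⟨hyH, hyU, hyc⟩, hyO⟩
      by_cases hye : e ∈ y
      · by_cases hyf : f ∈ y
        · exact Or.inl (Or.inl (Or.inr ⟨hyH, hyU, hyc, hye, hyf⟩))
        · by_cases h : y.card = m + c
          · exact Or.inr ⟨hyH, hyU, h, hye, hyf, hyO⟩
          · refine Or.inl (Or.inr ⟨hyH, hyU, ?_, hye, hyf⟩)
            have : y.card < m + 1 + c := hyc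
            omega
      · exact Or.inl (Or.inl (Or.inl ((memS0 y).2 ⟨hyH, hyU, hyc, hye⟩)))
    · rintro (((hy | hy) | hy) | hy)
      · have hy' := (memS0 y).1 hy
        exact ⟨⟨hy'.1, hy'.2.1, hy'.2.2.1⟩, fun h => hy'.2.2.2 (hO y h).1⟩
      · exact ⟨⟨hy.1, hy.2.1, hy.2.2.1⟩, fun h => (hO y h).2.1 hy.2.2.2.2⟩
      · refine ⟨⟨hy.1, hy.2.1, ?_⟩, fun h => ?_⟩
        · have := hy.2.2.1
          show y.card < m + 1 + c
          omega
        · have h1 := (hO y h).2.2
          have h2 := hy.2.2.1
          omega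
      · refine ⟨⟨hy.1, hy.2.1, ?_⟩, hy.2.2.2.2.2⟩
        have := hy.2.2.1
        show y.card < m + 1 + c
        omega
  rw [hfin]
  exact h3

/-- the number of blocks other than `b0` with two elements -/
def cnt2 {ι κ : Type*} [DecidableEq κ] [Fintype κ] (p : ι → κ) (b0 : κ) (U : Finset ι) : ℕ :=
  ((Finset.univ : Finset κ).filter
    (fun b => b ≠ b0 ∧ (U.filter (fun i => p i = b)).card = 2)).card

theorem cnt2_lt {ι κ : Type*} [DecidableEq κ] [Fintype κ] (p : ι → κ) (b0 : κ)
    (U V : Finset ι) (h2 : ∀ b, b ≠ b0 → (U.filter (fun i => p i = b)).card ≤ 2)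
    (hVU : V ⊆ U) (b : κ) (hb : b ≠ b0) (hb2 : (U.filter (fun i => p i = b)).card = 2)
    (hb1 : (V.filter (fun i => p i = b)).card ≤ 1) : cnt2 p b0 V < cnt2 p b0 U := by
  apply Finset.card_lt_card
  rw [Finset.ssubset_iff_of_subset]
  · refine ⟨b, by simp [hb, hb2], ?_⟩
    simp only [Finset.mem_filter, Finset.mem_univ, true_and, not_and]
    intro _ h
    omega
  · intro b' hb'
    simp only [Finset.mem_filter, Finset.mem_univ, true_and] at hb' ⊢
    refine ⟨hb'.1, le_antisymm (h2 b' hb'.1) ?_⟩
    rw [← hb'.2]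
    exact Finset.card_le_card (Finset.filter_subset_filter _ hVU)

theorem G_hit_aux {ι κ : Type*} [DecidableEq ι] [DecidableEq κ] [Fintype κ] (p : ι → κ) (b0 : κ)
    (n : ℕ) : ∀ (U : Finset ι) (_ : Hits p U)
      (_ : ∀ b, b ≠ b0 → (U.filter (fun i => p i = b)).card ≤ 2) (_ : cnt2 p b0 U < n) (m : ℕ),
      G m (FF p U m) := by
  induction n with
  | zero => intro U _ _ h; omega
  | succ n ih =>
    intro U hU h2 hn m
    rcases m with _ | m
    · exact G.zero _
    by_cases hUF : U.card < m + 1 + Fintype.card κ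
    · refine G.cone (m5_fin U fun y hy => hy.2.1) U (by exact ⟨hU, subset_rfl, hUF⟩) ?_ _
      intro y hy hne
      exact Or.inl (lt_of_le_of_ne hy.2.1 hne)
    by_cases hex : ∃ b, b ≠ b0 ∧ (U.filter (fun i => p i = b)).card = 2
    · obtain ⟨b, hb, hb2⟩ := hex
      obtain ⟨e, f, hef, hs⟩ := Finset.card_eq_two.1 hb2
      have hem : e ∈ U.filter (fun i => p i = b) := by rw [hs]; simp
      have hfm : f ∈ U.filter (fun i => p i = b) := by rw [hs]; simp
      rw [Finset.mem_filter] at hem hfm
      have hblk : ∀ i ∈ U, p i = p e → i = e ∨ i = f := by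
        intro i hi hpi
        have : i ∈ U.filter (fun i => p i = b) := by
          rw [Finset.mem_filter]; exact ⟨hi, hpi.trans hem.2⟩
        rw [hs] at this
        simpa using this
      have := G_step p U e f hem.1 hfm.1 hef (hfm.2.trans hem.2.symm) hblk m ?_ ?_ ∅ (by simp)
      · simpa using this
      · refine ih (U.erase e) ?_ ?_ ?_ (m + 1)
        · intro b'
          obtain ⟨i, hi, hpi⟩ := hU b'
          by_cases hie : i = e
          · subst hie
            exact ⟨f, by simp [hfm.1, hef.symm], (hfm.2.trans hem.2.symm).trans hpi⟩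
          · exact ⟨i, by simp [hi, hie], hpi⟩
        · intro b' hb'
          exact (Finset.card_le_card (Finset.filter_subset_filter _
            (Finset.erase_subset _ _))).trans (h2 b' hb')
        · have := cnt2_lt p b0 U (U.erase e) h2 (Finset.erase_subset _ _) b hb hb2 ?_
          · omega
          · have h5 : (U.erase e).filter (fun i => p i = b) ⊆ {f} := by
              intro i hi
              rw [Finset.mem_filter, Finset.mem_erase] at hi
              rcases hblk i hi.1.2 (hi.2.trans hem.2.symm) with h | h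
              · exact absurd h hi.1.1
              · simp [h]
            simpa using Finset.card_le_card h5
      · intro y hyH hyU hye hyf hyc
        refine ih y hyH ?_ ?_ m
        · intro b' hb'
          exact (Finset.card_le_card (Finset.filter_subset_filter _ hyU)).trans (h2 b' hb')
        · have := cnt2_lt p b0 U y h2 hyU b hb hb2 ?_
          · omega
          · have h5 : y.filter (fun i => p i = b) ⊆ {e} := by
              intro i hi
              rw [Finset.mem_filter] at hi
              rcases hblk i (hyU hi.1) (hi.2.trans hem.2.symm) with h | h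
              · simp [h]
              · exact absurd (h ▸ hi.1) hyf
            simpa using Finset.card_le_card h5
    · -- base case
      push Not at hex
      have h1 : ∀ b, b ≠ b0 → (U.filter (fun i => p i = b)).card ≤ 1 := by
        intro b hb
        have h5 := h2 b hb
        have h6 := hex b hb
        omega
      set z := U.filter (fun i => p i ≠ b0) with hz
      have hzU : z ⊆ U := Finset.filter_subset _ _
      have hzc : z.card + 1 = Fintype.card κ := by
        have h5 : z.card = (z.image p).card := by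
          rw [Finset.card_image_of_injOn]
          intro i hi j hj hij
          have hi' : i ∈ U ∧ p i ≠ b0 := by simpa [hz] using hi
          have hj' : j ∈ U ∧ p j ≠ b0 := by simpa [hz] using hj
          have h7 := h1 (p i) hi'.2
          rw [Finset.card_le_one] at h7
          exact h7 i (by simp [hi'.1]) j (by simp [hj'.1, hij])
        have h6 : z.image p = Finset.univ.erase b0 := by
          ext b
          simp only [Finset.mem_image, Finset.mem_erase, Finset.mem_univ, and_true]
          constructor
          · rintro ⟨i, hi, rfl⟩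
            have hi' : i ∈ U ∧ p i ≠ b0 := by simpa [hz] using hi
            exact hi'.2
          · intro hb
            obtain ⟨i, hi, hpi⟩ := hU b
            refine ⟨i, ?_, hpi⟩
            simp [hz, hi, hpi, hb]
        rw [h5, h6, Finset.card_erase_of_mem (Finset.mem_univ _), Finset.card_univ]
        have : 0 < Fintype.card κ := Fintype.card_pos_iff.2 ⟨b0⟩
        omega
      have hset : FF p U (m + 1) =
          {y : Finset ι | z ⊂ y ∧ y ⊆ U ∧ y.card ≤ z.card + (m + 1)} := by
        ext y
        simp only [FF, Set.mem_ofPred_eq]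
        constructor
        · rintro ⟨hyH, hyU, hyc⟩
          refine ⟨?_, hyU, by omega⟩
          rw [Finset.ssubset_iff_of_subset]
          · obtain ⟨i, hi, hpi⟩ := hyH b0
            exact ⟨i, hi, by simp [hz, hpi]⟩
          · intro i hi
            have hi' : i ∈ U ∧ p i ≠ b0 := by simpa [hz] using hi
            obtain ⟨j, hj, hpj⟩ := hyH (p i)
            have h7 := h1 (p i) hi'.2
            rw [Finset.card_le_one] at h7
            have := h7 i (by simp [hi'.1]) j (by simp [hyU hj, hpj])
            rw [this]; exact hj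
        · rintro ⟨hzy, hyU, hyc⟩
          refine ⟨?_, hyU, by omega⟩
          intro b
          by_cases hb : b = b0
          · obtain ⟨i, hi, hiz⟩ := Finset.exists_of_ssubset hzy
            refine ⟨i, hi, ?_⟩
            by_contra h
            exact hiz (by simp [hz, hyU hi, hb ▸ h])
          · obtain ⟨i, hi, hpi⟩ := hU b
            exact ⟨i, hzy.1 (by simp [hz, hi, hpi, hb]), hpi⟩
      rw [hset]
      exact G_bool z U (m + 1) hzU (by omega)

theorem G_hit {ι κ : Type*} [DecidableEq ι] [DecidableEq κ] [Fintype κ] (p : ι → κ) (b0 : κ)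
    (U : Finset ι) (hU : Hits p U) (h2 : ∀ b, b ≠ b0 → (U.filter (fun i => p i = b)).card ≤ 2)
    (m : ℕ) : G m {y : Finset ι | Hits p y ∧ y ⊆ U ∧ y.card < m + Fintype.card κ} :=
  G_hit_aux p b0 (cnt2 p b0 U + 1) U hU h2 (Nat.lt_succ_self _) m

theorem G_hit_del {ι κ : Type*} [DecidableEq ι] [DecidableEq κ] [Fintype κ] (p : ι → κ) (b0 : κ)
    (U : Finset ι) (hU : Hits p U) (h2 : ∀ b, b ≠ b0 → (U.filter (fun i => p i = b)).card ≤ 2)
    (m : ℕ) (w : Finset ι) (hw : Hits p w) (hwU : w ⊆ U) (hwc : w.card + 1 = m + Fintype.card κ)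
    (b : κ) (hb : b ≠ b0) (hb2 : (U.filter (fun i => p i = b)).card = 2)
    (hb1 : (w.filter (fun i => p i = b)).card = 1) :
    G m ({y : Finset ι | Hits p y ∧ y ⊆ U ∧ y.card < m + Fintype.card κ} \ {w}) := by
  rcases m with _ | m
  · exact G.zero _
  have _ := hb
  obtain ⟨e, hse⟩ := Finset.card_eq_one.1 hb1
  have hew : e ∈ w.filter (fun i => p i = b) := by rw [hse]; simp
  rw [Finset.mem_filter] at hew
  have heU : e ∈ U.filter (fun i => p i = b) := by
    rw [Finset.mem_filter]; exact ⟨hwU hew.1, hew.2⟩
  have hc1 : ((U.filter (fun i => p i = b)).erase e).card = 1 := by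
    rw [Finset.card_erase_of_mem heU, hb2]
  obtain ⟨f, hsf⟩ := Finset.card_eq_one.1 hc1
  have hfm : f ∈ (U.filter (fun i => p i = b)).erase e := by rw [hsf]; simp
  rw [Finset.mem_erase, Finset.mem_filter] at hfm
  rw [Finset.mem_filter] at heU
  have hef : e ≠ f := fun h => hfm.1 h.symm
  have hfw : f ∉ w := by
    intro h
    have : f ∈ w.filter (fun i => p i = b) := by
      rw [Finset.mem_filter]; exact ⟨h, hfm.2.2⟩
    rw [hse] at this
    exact hfm.1 (by simpa using this)
  have hblk : ∀ i ∈ U, p i = p e → i = e ∨ i = f := by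
    intro i hi hpi
    by_cases hie : i = e
    · exact Or.inl hie
    · right
      have : i ∈ (U.filter (fun i => p i = b)).erase e := by
        rw [Finset.mem_erase, Finset.mem_filter]; exact ⟨hie, hi, hpi.trans heU.2⟩
      rw [hsf] at this
      simpa using this
  refine G_step p U e f heU.1 hfm.2.1 hef (hfm.2.2.trans heU.2.symm) hblk m ?_ ?_ {w} ?_
  · refine G_hit p b0 (U.erase e) ?_ ?_ (m + 1)
    · intro b'
      obtain ⟨i, hi, hpi⟩ := hU b'
      by_cases hie : i = e
      · subst hie
        exact ⟨f, by simp [hfm.2.1, hef.symm], (hfm.2.2.trans heU.2.symm).trans hpi⟩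
      · exact ⟨i, by simp [hi, hie], hpi⟩
    · intro b' hb'
      exact (Finset.card_le_card (Finset.filter_subset_filter _
        (Finset.erase_subset _ _))).trans (h2 b' hb')
  · intro y hyH hyU hye hyf hyc
    refine G_hit p b0 y hyH ?_ m
    intro b' hb'
    exact (Finset.card_le_card (Finset.filter_subset_filter _ hyU)).trans (h2 b' hb')
  · intro y hy
    rw [Set.mem_singleton_iff] at hy
    subst hy
    exact ⟨hew.1, hfw, by omega⟩

end Pool.Agent.SR
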