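import Pool.Agent.SR.Defs

namespace Pool.Agent.SR

open Pool.Agent.helper45.OC

/-- the sets removed from the complex: nothing or one facet -/
def Adm (n K M : ℕ) (E : Set (Finset (Gr n K M))) : Prop :=
  E = ∅ ∨ ∃ F ∈ fam n K M, (∀ y ∈ fam n K M, F ⊆ y → y = F) ∧ E = {F}

section basic

variable {n K M : ℕ}

lemma M6a_mem_sS {x : Gr n K M} : x ∈ sS n K M ↔ ∃ i : Fin n, x = Sum.inl (Sum.inl i) := by
  simp only [sS, Finset.mem_image, Finset.mem_univ, true_and]
  exact ⟨fun ⟨i, h⟩ => ⟨i, h.symm⟩, fun ⟨i, h⟩ => ⟨i, h.symm⟩⟩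

lemma M6a_mem_zz {x : Gr n K M} : x ∈ zz n K M ↔ ∃ j : Fin M, x = Sum.inr (j, false) := by
  simp only [zz, Finset.mem_image, Finset.mem_univ, true_and]
  exact ⟨fun ⟨i, h⟩ => ⟨i, h.symm⟩, fun ⟨i, h⟩ => ⟨i, h.symm⟩⟩

lemma M6a_mem_U1 {x : Gr n K M} :
    x ∈ U1 n K M ↔ (∃ i : Fin n, x = Sum.inl (Sum.inl i)) ∨ ∃ q : Fin M × Bool, x = Sum.inr q := by
  rw [U1, Finset.mem_union, M6a_mem_sS]
  simp only [Finset.mem_image, Finset.mem_univ, true_and]
  constructor
  · rintro (h | ⟨q, h⟩)
    · exact Or.inl h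
    · exact Or.inr ⟨q, h.symm⟩
  · rintro (h | ⟨q, h⟩)
    · exact Or.inl h
    · exact Or.inr ⟨q, h.symm⟩

lemma M6a_sS_sub : sS n K M ⊆ U1 n K M := Finset.subset_union_left

lemma M6a_zz_sub : zz n K M ⊆ U1 n K M := by
  intro x hx
  obtain ⟨j, rfl⟩ := M6a_mem_zz.1 hx
  exact M6a_mem_U1.2 (Or.inr ⟨_, rfl⟩)

lemma M6a_ap_U1 (i : Fin K) : (ap i : Gr n K M) ∉ U1 n K M := by
  intro h
  rcases M6a_mem_U1.1 h with ⟨k, hk⟩ | ⟨q, hq⟩
  · simp [ap] at hk
  · simp [ap] at hq

lemma M6a_ap_sS (i : Fin K) : (ap i : Gr n K M) ∉ sS n K M := fun h =>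
  M6a_ap_U1 i (M6a_sS_sub h)

lemma M6a_ap_zz (i : Fin K) : (ap i : Gr n K M) ∉ zz n K M := fun h =>
  M6a_ap_U1 i (M6a_zz_sub h)

lemma M6a_disj : Disjoint (sS n K M) (zz n K M) := by
  rw [Finset.disjoint_left]
  intro x hx hx'
  obtain ⟨i, rfl⟩ := M6a_mem_sS.1 hx
  obtain ⟨j, hj⟩ := M6a_mem_zz.1 hx'
  simp at hj

lemma M6a_card_sS : (sS n K M).card = n := by
  rw [sS, Finset.card_image_of_injective]
  · simp
  · intro a b h
    simpa using h

lemma M6a_card_zz : (zz n K M).card = M := by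
  rw [zz, Finset.card_image_of_injective]
  · simp
  · intro a b h
    simpa using h

lemma M6a_card_U1 : (U1 n K M).card = n + 2 * M := by
  rw [U1, Finset.card_union_of_disjoint, M6a_card_sS, Finset.card_image_of_injective]
  · simp [mul_comm]
  · intro a b h
    simpa using h
  · rw [Finset.disjoint_left]
    intro x hx hx'
    obtain ⟨i, rfl⟩ := M6a_mem_sS.1 hx
    simp at hx'

lemma M6a_card_two {t : Finset (Gr n K M)} (ht : t ⊆ sS n K M) (i : Fin K) :
    (insert (ap i) (t ∪ zz n K M)).card = t.card + M + 1 := by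
  rw [Finset.card_insert_of_notMem, Finset.card_union_of_disjoint, M6a_card_zz]
  · exact M6a_disj.mono_left ht
  · rw [Finset.mem_union]
    rintro (h | h)
    · exact M6a_ap_sS i (ht h)
    · exact M6a_ap_zz i h

lemma M6a_hits_card {y : Finset (Gr n K M)} (h : Hits (blk n K M) y) : M + 1 ≤ y.card := by
  have h1 : (Finset.univ : Finset (Option (Fin M))) ⊆ y.image (blk n K M) := by
    intro b _
    obtain ⟨i, hi, hb⟩ := h b
    exact Finset.mem_image.2 ⟨i, hi, hb⟩
  have h2 := Finset.card_le_card h1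
  rw [Finset.card_univ, Fintype.card_option, Fintype.card_fin] at h2
  exact h2.trans Finset.card_image_le

lemma M6a_hits_two {t : Finset (Gr n K M)} (i : Fin K) :
    Hits (blk n K M) (insert (ap i) (t ∪ zz n K M)) := by
  intro b
  cases b with
  | none => exact ⟨ap i, Finset.mem_insert_self _ _, rfl⟩
  | some j =>
    exact ⟨Sum.inr (j, false), Finset.mem_insert_of_mem (Finset.mem_union_right _
      (M6a_mem_zz.2 ⟨j, rfl⟩)), rfl⟩

lemma M6a_grow {y : Finset (Gr n K M)} (hM : 1 ≤ M) (hy : y ∈ fam n K M)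
    (hc : y.card < n + M) : ∃ y' ∈ fam n K M, y ⊂ y' := by
  rcases hy with ⟨h1, h2, h3⟩ | ⟨i, t, ht, rfl⟩
  · have h4 : ∃ a ∈ U1 n K M, a ∉ y := by
      by_contra hcon
      push Not at hcon
      have h5 := Finset.card_le_card (fun a ha => hcon a ha : U1 n K M ⊆ y)
      rw [M6a_card_U1] at h5
      omega
    obtain ⟨a, ha, ha'⟩ := h4
    refine ⟨insert a y, Or.inl ⟨?_, ?_, ?_⟩, Finset.ssubset_insert ha'⟩
    · intro b
      obtain ⟨i, hi, hb⟩ := h1 b
      exact ⟨i, Finset.mem_insert_of_mem hi, hb⟩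
    · exact Finset.insert_subset ha h2
    · rw [Finset.card_insert_of_notMem ha']
      omega
  · rw [M6a_card_two ht.1] at hc
    have h4 : ∃ a ∈ sS n K M, a ∉ t := by
      by_contra hcon
      push Not at hcon
      exact ht.2 hcon
    obtain ⟨a, ha, ha'⟩ := h4
    have h5 : (insert a t).card = t.card + 1 := Finset.card_insert_of_notMem ha'
    have h6 : insert a t ⊂ sS n K M := by
      refine ⟨Finset.insert_subset ha ht.1, fun h => ?_⟩
      have h7 := Finset.card_le_card h
      rw [M6a_card_sS, h5] at h7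
      omega
    refine ⟨insert (ap i) (insert a t ∪ zz n K M), Or.inr ⟨i, insert a t, h6, rfl⟩, ?_, ?_⟩
    · refine Finset.insert_subset_insert _ (Finset.union_subset_union_left ?_)
      exact Finset.subset_insert _ _
    · intro h
      have h8 : a ∈ insert (ap i) (t ∪ zz n K M) := h (Finset.mem_insert_of_mem
        (Finset.mem_union_left _ (Finset.mem_insert_self _ _)))
      rcases Finset.mem_insert.1 h8 with h9 | h9
      · rw [h9] at ha
        exact M6a_ap_sS i ha
      · rcases Finset.mem_union.1 h9 with h9 | h9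
        · exact ha' h9
        · exact (Finset.disjoint_left.1 M6a_disj ha) h9

end basic

/-- M6a : facets have rank `n - 1`, ranks, down-closedness -/
theorem fam_basic {n K M : ℕ} (hn : 2 ≤ n) (hM : n ≤ M) (hK : 1 ≤ K) :
    (∀ y ∈ fam n K M, Hits (blk n K M) y ∧ M + 1 ≤ y.card ∧ y.card ≤ n + M) ∧
    (∀ y ∈ fam n K M, ∀ x : Finset (Gr n K M), Hits (blk n K M) x → x ⊆ y → x ∈ fam n K M) ∧
    (∀ F ∈ fam n K M, (∀ y ∈ fam n K M, F ⊆ y → y = F) → F.card = n + M) ∧
    (∀ y ∈ fam n K M, y.card < n + M → ∃ y' ∈ fam n K M, y ⊂ y') := by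
  have h1 : ∀ y ∈ fam n K M, Hits (blk n K M) y ∧ M + 1 ≤ y.card ∧ y.card ≤ n + M := by
    rintro y (⟨h1, h2, h3⟩ | ⟨i, t, ht, rfl⟩)
    · exact ⟨h1, M6a_hits_card h1, h3⟩
    · refine ⟨M6a_hits_two i, M6a_hits_card (M6a_hits_two i), ?_⟩
      rw [M6a_card_two ht.1]
      have h4 := Finset.card_lt_card ht
      rw [M6a_card_sS] at h4
      omega
  have h4 : ∀ y ∈ fam n K M, y.card < n + M → ∃ y' ∈ fam n K M, y ⊂ y' :=
    fun y hy hc => M6a_grow (by omega) hy hc
  refine ⟨h1, ?_, ?_, h4⟩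
  · rintro y (⟨h5, h6, h7⟩ | ⟨i, t, ht, rfl⟩) x hx hxy
    · exact Or.inl ⟨hx, hxy.trans h6, (Finset.card_le_card hxy).trans h7⟩
    · have hz : zz n K M ⊆ x := by
        intro e he
        obtain ⟨j, rfl⟩ := M6a_mem_zz.1 he
        obtain ⟨e', he', hb⟩ := hx (some j)
        rcases Finset.mem_insert.1 (hxy he') with h | h
        · rw [h] at hb
          simp [ap, blk] at hb
        · rcases Finset.mem_union.1 h with h | h
          · obtain ⟨k, rfl⟩ := M6a_mem_sS.1 (ht.1 h)
            simp [blk] at hb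
          · obtain ⟨k, rfl⟩ := M6a_mem_zz.1 h
            simp only [blk, Option.some.injEq] at hb
            rw [← hb]
            exact he'
      by_cases ha : (ap i : Gr n K M) ∈ x
      · refine Or.inr ⟨i, x ∩ sS n K M, ?_, ?_⟩
        · refine lt_of_le_of_lt (?_ : x ∩ sS n K M ⊆ t) ht
          intro e he
          obtain ⟨he1, he2⟩ := Finset.mem_inter.1 he
          rcases Finset.mem_insert.1 (hxy he1) with h | h
          · rw [h] at he2
            exact absurd he2 (M6a_ap_sS i)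
          · rcases Finset.mem_union.1 h with h | h
            · exact h
            · exact absurd h (Finset.disjoint_left.1 M6a_disj he2)
        · apply Finset.Subset.antisymm
          · intro e he
            rcases Finset.mem_insert.1 (hxy he) with h | h
            · rw [h]
              exact Finset.mem_insert_self _ _
            · apply Finset.mem_insert_of_mem
              rcases Finset.mem_union.1 h with h | h
              · exact Finset.mem_union_left _ (Finset.mem_inter.2 ⟨he, ht.1 h⟩)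
              · exact Finset.mem_union_right _ h
          · intro e he
            rcases Finset.mem_insert.1 he with h | h
            · rw [h]
              exact ha
            · rcases Finset.mem_union.1 h with h | h
              · exact (Finset.mem_inter.1 h).1
              · exact hz h
      · have hx2 : x ⊆ t ∪ zz n K M := by
          intro e he
          rcases Finset.mem_insert.1 (hxy he) with h | h
          · rw [h] at he
            exact absurd he ha
          · exact h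
        refine Or.inl ⟨hx, hx2.trans (Finset.union_subset (ht.1.trans M6a_sS_sub) M6a_zz_sub), ?_⟩
        refine (Finset.card_le_card hxy).trans (h1 _ (Or.inr ⟨i, t, ht, rfl⟩)).2.2
  · intro F hF hmax
    by_contra hcon
    have h5 := (h1 F hF).2.2
    obtain ⟨y', hy', hss⟩ := h4 F hF (by omega)
    exact hss.2 (by rw [hmax y' hy' hss.1])

/-! ### dimension -/

section dim

variable {n K M : ℕ}

/-- the first `m` vertices of the simplex together with the vertex `0` of the cube -/
def M6a_A (n K M m : ℕ) : Finset (Gr n K M) :=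
  (Finset.univ.filter (fun k : Fin n => k.val < m)).image (fun i => Sum.inl (Sum.inl i)) ∪ zz n K M

lemma M6a_mem_A {m : ℕ} {k : Fin n} :
    (Sum.inl (Sum.inl k) : Gr n K M) ∈ M6a_A n K M m ↔ k.val < m := by
  rw [M6a_A, Finset.mem_union]
  constructor
  · rintro (h | h)
    · obtain ⟨i, hi, he⟩ := Finset.mem_image.1 h
      rw [Sum.inl.injEq, Sum.inl.injEq] at he
      rw [← he]
      exact (Finset.mem_filter.1 hi).2
    · obtain ⟨j, hj⟩ := M6a_mem_zz.1 h
      simp at hj
  · intro h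
    exact Or.inl (Finset.mem_image.2 ⟨k, Finset.mem_filter.2 ⟨Finset.mem_univ _, h⟩, rfl⟩)

lemma M6a_A_mono {m m' : ℕ} (h : m ≤ m') : M6a_A n K M m ⊆ M6a_A n K M m' := by
  refine Finset.union_subset_union_left (Finset.image_subset_image ?_)
  intro k hk
  exact Finset.mem_filter.2 ⟨Finset.mem_univ _, lt_of_lt_of_le (Finset.mem_filter.1 hk).2 h⟩

lemma M6a_A_ss {m m' : ℕ} (h : m < m') (hn : m < n) : M6a_A n K M m ⊂ M6a_A n K M m' := by
  refine ⟨M6a_A_mono h.le, fun h' => ?_⟩
  have h1 : (Sum.inl (Sum.inl (⟨m, hn⟩ : Fin n)) : Gr n K M) ∈ M6a_A n K M m' :=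
    M6a_mem_A.2 h
  have h2 := M6a_mem_A.1 (h' h1)
  simp at h2

lemma M6a_A_top : M6a_A n K M n = sS n K M ∪ zz n K M := by
  rw [M6a_A, sS]
  congr 2
  ext k
  simp

lemma M6a_A_U1 (m : ℕ) : M6a_A n K M m ⊆ U1 n K M := by
  refine Finset.union_subset ?_ M6a_zz_sub
  intro x hx
  obtain ⟨k, _, rfl⟩ := Finset.mem_image.1 hx
  exact M6a_mem_U1.2 (Or.inl ⟨k, rfl⟩)

lemma M6a_A_card_top : (M6a_A n K M n).card = n + M := by
  rw [M6a_A_top, Finset.card_union_of_disjoint M6a_disj, M6a_card_sS, M6a_card_zz]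

lemma M6a_A_card {m : ℕ} (h : m < n) : (M6a_A n K M m).card < n + M := by
  have h1 := Finset.card_lt_card (M6a_A_ss (K := K) (M := M) h h)
  rwa [M6a_A_card_top] at h1

lemma M6a_A_fam {m : ℕ} (h0 : 0 < m) (h : m ≤ n) : M6a_A n K M m ∈ fam n K M := by
  refine Or.inl ⟨?_, M6a_A_U1 m, ?_⟩
  · intro b
    cases b with
    | none =>
      exact ⟨Sum.inl (Sum.inl (⟨0, by omega⟩ : Fin n)), M6a_mem_A.2 h0, rfl⟩
    | some j =>
      exact ⟨Sum.inr (j, false), Finset.mem_union_right _ (M6a_mem_zz.2 ⟨j, rfl⟩), rfl⟩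
  · rw [← M6a_A_card_top]
    exact Finset.card_le_card (M6a_A_mono h)

end dim

/-- M6f -/
theorem fam_dim {n K M : ℕ} (hn : 2 ≤ n) (hM : n ≤ M) (hK : 1 ≤ K)
    (E : Set (Finset (Gr n K M))) (hE : Adm n K M E) :
    Nonempty (Chain (↥(fam n K M \ E)) n) ∧ IsEmpty (Chain (↥(fam n K M \ E)) (n + 1)) := by
  obtain ⟨b1, b2, b3, b4⟩ := fam_basic hn hM hK
  constructor
  · -- the sets of the chain below the top are not in `E`
    have hE1 : ∀ y ∈ E, y.card = n + M := by
      rcases hE with rfl | ⟨F, hF, hmax, rfl⟩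
      · intro y hy
        exact absurd hy (Set.notMem_empty _)
      · intro y hy
        rw [Set.mem_singleton_iff.1 hy]
        exact b3 F hF hmax
    have hE2 : ∀ x y, x ∈ E → y ∈ E → x = y := by
      rcases hE with rfl | ⟨F, hF, hmax, rfl⟩
      · intro x y hx
        exact absurd hx (Set.notMem_empty _)
      · intro x y hx hy
        rw [Set.mem_singleton_iff.1 hx, Set.mem_singleton_iff.1 hy]
    have htop : ∃ T ∈ fam n K M, T ∉ E ∧ M6a_A n K M (n - 1) ⊂ T := by
      by_cases hT : M6a_A n K M n ∈ E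
      · let i0 : Fin K := ⟨0, hK⟩
        let t : Finset (Gr n K M) :=
          (Finset.univ.filter (fun k : Fin n => k.val < n - 1)).image
            (fun i => Sum.inl (Sum.inl i))
        have ht : t ⊂ sS n K M := by
          constructor
          · intro x hx
            obtain ⟨k, _, rfl⟩ := Finset.mem_image.1 hx
            exact M6a_mem_sS.2 ⟨k, rfl⟩
          · intro h
            have h1 : (Sum.inl (Sum.inl (⟨n - 1, by omega⟩ : Fin n)) : Gr n K M) ∈ sS n K M :=
              M6a_mem_sS.2 ⟨_, rfl⟩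
            obtain ⟨k, hk, hk'⟩ := Finset.mem_image.1 (h h1)
            rw [Sum.inl.injEq, Sum.inl.injEq] at hk'
            have h2 := (Finset.mem_filter.1 hk).2
            rw [hk'] at h2
            simp at h2
        have hna : (ap i0 : Gr n K M) ∉ M6a_A n K M (n - 1) := fun h =>
          M6a_ap_U1 i0 (M6a_A_U1 _ h)
        refine ⟨insert (ap i0) (M6a_A n K M (n - 1)), Or.inr ⟨i0, t, ht, rfl⟩, ?_,
          Finset.ssubset_insert hna⟩
        intro h
        have h1 := hE2 _ _ h hT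
        have h2 : (ap i0 : Gr n K M) ∈ M6a_A n K M n := by
          rw [← h1]
          exact Finset.mem_insert_self _ _
        exact M6a_ap_U1 i0 (M6a_A_U1 _ h2)
      · exact ⟨_, M6a_A_fam (by omega) le_rfl, hT, M6a_A_ss (by omega) (by omega)⟩
    obtain ⟨T, hT1, hT2, hT3⟩ := htop
    have hA : ∀ i : ℕ, i < n - 1 → M6a_A n K M (i + 1) ∈ fam n K M \ E := by
      intro i hi
      refine ⟨M6a_A_fam (by omega) (by omega), fun h => ?_⟩
      have h1 := hE1 _ h
      have h2 := M6a_A_card (K := K) (M := M) (show i + 1 < n by omega)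
      omega
    refine ⟨⟨fun i => if h : i.val < n - 1 then ⟨M6a_A n K M (i.val + 1), hA i.val h⟩
      else ⟨T, hT1, hT2⟩, ?_⟩⟩
    intro i j hij
    have hij' : i.val < j.val := hij
    have hi : i.val < n - 1 := by omega
    show (if h : i.val < n - 1 then (⟨M6a_A n K M (i.val + 1), hA i.val h⟩ :
      ↥(fam n K M \ E)) else ⟨T, hT1, hT2⟩) < (if h : j.val < n - 1 then
      (⟨M6a_A n K M (j.val + 1), hA j.val h⟩ : ↥(fam n K M \ E)) else ⟨T, hT1, hT2⟩)
    rw [dif_pos hi]
    by_cases hj : j.val < n - 1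
    · rw [dif_pos hj]
      exact M6a_A_ss (by omega) (by omega)
    · rw [dif_neg hj]
      have h5 : M6a_A n K M (i.val + 1) ⊂ T :=
        lt_of_le_of_lt (M6a_A_mono (by omega) : M6a_A n K M (i.val + 1) ≤ M6a_A n K M (n - 1)) hT3
      exact h5
  · refine ⟨fun c => ?_⟩
    have h1 : ∀ i : ℕ, ∀ h : i < n + 1, M + 1 + i ≤ (c.1 ⟨i, h⟩).1.card := by
      intro i
      induction i with
      | zero =>
        intro h
        exact (b1 _ (c.1 ⟨0, h⟩).2.1).2.1
      | succ i ih =>
        intro h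
        have h2 := ih (by omega)
        have h3 : c.1 ⟨i, by omega⟩ < c.1 ⟨i + 1, h⟩ := c.2 (by
          rw [Fin.lt_def]
          simp)
        have h4 : (c.1 ⟨i, by omega⟩).1 ⊂ (c.1 ⟨i + 1, h⟩).1 := h3
        have h5 := Finset.card_lt_card h4
        omega
    have h2 := h1 n (by omega)
    have h3 := (b1 _ (c.1 ⟨n, by omega⟩).2.1).2.2
    omega

end Pool.Agent.SR
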