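import Pool.Agent.SR.Defs
import Pool.Agent.SR.M1
import Pool.Agent.SR.M4
import Pool.Agent.SR.M5
import Pool.Agent.SR.M6a

/-! M6b: the poset `fam` with at most one facet removed is in the class `G n`. -/

namespace Pool.Agent.SR

namespace M6b

variable {n K M : ℕ}

theorem mem_sS {x : Gr n K M} : x ∈ sS n K M ↔ ∃ i : Fin n, x = Sum.inl (Sum.inl i) := by
  simp only [sS, Finset.mem_image, Finset.mem_univ, true_and]
  exact ⟨fun ⟨i, hi⟩ => ⟨i, hi.symm⟩, fun ⟨i, hi⟩ => ⟨i, hi.symm⟩⟩

theorem mem_zz {x : Gr n K M} : x ∈ zz n K M ↔ ∃ j : Fin M, x = Sum.inr (j, false) := by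
  simp only [zz, Finset.mem_image, Finset.mem_univ, true_and]
  exact ⟨fun ⟨i, hi⟩ => ⟨i, hi.symm⟩, fun ⟨i, hi⟩ => ⟨i, hi.symm⟩⟩

theorem mem_U1 {x : Gr n K M} :
    x ∈ U1 n K M ↔ (∃ i : Fin n, x = Sum.inl (Sum.inl i)) ∨ ∃ q : Fin M × Bool, x = Sum.inr q := by
  simp only [U1, Finset.mem_union, mem_sS, Finset.mem_image, Finset.mem_univ, true_and]
  exact or_congr Iff.rfl ⟨fun ⟨i, hi⟩ => ⟨i, hi.symm⟩, fun ⟨i, hi⟩ => ⟨i, hi.symm⟩⟩

theorem ap_U1 (i : Fin K) : (ap i : Gr n K M) ∉ U1 n K M := by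
  rw [mem_U1]
  rintro (⟨j, hj⟩ | ⟨q, hq⟩)
  · simp [ap] at hj
  · simp [ap] at hq

theorem ap_sS (i : Fin K) : (ap i : Gr n K M) ∉ sS n K M := by
  rw [mem_sS]
  rintro ⟨j, hj⟩
  simp [ap] at hj

theorem ap_zz (i : Fin K) : (ap i : Gr n K M) ∉ zz n K M := by
  rw [mem_zz]
  rintro ⟨j, hj⟩
  simp [ap] at hj

theorem disj_sS_zz : Disjoint (sS n K M) (zz n K M) := by
  rw [Finset.disjoint_left]
  intro x hx hx'
  obtain ⟨i, rfl⟩ := mem_sS.mp hx
  obtain ⟨j, hj⟩ := mem_zz.mp hx'
  simp at hj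

theorem card_sS : (sS n K M).card = n := by
  rw [sS, Finset.card_image_of_injective _ (fun a b h => by simpa using h)]
  simp

theorem card_zz : (zz n K M).card = M := by
  rw [zz, Finset.card_image_of_injective _ (fun a b h => by simpa using h)]
  simp

theorem sS_sub_U1 : sS n K M ⊆ U1 n K M := Finset.subset_union_left

theorem zz_sub_U1 : zz n K M ⊆ U1 n K M := by
  intro x hx
  obtain ⟨j, rfl⟩ := mem_zz.mp hx
  exact mem_U1.mpr (Or.inr ⟨_, rfl⟩)

theorem card_tz {t : Finset (Gr n K M)} (ht : t ⊆ sS n K M) :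
    (t ∪ zz n K M).card = t.card + M := by
  rw [Finset.card_union_of_disjoint (Finset.disjoint_of_subset_left ht disj_sS_zz), card_zz]

theorem ap_tz {t : Finset (Gr n K M)} (ht : t ⊆ sS n K M) (i : Fin K) :
    (ap i : Gr n K M) ∉ t ∪ zz n K M := by
  rw [Finset.mem_union]
  rintro (h | h)
  · exact ap_sS i (ht h)
  · exact ap_zz i h

theorem card_cone {t : Finset (Gr n K M)} (ht : t ⊆ sS n K M) (i : Fin K) :
    (insert (ap i) (t ∪ zz n K M)).card = t.card + M + 1 := by
  rw [Finset.card_insert_of_notMem (ap_tz ht i), card_tz ht]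

/-- the only apex in a cone cell -/
theorem ap_mem {t : Finset (Gr n K M)} (ht : t ⊆ sS n K M) {i i' : Fin K}
    (h : (ap i' : Gr n K M) ∈ insert (ap i) (t ∪ zz n K M)) : i' = i := by
  rw [Finset.mem_insert] at h
  rcases h with h | h
  · simpa [ap] using h
  · exact absurd h (ap_tz ht i')

theorem hits_U1 (hn : 2 ≤ n) : Hits (blk n K M) (U1 n K M) := by
  intro b
  cases b with
  | none => exact ⟨Sum.inl (Sum.inl ⟨0, by omega⟩), mem_U1.mpr (Or.inl ⟨_, rfl⟩), rfl⟩
  | some j => exact ⟨Sum.inr (j, false), mem_U1.mpr (Or.inr ⟨_, rfl⟩), rfl⟩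

theorem blk_some {x : Gr n K M} {j : Fin M} :
    blk n K M x = some j ↔ x = Sum.inr (j, false) ∨ x = Sum.inr (j, true) := by
  rcases x with x | ⟨a, b⟩
  · simp [blk]
  · cases b <;> simp [blk]

theorem filt_U1 (j : Fin M) :
    (U1 n K M).filter (fun i => blk n K M i = some j) =
      {Sum.inr (j, false), Sum.inr (j, true)} := by
  ext x
  rw [Finset.mem_filter, blk_some, mem_U1]
  simp only [Finset.mem_insert, Finset.mem_singleton]
  constructor
  · exact fun h => h.2
  · intro h
    refine ⟨?_, h⟩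
    rcases h with h | h
    · exact Or.inr ⟨_, h⟩
    · exact Or.inr ⟨_, h⟩

theorem filt_U1_card (j : Fin M) :
    ((U1 n K M).filter (fun i => blk n K M i = some j)).card = 2 := by
  rw [filt_U1, Finset.card_pair]
  simp

/-- a hitting set with `n + M` elements has a block with exactly one element -/
theorem exists_one (hM : n ≤ M) {F : Finset (Gr n K M)} (hF : Hits (blk n K M) F)
    (hc : F.card = n + M) :
    ∃ j : Fin M, (F.filter (fun i => blk n K M i = some j)).card = 1 := by
  by_contra hcon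
  push Not at hcon
  have h2 : ∀ j : Fin M, 2 ≤ (F.filter (fun i => blk n K M i = some j)).card := by
    intro j
    have h1 : 1 ≤ (F.filter (fun i => blk n K M i = some j)).card := by
      obtain ⟨i, hi, hb⟩ := hF (some j)
      exact Finset.card_pos.mpr ⟨i, Finset.mem_filter.mpr ⟨hi, hb⟩⟩
    have := hcon j
    omega
  have h0 : 1 ≤ (F.filter (fun i => blk n K M i = none)).card := by
    obtain ⟨i, hi, hb⟩ := hF none
    exact Finset.card_pos.mpr ⟨i, Finset.mem_filter.mpr ⟨hi, hb⟩⟩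
  have hsum : F.card = ∑ b : Option (Fin M), (F.filter (fun i => blk n K M i = b)).card :=
    Finset.card_eq_sum_card_fiberwise (fun x _ => Finset.mem_coe.mpr (Finset.mem_univ _))
  rw [Fintype.sum_option] at hsum
  have h3 : ∑ j : Fin M, 2 ≤ ∑ j : Fin M, (F.filter (fun i => blk n K M i = some j)).card :=
    Finset.sum_le_sum (fun j _ => h2 j)
  simp only [Finset.sum_const, Finset.card_univ, Fintype.card_fin, smul_eq_mul] at h3
  omega

theorem fam1_eq :
    fam1 n K M = {y : Finset (Gr n K M) | Hits (blk n K M) y ∧ y ⊆ U1 n K M ∧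
      y.card < n + Fintype.card (Option (Fin M))} := by
  ext y
  simp only [fam1, Set.mem_ofPred_eq, Fintype.card_option, Fintype.card_fin]
  constructor
  · rintro ⟨a, b, c⟩
    exact ⟨a, b, by omega⟩
  · rintro ⟨a, b, c⟩
    exact ⟨a, b, by omega⟩

theorem h2_U1 : ∀ b : Option (Fin M), b ≠ none →
    ((U1 n K M).filter (fun i => blk n K M i = b)).card ≤ 2 := by
  intro b hb
  cases b with
  | none => exact absurd rfl hb
  | some j => exact (filt_U1_card j).le

/-- step (i) -/
theorem G_fam1 (hn : 2 ≤ n) (hM : n ≤ M) (hK : 1 ≤ K)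
    (E : Set (Finset (Gr n K M))) (hE : Adm n K M E) : G n (fam1 n K M \ E) := by
  have key : G n (fam1 n K M) := by
    rw [fam1_eq]
    exact G_hit (blk n K M) none (U1 n K M) (hits_U1 hn) h2_U1 n
  rcases hE with rfl | ⟨F, hF, hmax, rfl⟩
  · rwa [Set.sdiff_empty]
  · have hc := (fam_basic hn hM hK).2.2.1 F hF hmax
    by_cases h1 : F ∈ fam1 n K M
    · obtain ⟨hH, hU, -⟩ := h1
      obtain ⟨j, hj⟩ := exists_one hM hH hc
      rw [fam1_eq]
      refine G_hit_del (blk n K M) none (U1 n K M) (hits_U1 hn) h2_U1 n F hH hU ?_ (some j)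
        (by simp) (filt_U1_card j) hj
      rw [hc, Fintype.card_option, Fintype.card_fin]
      omega
    · rwa [Set.sdiff_singleton_eq_self h1]

/-- cells of the cones over nonempty proper faces -/
def N1 (n K M : ℕ) : Set (Finset (Gr n K M)) :=
  {y | ∃ (i : Fin K) (t : Finset (Gr n K M)), t.Nonempty ∧ t ⊂ sS n K M ∧
    y = insert (ap i) (t ∪ zz n K M)}

/-- cells of the cones over the empty face -/
def N2 (n K M : ℕ) : Set (Finset (Gr n K M)) :=
  {y | ∃ i : Fin K, y = insert (ap i) (zz n K M)}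

theorem fam_eq (hn : 2 ≤ n) : fam n K M = fam1 n K M ∪ N1 n K M ∪ N2 n K M := by
  rw [fam, Set.union_assoc]
  congr 1
  ext y
  constructor
  · rintro ⟨i, t, ht, rfl⟩
    rcases t.eq_empty_or_nonempty with h | h
    · right
      exact ⟨i, by rw [h, Finset.empty_union]⟩
    · left
      exact ⟨i, t, h, ht, rfl⟩
  · rintro (⟨i, t, -, ht, rfl⟩ | ⟨i, rfl⟩)
    · exact ⟨i, t, ht, rfl⟩
    · refine ⟨i, ∅, ?_, by rw [Finset.empty_union]⟩
      rw [Finset.empty_ssubset, ← Finset.card_pos, card_sS]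
      omega

theorem tz_mem_fam1 {t : Finset (Gr n K M)} (ht0 : t.Nonempty) (ht : t ⊂ sS n K M) :
    t ∪ zz n K M ∈ fam1 n K M := by
  refine ⟨?_, Finset.union_subset (ht.1.trans sS_sub_U1) zz_sub_U1, ?_⟩
  · intro b
    cases b with
    | none =>
      obtain ⟨x, hx⟩ := ht0
      refine ⟨x, Finset.mem_union_left _ hx, ?_⟩
      obtain ⟨i, rfl⟩ := mem_sS.mp (ht.1 hx)
      rfl
    | some j => exact ⟨Sum.inr (j, false), Finset.mem_union_right _ (mem_zz.mpr ⟨j, rfl⟩), rfl⟩
  · rw [card_tz ht.1]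
    have := Finset.card_lt_card ht
    rw [card_sS] at this
    omega

theorem E_card (hn : 2 ≤ n) (hM : n ≤ M) (hK : 1 ≤ K)
    {E : Set (Finset (Gr n K M))} (hE : Adm n K M E) {y : Finset (Gr n K M)} (hy : y ∈ E) :
    y.card = n + M := by
  rcases hE with rfl | ⟨F, hF, hmax, rfl⟩
  · exact absurd hy (Set.notMem_empty _)
  · rw [Set.mem_singleton_iff] at hy
    subst hy
    exact (fam_basic hn hM hK).2.2.1 y hF hmax

/-- step (ii) -/
theorem G_step2 (hn : 2 ≤ n) (hM : n ≤ M) (hK : 1 ≤ K)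
    (E : Set (Finset (Gr n K M))) (hE : Adm n K M E) :
    G n ((fam1 n K M \ E) ∪ (N1 n K M \ E)) := by
  obtain ⟨m, rfl⟩ : ∃ m, n = m + 1 := ⟨n - 1, by omega⟩
  have hcard : ∀ y ∈ N1 (m + 1) K M, y.card ≤ m + 1 + M := by
    rintro y ⟨i, t, -, ht, rfl⟩
    rw [card_cone ht.1]
    have := Finset.card_lt_card ht
    rw [card_sS] at this
    omega
  refine G.batch (Set.toFinite _) (G_fam1 hn hM hK E hE) ?_ (fun y => m + 1 + M - y.card) ?_ ?_
  · rw [Set.disjoint_left]
    rintro y ⟨⟨-, hyU, -⟩, -⟩ ⟨⟨i, t, -, ht, rfl⟩, -⟩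
    exact ap_U1 i (hyU (Finset.mem_insert_self _ _))
  · intro x hx y hy hω hxy
    have h1 := hcard x hx.1
    have h2 := hcard y hy.1
    have h3 := Finset.card_lt_card hxy
    omega
  · intro x hx
    obtain ⟨⟨i, t, ht0, ht, rfl⟩, hxE⟩ := hx
    refine G.cone (Set.toFinite _) (t ∪ zz (m + 1) K M) ?_ ?_ m
    · refine ⟨Or.inl ⟨tz_mem_fam1 ht0 ht, ?_⟩, Or.inl ?_⟩
      · intro hE'
        have h1 := E_card hn hM hK hE hE'
        rw [card_tz ht.1] at h1
        have := Finset.card_lt_card ht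
        rw [card_sS] at this
        omega
      · exact Finset.ssubset_insert (ap_tz ht.1 i)
    · rintro y ⟨hy, hyx⟩ hya
      rcases hy with ⟨⟨-, hyU, -⟩, -⟩ | ⟨hyN, hyω⟩
      · rcases hyx with hyx | hyx
        · left
          refine lt_of_le_of_ne ?_ hya
          have h1 : y ⊆ insert (ap i) (t ∪ zz (m + 1) K M) := hyx.le
          intro z hz
          rcases Finset.mem_insert.mp (h1 hz) with h | h
          · exact absurd (hyU hz) (h ▸ ap_U1 i)
          · exact h
        · have h1 : insert (ap i) (t ∪ zz (m + 1) K M) ⊆ y := hyx.le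
          exact absurd (hyU (h1 (Finset.mem_insert_self _ _))) (ap_U1 i)
      · rcases hyx with hyx | hyx
        · exfalso
          have h3 := Finset.card_lt_card hyx
          have h1 := hcard y hyN.1
          have h2 := hcard _ (⟨i, t, ht0, ht, rfl⟩ :
            insert (ap i) (t ∪ zz (m + 1) K M) ∈ N1 (m + 1) K M)
          omega
        · right
          exact lt_trans (Finset.ssubset_insert (ap_tz ht.1 i)) hyx

theorem zx_card (i : Fin K) : (insert (ap i) (zz n K M)).card = M + 1 := by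
  rw [Finset.card_insert_of_notMem (ap_zz i), card_zz]

theorem zx_sS_card (i : Fin K) :
    (insert (ap i) (zz n K M) ∪ sS n K M).card = M + 1 + n := by
  rw [Finset.card_union_of_disjoint, zx_card, card_sS]
  rw [Finset.disjoint_left]
  intro x hx hx'
  rcases Finset.mem_insert.mp hx with h | h
  · exact ap_sS i (h ▸ hx')
  · exact Finset.disjoint_left.mp disj_sS_zz hx' h

/-- the link of `insert (ap i) zz` -/
theorem link_eq (hn : 2 ≤ n) (E : Set (Finset (Gr n K M))) (i : Fin K) :
    {y | (y ∈ (fam1 n K M \ E) ∪ (N1 n K M \ E) ∨ (y ∈ N2 n K M \ E ∧ (0 : ℕ) < 0)) ∧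
      (y < insert (ap i) (zz n K M) ∨ insert (ap i) (zz n K M) < y)} =
    {y : Finset (Gr n K M) | insert (ap i) (zz n K M) ⊂ y ∧
      y ⊆ insert (ap i) (zz n K M) ∪ sS n K M ∧
      y.card ≤ (insert (ap i) (zz n K M)).card + (n - 1)} \ E := by
  ext y
  constructor
  · rintro ⟨hy | hy, hyx⟩
    · rcases hy with ⟨⟨hH, hyU, -⟩, -⟩ | ⟨⟨i', t, ht0, ht, rfl⟩, hyE⟩
      · exfalso
        rcases hyx with hyx | hyx
        · obtain ⟨x, hx, hb⟩ := hH none
          have h1 : y ⊆ insert (ap i) (zz n K M) := hyx.le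
          rcases Finset.mem_insert.mp (h1 hx) with h | h
          · exact absurd (hyU hx) (h ▸ ap_U1 i)
          · obtain ⟨j, rfl⟩ := mem_zz.mp h
            simp [blk] at hb
        · have h1 : insert (ap i) (zz n K M) ⊆ y := hyx.le
          exact absurd (hyU (h1 (Finset.mem_insert_self _ _))) (ap_U1 i)
      · rcases hyx with hyx | hyx
        · exfalso
          obtain ⟨x, hx⟩ := ht0
          have h1 : insert (ap i') (t ∪ zz n K M) ⊆ insert (ap i) (zz n K M) := hyx.le
          rcases Finset.mem_insert.mp (h1 (Finset.mem_insert_of_mem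
            (Finset.mem_union_left _ hx))) with h | h
          · exact ap_sS i (h ▸ ht.1 hx)
          · exact Finset.disjoint_left.mp disj_sS_zz (ht.1 hx) h
        · refine ⟨⟨hyx, ?_, ?_⟩, hyE⟩
          · have h1 : insert (ap i) (zz n K M) ⊆ insert (ap i') (t ∪ zz n K M) := hyx.le
            have h2 : i = i' := ap_mem ht.1 (h1 (Finset.mem_insert_self _ _))
            subst h2
            intro z hz
            rcases Finset.mem_insert.mp hz with h | h
            · exact Finset.mem_union_left _ (h ▸ Finset.mem_insert_self _ _)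
            · rcases Finset.mem_union.mp h with h | h
              · exact Finset.mem_union_right _ (ht.1 h)
              · exact Finset.mem_union_left _ (Finset.mem_insert_of_mem h)
          · rw [card_cone ht.1, zx_card]
            have := Finset.card_lt_card ht
            rw [card_sS] at this
            omega
    · exact absurd hy.2 (lt_irrefl _)
  · rintro ⟨⟨h1, h2, h3⟩, hyE⟩
    refine ⟨Or.inl (Or.inr ⟨?_, hyE⟩), Or.inr h1⟩
    refine ⟨i, y ∩ sS n K M, ?_, ?_, ?_⟩
    · obtain ⟨x, hx, hx'⟩ := Finset.exists_of_ssubset h1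
      rcases Finset.mem_union.mp (h2 hx) with h | h
      · exact absurd h hx'
      · exact ⟨x, Finset.mem_inter.mpr ⟨hx, h⟩⟩
    · refine lt_of_le_of_ne Finset.inter_subset_right ?_
      intro heq
      have h4 : insert (ap i) (zz n K M) ∪ sS n K M ⊆ y :=
        Finset.union_subset h1.1 (by rw [← heq]; exact Finset.inter_subset_left)
      have h5 := Finset.card_le_card h4
      rw [zx_sS_card] at h5
      rw [zx_card] at h3
      omega
    · apply Finset.Subset.antisymm
      · intro z hz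
        rcases Finset.mem_union.mp (h2 hz) with h | h
        · rcases Finset.mem_insert.mp h with h | h
          · exact h ▸ Finset.mem_insert_self _ _
          · exact Finset.mem_insert_of_mem (Finset.mem_union_right _ h)
        · exact Finset.mem_insert_of_mem (Finset.mem_union_left _
            (Finset.mem_inter.mpr ⟨hz, h⟩))
      · intro z hz
        rcases Finset.mem_insert.mp hz with h | h
        · exact h1.1 (h ▸ Finset.mem_insert_self _ _)
        · rcases Finset.mem_union.mp h with h | h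
          · exact (Finset.mem_inter.mp h).1
          · exact h1.1 (Finset.mem_insert_of_mem h)

/-- step (iii) -/
theorem G_step3 (hn : 2 ≤ n) (hM : n ≤ M) (hK : 1 ≤ K)
    (E : Set (Finset (Gr n K M))) (hE : Adm n K M E) :
    G n (((fam1 n K M \ E) ∪ (N1 n K M \ E)) ∪ (N2 n K M \ E)) := by
  obtain ⟨m, rfl⟩ : ∃ m, n = m + 1 := ⟨n - 1, by omega⟩
  refine G.batch (Set.toFinite _) (G_step2 hn hM hK E hE) ?_ (fun _ => 0) ?_ ?_
  · rw [Set.disjoint_left]
    rintro y (⟨⟨-, hyU, -⟩, -⟩ | ⟨⟨i', t, ht0, ht, rfl⟩, -⟩) ⟨⟨i, hyi⟩, -⟩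
    · exact ap_U1 i (hyU (hyi ▸ Finset.mem_insert_self _ _))
    · have h1 := congrArg Finset.card hyi
      rw [card_cone ht.1, zx_card] at h1
      have := ht0.card_pos
      omega
  · rintro x ⟨⟨i, rfl⟩, -⟩ y ⟨⟨i', rfl⟩, -⟩ - hxy
    have h3 := Finset.card_lt_card hxy
    rw [zx_card, zx_card] at h3
    exact lt_irrefl _ h3
  · rintro x ⟨⟨i, rfl⟩, hxE⟩
    have hl := link_eq hn E i
    have hm : m + 1 - 1 = m := rfl
    rw [hm] at hl
    rw [hl]
    have hb : G m {y : Finset (Gr (m + 1) K M) | insert (ap i) (zz (m + 1) K M) ⊂ y ∧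
        y ⊆ insert (ap i) (zz (m + 1) K M) ∪ sS (m + 1) K M ∧
        y.card ≤ (insert (ap i) (zz (m + 1) K M)).card + m} := by
      refine G_bool _ _ m Finset.subset_union_left ?_
      rw [zx_card, zx_sS_card]
      omega
    rcases hE with rfl | ⟨F, hF, hmax, rfl⟩
    · rwa [Set.sdiff_empty]
    · have hc := (fam_basic hn hM hK).2.2.1 F hF hmax
      by_cases h1 : F ∈ {y : Finset (Gr (m + 1) K M) | insert (ap i) (zz (m + 1) K M) ⊂ y ∧
        y ⊆ insert (ap i) (zz (m + 1) K M) ∪ sS (m + 1) K M ∧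
        y.card ≤ (insert (ap i) (zz (m + 1) K M)).card + m}
      · obtain ⟨ha, hbb, -⟩ := h1
        refine G_bool_del _ _ F m Finset.subset_union_left ?_ ha hbb ?_
        · rw [zx_card, zx_sS_card]
          omega
        · rw [zx_card, hc]
          omega
      · rwa [Set.sdiff_singleton_eq_self h1]

end M6b

/-- M6b -/
theorem fam_G {n K M : ℕ} (hn : 2 ≤ n) (hM : n ≤ M) (hK : 1 ≤ K)
    (E : Set (Finset (Gr n K M))) (hE : Adm n K M E) : G n (fam n K M \ E) := by
  have h := M6b.G_step3 hn hM hK E hE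
  rwa [← Set.union_sdiff_distrib, ← Set.union_sdiff_distrib, ← M6b.fam_eq hn] at h

end Pool.Agent.SR
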