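import Pool.Agent.SR.Defs
import Pool.Agent.SR.M1
import Pool.Agent.SR.M4
import Pool.Agent.SR.M6a

namespace Pool.Agent.SR

open Pool.Agent.helper45.OC

namespace M6cAux

variable {n K M : ℕ}

theorem mem_sS {v : Gr n K M} : v ∈ sS n K M ↔ ∃ i : Fin n, Sum.inl (Sum.inl i) = v := by
  simp [sS]

theorem mem_zz {v : Gr n K M} : v ∈ zz n K M ↔ ∃ j : Fin M, Sum.inr (j, false) = v := by
  simp [zz]

theorem mem_U1 {v : Gr n K M} : v ∈ U1 n K M ↔ ∀ i : Fin K, v ≠ ap i := by
  rcases v with (v | v) | v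
  · simp [U1, sS, ap]
  · simp [U1, sS, ap]
  · simp [U1, sS, ap]

theorem ap_notMem_U1 (i : Fin K) : (ap i : Gr n K M) ∉ U1 n K M := by
  rw [mem_U1]; intro h; exact h i rfl

theorem sS_sub : sS n K M ⊆ U1 n K M := Finset.subset_union_left

theorem zz_sub : zz n K M ⊆ U1 n K M := by
  intro v hv
  rw [mem_zz] at hv
  obtain ⟨j, rfl⟩ := hv
  rw [mem_U1]
  intro i
  simp [ap]

theorem card_sS : (sS n K M).card = n := by
  rw [sS, Finset.card_image_of_injective]
  · simp
  · intro a b h
    simpa using h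

theorem card_zz : (zz n K M).card = M := by
  rw [zz, Finset.card_image_of_injective]
  · simp
  · intro a b h
    simpa using h

theorem card_U1 : (U1 n K M).card = n + 2 * M := by
  rw [U1, Finset.card_union_of_disjoint, card_sS, Finset.card_image_of_injective]
  · simp [mul_comm]
  · intro a b h
    simpa using h
  · rw [Finset.disjoint_left]
    intro v hv h2
    rw [mem_sS] at hv
    obtain ⟨i, rfl⟩ := hv
    simp at h2

theorem disj_sz : Disjoint (sS n K M) (zz n K M) := by
  rw [Finset.disjoint_left]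
  intro v hv h2
  rw [mem_sS] at hv
  obtain ⟨i, rfl⟩ := hv
  rw [mem_zz] at h2
  simp at h2

theorem disj_tz {t : Finset (Gr n K M)} (ht : t ⊆ sS n K M) : Disjoint t (zz n K M) :=
  Finset.disjoint_of_subset_left ht disj_sz

theorem tz_sub {t : Finset (Gr n K M)} (ht : t ⊆ sS n K M) : t ∪ zz n K M ⊆ U1 n K M :=
  Finset.union_subset (ht.trans sS_sub) zz_sub

theorem ap_notMem_tz {t : Finset (Gr n K M)} (ht : t ⊆ sS n K M) (i : Fin K) :
    (ap i : Gr n K M) ∉ t ∪ zz n K M := fun h => ap_notMem_U1 i (tz_sub ht h)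

theorem card_tz {t : Finset (Gr n K M)} (ht : t ⊆ sS n K M) :
    (t ∪ zz n K M).card = t.card + M := by
  rw [Finset.card_union_of_disjoint (disj_tz ht), card_zz]

theorem card_cone {t : Finset (Gr n K M)} (ht : t ⊆ sS n K M) (i : Fin K) :
    (insert (ap i) (t ∪ zz n K M)).card = t.card + M + 1 := by
  rw [Finset.card_insert_of_notMem (ap_notMem_tz ht i), card_tz ht]

theorem ap_inj {i j : Fin K} (h : (ap i : Gr n K M) = ap j) : i = j := by
  simpa [ap] using h

/-- a set not containing apices, contained in a cone -/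
theorem sub_of_sub_cone {y t : Finset (Gr n K M)} {i : Fin K} (hy : y ⊆ U1 n K M)
    (h : y ⊆ insert (ap i) (t ∪ zz n K M)) : y ⊆ t ∪ zz n K M := by
  intro v hv
  rcases Finset.mem_insert.1 (h hv) with h1 | h1
  · exact absurd (h1 ▸ hy hv) (ap_notMem_U1 i)
  · exact h1

theorem t_sub_of {t t' : Finset (Gr n K M)} (ht : t ⊆ sS n K M) {i j : Fin K}
    (h : insert (ap i) (t ∪ zz n K M) ⊆ insert (ap j) (t' ∪ zz n K M)) : t ⊆ t' := by
  intro v hv
  have h1 := h (Finset.mem_insert_of_mem (Finset.mem_union_left _ hv))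
  rcases Finset.mem_insert.1 h1 with h2 | h2
  · exact absurd (h2 ▸ sS_sub (ht hv)) (ap_notMem_U1 j)
  · rcases Finset.mem_union.1 h2 with h3 | h3
    · exact h3
    · exact absurd h3 (Finset.disjoint_left.1 disj_sz (ht hv))

theorem i_eq_of {t t' : Finset (Gr n K M)} (ht' : t' ⊆ sS n K M) {i j : Fin K}
    (h : insert (ap i) (t ∪ zz n K M) ⊆ insert (ap j) (t' ∪ zz n K M)) : i = j := by
  have h1 := h (Finset.mem_insert_self _ _)
  rcases Finset.mem_insert.1 h1 with h2 | h2
  · exact ap_inj h2
  · exact absurd h2 (ap_notMem_tz ht' i)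

/-- truncated Boolean intervals with possibly one maximal element removed -/
theorem bool_gen (x U : Finset (Gr n K M)) (r : ℕ) (hx : x ⊆ U) (hr : x.card + r < U.card)
    (E : Set (Finset (Gr n K M))) (hE : E = ∅ ∨ ∃ F, F.card = x.card + r ∧ E = {F}) :
    G r ({y : Finset (Gr n K M) | x ⊂ y ∧ y ⊆ U ∧ y.card ≤ x.card + r} \ E) := by
  rcases hE with rfl | ⟨F, hF, rfl⟩
  · rw [Set.sdiff_empty]
    exact G_bool x U r hx hr.le
  · by_cases h : x ⊂ F ∧ F ⊆ U
    · exact G_bool_del x U F r hx hr h.1 h.2 hF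
    · rw [Set.sdiff_singleton_eq_self]
      · exact G_bool x U r hx hr.le
      · intro hF'
        exact h ⟨hF'.1, hF'.2.1⟩

/-- the cells above a cone cell -/
theorem above_cone (t : Finset (Gr n K M)) (ht : t ⊂ sS n K M) (i : Fin K)
    (y : Finset (Gr n K M)) :
    (y ∈ fam n K M ∧ insert (ap i) (t ∪ zz n K M) < y) ↔
      (insert (ap i) (t ∪ zz n K M) ⊂ y ∧ y ⊆ insert (ap i) (t ∪ zz n K M) ∪ sS n K M ∧
        y.card ≤ n + M) := by
  constructor
  · rintro ⟨hy, hlt⟩
    have hss : insert (ap i) (t ∪ zz n K M) ⊆ y := hlt.le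
    rcases hy with hy | ⟨j, t', ht', rfl⟩
    · exact absurd (hy.2.1 (hss (Finset.mem_insert_self _ _))) (ap_notMem_U1 i)
    · have hij := i_eq_of ht'.1 hss
      subst hij
      refine ⟨hlt, ?_, ?_⟩
      · intro v hv
        rcases Finset.mem_insert.1 hv with h1 | h1
        · exact Finset.mem_union_left _ (h1 ▸ Finset.mem_insert_self _ _)
        · rcases Finset.mem_union.1 h1 with h2 | h2
          · exact Finset.mem_union_right _ (ht'.1 h2)
          · exact Finset.mem_union_left _ (Finset.mem_insert_of_mem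
              (Finset.mem_union_right _ h2))
      · rw [card_cone ht'.1]
        have := Finset.card_lt_card ht'
        rw [card_sS] at this
        omega
  · rintro ⟨hlt, hsub, hc⟩
    have hss : insert (ap i) (t ∪ zz n K M) ⊆ y := hlt.1
    refine ⟨Or.inr ⟨i, y ∩ sS n K M, ?_, ?_⟩, hlt⟩
    · refine ⟨Finset.inter_subset_right, fun h => ?_⟩
      have hz : insert (ap i) (sS n K M ∪ zz n K M) ⊆ y := by
        intro v hv
        rcases Finset.mem_insert.1 hv with h1 | h1
        · exact hss (h1 ▸ Finset.mem_insert_self _ _)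
        · rcases Finset.mem_union.1 h1 with h2 | h2
          · exact (Finset.mem_inter.1 (h h2)).1
          · exact hss (Finset.mem_insert_of_mem (Finset.mem_union_right _ h2))
      have := Finset.card_le_card hz
      rw [card_cone (le_refl _), card_sS] at this
      omega
    · ext v
      constructor
      · intro hv
        rcases Finset.mem_union.1 (hsub hv) with h1 | h1
        · rcases Finset.mem_insert.1 h1 with h2 | h2
          · exact Finset.mem_insert.2 (Or.inl h2)
          · rcases Finset.mem_union.1 h2 with h3 | h3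
            · exact Finset.mem_insert_of_mem (Finset.mem_union_left _
                (Finset.mem_inter.2 ⟨hv, ht.1 h3⟩))
            · exact Finset.mem_insert_of_mem (Finset.mem_union_right _ h3)
        · exact Finset.mem_insert_of_mem (Finset.mem_union_left _
            (Finset.mem_inter.2 ⟨hv, h1⟩))
      · intro hv
        rcases Finset.mem_insert.1 hv with h1 | h1
        · exact hss (h1 ▸ Finset.mem_insert_self _ _)
        · rcases Finset.mem_union.1 h1 with h2 | h2
          · exact (Finset.mem_inter.1 h2).1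
          · exact hss (Finset.mem_insert_of_mem (Finset.mem_union_right _ h2))

theorem card_cone_union (t : Finset (Gr n K M)) (ht : t ⊂ sS n K M) (i : Fin K) :
    (insert (ap i) (t ∪ zz n K M) ∪ sS n K M).card = n + M + 1 := by
  have : insert (ap i) (t ∪ zz n K M) ∪ sS n K M = insert (ap i) (sS n K M ∪ zz n K M) := by
    ext v
    simp only [Finset.mem_union, Finset.mem_insert]
    constructor
    · rintro ((h | h | h) | h)
      · exact Or.inl h
      · exact Or.inr (Or.inl (ht.1 h))
      · exact Or.inr (Or.inr h)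
      · exact Or.inr (Or.inl h)
    · rintro (h | h | h)
      · exact Or.inl (Or.inl h)
      · exact Or.inr h
      · exact Or.inl (Or.inr (Or.inr h))
  rw [this, card_cone (le_refl _), card_sS]

/-- `G` for the cells above a cone cell -/
theorem G_above_cone (t : Finset (Gr n K M)) (ht : t ⊂ sS n K M) (i : Fin K)
    (E : Set (Finset (Gr n K M))) (hE : E = ∅ ∨ ∃ F, F.card = n + M ∧ E = {F}) (s : ℕ)
    (hs : (insert (ap i) (t ∪ zz n K M)).card + s = n + M) :
    G s {y | y ∈ fam n K M \ E ∧ insert (ap i) (t ∪ zz n K M) < y} := by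
  have key := bool_gen (insert (ap i) (t ∪ zz n K M))
    (insert (ap i) (t ∪ zz n K M) ∪ sS n K M) s Finset.subset_union_left
    (by rw [card_cone_union t ht i]; omega) E (by rw [hs]; exact hE)
  rw [hs] at key
  convert key using 1
  ext y
  have := above_cone t ht i y
  simp only [Set.mem_ofPred_eq, Set.mem_sdiff]
  constructor
  · rintro ⟨⟨h1, h2⟩, h3⟩
    exact ⟨this.1 ⟨h1, h3⟩, h2⟩
  · rintro ⟨h1, h2⟩
    have h4 := this.2 h1
    exact ⟨⟨h4.1, h2⟩, h4.2⟩

end M6cAux

open M6cAux

/-- M6c -/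
theorem fam_up {n K M : ℕ} (hn : 2 ≤ n) (hM : n ≤ M) (hK : 1 ≤ K)
    (E : Set (Finset (Gr n K M))) (hE : Adm n K M E) (x : Finset (Gr n K M))
    (hx : x ∈ fam n K M \ E) :
    G (n - 1 - rk n K M x) {y | y ∈ fam n K M \ E ∧ x < y} := by
  obtain ⟨hb1, hb2, hb3, hb4⟩ := fam_basic (n := n) (K := K) (M := M) hn hM hK
  obtain ⟨hxf, hxE⟩ := hx
  obtain ⟨hxH, hxc1, hxc2⟩ := hb1 x hxf
  have hE' : E = ∅ ∨ ∃ F, F.card = n + M ∧ E = {F} := by
    rcases hE with h | ⟨F, hF, hmax, h⟩
    · exact Or.inl h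
    · exact Or.inr ⟨F, hb3 F hF hmax, h⟩
  have hEc : ∀ y ∈ E, y.card = n + M := by
    rcases hE' with h | ⟨F, hF, h⟩
    · intro y hy; rw [h] at hy; exact absurd hy (Set.notMem_empty _)
    · intro y hy; rw [h] at hy; rw [Set.mem_singleton_iff.1 hy]; exact hF
  generalize hr : n - 1 - rk n K M x = r
  have hr' : x.card + r = n + M := by
    rw [rk] at hr
    omega
  rcases Nat.eq_zero_or_pos r with h0 | hpos
  · rw [h0]; exact G.zero _
  rcases hxf with hx1 | ⟨i, t, ht, rfl⟩
  swap
  · exact G_above_cone t ht i E hE' r hr'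
  -- x in the simplex times cube part
  have hU : x.card + r < (U1 n K M).card := by rw [card_U1]; omega
  have keyA : G r ({y : Finset (Gr n K M) | x ⊂ y ∧ y ⊆ U1 n K M ∧ y.card ≤ x.card + r} \ E) :=
    bool_gen x (U1 n K M) r hx1.2.1 hU E (by rw [hr']; exact hE')
  rw [hr'] at keyA
  -- membership in fam1 above x
  have hA : ∀ y : Finset (Gr n K M), (x ⊂ y ∧ y ⊆ U1 n K M ∧ y.card ≤ n + M) ↔
      (y ∈ fam1 n K M ∧ x < y) := by
    intro y
    constructor
    · rintro ⟨h1, h2, h3⟩
      refine ⟨⟨?_, h2, h3⟩, h1⟩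
      intro b
      obtain ⟨v, hv, hvb⟩ := hxH b
      exact ⟨v, h1.1 hv, hvb⟩
    · rintro ⟨h1, h2⟩
      exact ⟨h2, h1.2.1, h1.2.2⟩
  by_cases hxz : x ⊆ sS n K M ∪ zz n K M
  swap
  · convert keyA using 1
    ext y
    simp only [Set.mem_ofPred_eq, Set.mem_sdiff]
    constructor
    · rintro ⟨⟨h1, h2⟩, h3⟩
      refine ⟨?_, h2⟩
      rcases h1 with h1 | ⟨j, t', ht', rfl⟩
      · exact (hA y).2 ⟨h1, h3⟩
      · exfalso
        apply hxz
        have := sub_of_sub_cone hx1.2.1 h3.le
        exact this.trans (Finset.union_subset_union ht'.1 (Finset.Subset.refl _))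
    · rintro ⟨h1, h2⟩
      have h4 := (hA y).1 h1
      exact ⟨⟨Or.inl h4.1, h2⟩, h4.2⟩
  -- case C
  have hzx : zz n K M ⊆ x := by
    intro v hv
    rw [mem_zz] at hv
    obtain ⟨j, rfl⟩ := hv
    obtain ⟨w, hw, hwb⟩ := hxH (some j)
    have := hxz hw
    rcases Finset.mem_union.1 this with h1 | h1
    · rw [mem_sS] at h1
      obtain ⟨i, rfl⟩ := h1
      simp [blk] at hwb
    · rw [mem_zz] at h1
      obtain ⟨j', rfl⟩ := h1
      have : j' = j := by simpa [blk] using hwb
      rw [← this]; exact hw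
  obtain ⟨t, htdef⟩ : ∃ t, t = x ∩ sS n K M := ⟨_, rfl⟩
  have htS : t ⊆ sS n K M := by rw [htdef]; exact Finset.inter_subset_right
  have hxt : x = t ∪ zz n K M := by
    ext v
    constructor
    · intro hv
      rcases Finset.mem_union.1 (hxz hv) with h1 | h1
      · exact Finset.mem_union_left _ (by rw [htdef]; exact Finset.mem_inter.2 ⟨hv, h1⟩)
      · exact Finset.mem_union_right _ h1
    · intro hv
      rcases Finset.mem_union.1 hv with h1 | h1
      · rw [htdef] at h1; exact (Finset.mem_inter.1 h1).1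
      · exact hzx h1
  have hxcard : x.card = t.card + M := by rw [hxt, card_tz htS]
  have htlt : t ⊂ sS n K M := by
    refine Finset.ssubset_iff_subset_ne.2 ⟨htS, ?_⟩
    intro h
    have : t.card = n := by rw [h, card_sS]
    omega
  obtain ⟨s, rfl⟩ : ∃ s, r = s + 1 := ⟨r - 1, by omega⟩
  -- batch 1
  set A : Set (Finset (Gr n K M)) := {y | x ⊂ y ∧ y ⊆ U1 n K M ∧ y.card ≤ n + M} \ E with hAdef
  set N1 : Set (Finset (Gr n K M)) :=
    {y | ∃ (i : Fin K) (t' : Finset (Gr n K M)), t ⊂ t' ∧ t' ⊂ sS n K M ∧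
      y = insert (ap i) (t' ∪ zz n K M)} \ E with hN1def
  set N2 : Set (Finset (Gr n K M)) :=
    {y | ∃ (i : Fin K), y = insert (ap i) (t ∪ zz n K M)} \ E with hN2def
  have hd1 : Disjoint A N1 := by
    rw [Set.disjoint_left]
    rintro y hy ⟨⟨i, t', h1, h2, rfl⟩, -⟩
    exact ap_notMem_U1 i (hy.1.2.1 (Finset.mem_insert_self _ _))
  have hS1 : G (s + 1) (A ∪ N1) := by
    refine G.batch (Set.toFinite _) keyA hd1 (fun y => (n + M) - y.card) ?_ ?_
    · rintro y ⟨⟨i, t', h1, h2, rfl⟩, -⟩ z ⟨⟨i', t'', h1', h2', rfl⟩, -⟩ hω hlt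
      have c1 := card_cone (M := M) h2.1 i
      have c2 := card_cone (M := M) h2'.1 i'
      have c3 := Finset.card_lt_card hlt
      have c4 := Finset.card_lt_card h2
      have c5 := Finset.card_lt_card h2'
      rw [card_sS] at c4 c5
      have hω' : n + M - (insert (ap i) (t' ∪ zz n K M)).card =
          n + M - (insert (ap i') (t'' ∪ zz n K M)).card := hω
      omega
    · rintro x' ⟨⟨i, t', h1, h2, rfl⟩, hx'E⟩
      have hcard' : (t' ∪ zz n K M).card < n + M := by
        have c4 := Finset.card_lt_card h2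
        rw [card_sS] at c4
        rw [card_tz h2.1]; omega
      refine G.cone (Set.toFinite _) (t' ∪ zz n K M) ?_ ?_ s
      · refine ⟨Or.inl ⟨⟨?_, tz_sub h2.1, hcard'.le⟩, fun h => ?_⟩, Or.inl ?_⟩
        · rw [hxt]
          refine Finset.ssubset_iff_subset_ne.2
            ⟨Finset.union_subset_union h1.1 (Finset.Subset.refl _), fun h => ?_⟩
          have := congrArg Finset.card h
          rw [card_tz htS, card_tz h2.1] at this
          have := Finset.card_lt_card h1
          omega
        · have := hEc _ h; omega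
        · exact Finset.ssubset_insert (ap_notMem_tz h2.1 i)
      · rintro y ⟨hy1, hy2⟩ hne
        rcases hy1 with hy1 | ⟨⟨⟨i', t'', h1', h2', rfl⟩, hyE⟩, hω⟩
        · rcases hy2 with hy2 | hy2
          · left
            have := sub_of_sub_cone hy1.1.2.1 hy2.le
            exact lt_of_le_of_ne this hne
          · exact absurd (hy1.1.2.1 (hy2.le (Finset.mem_insert_self _ _))) (ap_notMem_U1 i)
        · right
          have c1 := card_cone (M := M) h2.1 i
          have c2 := card_cone (M := M) h2'.1 i'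
          have c4 := Finset.card_lt_card h2
          have c5 := Finset.card_lt_card h2'
          rw [card_sS] at c4 c5
          have hω' : n + M - (insert (ap i') (t'' ∪ zz n K M)).card <
              n + M - (insert (ap i) (t' ∪ zz n K M)).card := hω
          rcases hy2 with hy2 | hy2
          · have c3 := Finset.card_lt_card hy2
            omega
          · exact lt_trans (Finset.ssubset_insert (ap_notMem_tz h2.1 i)) hy2
  -- batch 2
  have hd2 : Disjoint (A ∪ N1) N2 := by
    rw [Set.disjoint_left]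
    rintro y hy ⟨⟨i, rfl⟩, -⟩
    rcases hy with hy | ⟨⟨i', t', h1, h2, h3⟩, -⟩
    · exact ap_notMem_U1 i (hy.1.2.1 (Finset.mem_insert_self _ _))
    · have := t_sub_of h2.1 h3.ge
      exact h1.2 this
  have hS2 : G (s + 1) ((A ∪ N1) ∪ N2) := by
    refine G.batch (Set.toFinite _) hS1 hd2 (fun _ => 0) ?_ ?_
    · rintro y ⟨⟨i, rfl⟩, -⟩ z ⟨⟨i', rfl⟩, -⟩ - hlt
      have c1 := card_cone (M := M) htS i
      have c2 := card_cone (M := M) htS i'
      have c3 := Finset.card_lt_card hlt
      omega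
    · rintro x' ⟨⟨i, rfl⟩, hx'E⟩
      have key := G_above_cone t htlt i E hE' s (by rw [card_cone htS]; omega)
      convert key using 1
      ext y
      simp only [Set.mem_ofPred_eq, lt_self_iff_false, and_false, or_false]
      constructor
      · rintro ⟨hy1, hy2⟩
        rcases hy1 with hy1 | ⟨⟨i', t', h1, h2, rfl⟩, hyE⟩
        · rcases hy2 with hy2 | hy2
          · exfalso
            have := sub_of_sub_cone hy1.1.2.1 hy2.le
            rw [← hxt] at this
            exact hy1.1.1.2 this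
          · exact absurd (hy1.1.2.1 (hy2.le (Finset.mem_insert_self _ _))) (ap_notMem_U1 i)
        · refine ⟨⟨Or.inr ⟨i', t', h2, rfl⟩, hyE⟩, ?_⟩
          rcases hy2 with hy2 | hy2
          · exfalso
            have c1 := card_cone (M := M) h2.1 i'
            have c2 := card_cone (M := M) htS i
            have c3 := Finset.card_lt_card hy2
            have c4 := Finset.card_lt_card h1
            omega
          · exact hy2
      · rintro ⟨⟨hy1, hyE⟩, hy2⟩
        rcases hy1 with hy1 | ⟨i', t', h2, rfl⟩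
        · exact absurd (hy1.2.1 (hy2.le (Finset.mem_insert_self _ _))) (ap_notMem_U1 i)
        · refine ⟨Or.inr ⟨⟨i', t', ?_, h2, rfl⟩, hyE⟩, Or.inr hy2⟩
          have h3 := t_sub_of htS hy2.le
          refine Finset.ssubset_iff_subset_ne.2 ⟨h3, fun h => ?_⟩
          have c1 := card_cone (M := M) h2.1 i'
          have c2 := card_cone (M := M) htS i
          have c3 := Finset.card_lt_card hy2
          have c4 := congrArg Finset.card h
          omega
  convert hS2 using 1
  ext y
  constructor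
  · rintro ⟨⟨hy1, hyE⟩, hlt⟩
    rcases hy1 with hy1 | ⟨i', t', h2, rfl⟩
    · exact Or.inl (Or.inl ⟨(hA y).2 ⟨hy1, hlt⟩, hyE⟩)
    · have h3 := sub_of_sub_cone hx1.2.1 hlt.le
      have h4 : t ⊆ t' := by
        intro v hv
        have := h3 (hxt ▸ Finset.mem_union_left _ hv)
        rcases Finset.mem_union.1 this with h5 | h5
        · exact h5
        · exact absurd h5 (Finset.disjoint_left.1 disj_sz (htS hv))
      by_cases h5 : t = t'
      · subst h5
        exact Or.inr ⟨⟨i', rfl⟩, hyE⟩
      · exact Or.inl (Or.inr ⟨⟨i', t', Finset.ssubset_iff_subset_ne.2 ⟨h4, h5⟩, h2, rfl⟩, hyE⟩)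
  · rintro ((⟨h1, h2⟩ | ⟨⟨i', t', h1, h2, rfl⟩, hyE⟩) | ⟨⟨i', rfl⟩, hyE⟩)
    · have h4 := (hA y).1 h1
      exact ⟨⟨Or.inl h4.1, h2⟩, h4.2⟩
    · refine ⟨⟨Or.inr ⟨i', t', h2, rfl⟩, hyE⟩, ?_⟩
      refine Finset.ssubset_iff_subset_ne.2 ⟨?_, fun h => ?_⟩
      · rw [hxt]
        exact (Finset.union_subset_union h1.1 (Finset.Subset.refl _)).trans
          (Finset.subset_insert _ _)
      · apply ap_notMem_U1 i' (n := n) (M := M)
        exact hx1.2.1 (h ▸ Finset.mem_insert_self _ _)
    · refine ⟨⟨Or.inr ⟨i', t, htlt, rfl⟩, hyE⟩, ?_⟩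
      refine Finset.ssubset_iff_subset_ne.2 ⟨?_, fun h => ?_⟩
      · rw [hxt]
        exact Finset.subset_insert _ _
      · apply ap_notMem_U1 i' (n := n) (M := M)
        exact hx1.2.1 (h ▸ Finset.mem_insert_self _ _)

end Pool.Agent.SR
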