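import Mathlib
import Pool.Agent.SR.Defs
import Pool.Agent.SR.M4
import Pool.Agent.SR.M5
import Pool.Agent.SR.M6a

/-! Lower intervals and open intervals of the family `fam`. -/

namespace Pool.Agent.SR

open Pool.Agent.helper45.OC

/-- a subset of a member of `fam \ E` is not in `E` -/
lemma not_mem_E {n K M : ℕ} {E : Set (Finset (Gr n K M))} (hE : Adm n K M E)
    {x y : Finset (Gr n K M)} (hy : y ∈ fam n K M \ E) (hxy : x ⊆ y) : x ∉ E := by
  rcases hE with rfl | ⟨F, -, hF, rfl⟩
  · exact Set.notMem_empty x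
  · intro hx
    rw [Set.mem_singleton_iff] at hx
    subst hx
    apply hy.2
    rw [Set.mem_singleton_iff]
    exact hF y hy.1 hxy

/-- a pair block has at most two elements -/
lemma card_block_le {n K M : ℕ} (y : Finset (Gr n K M)) (b : Option (Fin M)) (hb : b ≠ none) :
    (y.filter (fun i => blk n K M i = b)).card ≤ 2 := by
  classical
  obtain ⟨j, rfl⟩ := Option.ne_none_iff_exists'.1 hb
  have hsub : y.filter (fun i => blk n K M i = some j) ⊆
      ({Sum.inr (j, false), Sum.inr (j, true)} : Finset (Gr n K M)) := by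
    intro i hi
    rw [Finset.mem_filter] at hi
    rcases i with i | ⟨j', c⟩
    · exact absurd hi.2 (by simp [blk])
    · have h : j' = j := by
        have := hi.2
        simpa [blk] using this
      subst h
      cases c <;> simp
  exact (Finset.card_le_card hsub).trans Finset.card_le_two

/-- M6d -/
theorem fam_low {n K M : ℕ} (hn : 2 ≤ n) (hM : n ≤ M) (hK : 1 ≤ K)
    (E : Set (Finset (Gr n K M))) (hE : Adm n K M E) (y : Finset (Gr n K M))
    (hy : y ∈ fam n K M \ E) :
    G (rk n K M y) {x | x ∈ fam n K M \ E ∧ x < y} := by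
  obtain ⟨h1, h2, -, -⟩ := fam_basic (n := n) (K := K) (M := M) hn hM hK
  obtain ⟨hyH, hyc, -⟩ := h1 y hy.1
  have hset : {x | x ∈ fam n K M \ E ∧ x < y} =
      {x : Finset (Gr n K M) | Hits (blk n K M) x ∧ x ⊆ y ∧
        x.card < rk n K M y + Fintype.card (Option (Fin M))} := by
    ext x
    simp only [Set.mem_setOf_eq, Fintype.card_option, Fintype.card_fin, rk]
    constructor
    · rintro ⟨hx, hxy⟩
      rw [Finset.lt_iff_ssubset] at hxy
      have hc := Finset.card_lt_card hxy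
      exact ⟨(h1 x hx.1).1, hxy.1, by omega⟩
    · rintro ⟨hxH, hxy, hc⟩
      refine ⟨⟨h2 y hy.1 x hxH hxy, not_mem_E hE hy hxy⟩, ?_⟩
      rw [Finset.lt_iff_ssubset]
      refine Finset.ssubset_iff_subset_ne.2 ⟨hxy, ?_⟩
      rintro rfl
      omega
  rw [hset]
  exact G_hit (blk n K M) none y hyH (fun b hb => card_block_le y b hb) (rk n K M y)

/-- M6e -/
theorem fam_mid {n K M : ℕ} (hn : 2 ≤ n) (hM : n ≤ M) (hK : 1 ≤ K)
    (E : Set (Finset (Gr n K M))) (hE : Adm n K M E) (x y : Finset (Gr n K M))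
    (hx : x ∈ fam n K M \ E) (hy : y ∈ fam n K M \ E) (hxy : x < y) :
    G (rk n K M y - rk n K M x - 1) {z | z ∈ fam n K M \ E ∧ x < z ∧ z < y} := by
  obtain ⟨h1, h2, -, -⟩ := fam_basic (n := n) (K := K) (M := M) hn hM hK
  obtain ⟨-, hyc, -⟩ := h1 y hy.1
  obtain ⟨hxH, hxc, -⟩ := h1 x hx.1
  rw [Finset.lt_iff_ssubset] at hxy
  have hcxy := Finset.card_lt_card hxy
  have hset : {z | z ∈ fam n K M \ E ∧ x < z ∧ z < y} =
      {z : Finset (Gr n K M) | x ⊂ z ∧ z ⊆ y ∧
        z.card ≤ x.card + (rk n K M y - rk n K M x - 1)} := by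
    ext z
    simp only [Set.mem_setOf_eq, rk, Finset.lt_iff_ssubset]
    constructor
    · rintro ⟨-, hxz, hzy⟩
      have hc := Finset.card_lt_card hzy
      exact ⟨hxz, hzy.1, by omega⟩
    · rintro ⟨hxz, hzy, hc⟩
      have hzH : Hits (blk n K M) z := by
        intro b
        obtain ⟨i, hi, hb⟩ := hxH b
        exact ⟨i, hxz.1 hi, hb⟩
      refine ⟨⟨h2 y hy.1 z hzH hzy, not_mem_E hE hy hzy⟩, hxz, ?_⟩
      refine Finset.ssubset_iff_subset_ne.2 ⟨hzy, ?_⟩
      rintro rfl
      omega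
  rw [hset]
  refine G_bool x y _ hxy.1 ?_
  simp only [rk]
  omega

end Pool.Agent.SR
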