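import Pool.Agent.SR.Defs2

/-! M7b: exposed faces of cells. -/

namespace Pool.Agent.SR

open Polynomial Pool.Agent.helper45.OC

section
variable {ι κ : Type*} [Fintype ι] [DecidableEq ι] [Fintype κ] [DecidableEq κ] {N : ℕ}

private lemma total (e : ι ≃ Fin N) (p : ι → κ) (y : Finset ι) {z : Fin N → ℝ}
    (hz : z ∈ cell e p y) : ∑ i, z (e i) = Fintype.card κ := by
  rw [← Finset.sum_fiberwise Finset.univ p (fun i => z (e i))]
  rw [Finset.sum_congr rfl (fun b _ => hz.2.1 b)]
  simp

private lemma cell_mono (e : ι ≃ Fin N) (p : ι → κ) {x y : Finset ι} (hxy : x ⊆ y) :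
    cell e p x ⊆ cell e p y :=
  fun _ hz => ⟨hz.1, hz.2.1, fun i hi => hz.2.2 i (fun h => hi (hxy h))⟩

/-- M7b -/
theorem cell_exposed (e : ι ≃ Fin N) (p : ι → κ) (x y : Finset ι) (hxy : x ⊆ y) :
    IsExposed ℝ (cell e p y) (cell e p x) := by
  rintro ⟨z0, hz0⟩
  refine ⟨∑ i ∈ x, ContinuousLinearMap.proj (e i), ?_⟩
  have hl : ∀ z : Fin N → ℝ, (∑ i ∈ x, (ContinuousLinearMap.proj (e i) :
      StrongDual ℝ (Fin N → ℝ))) z = ∑ i ∈ x, z (e i) := by
    intro z
    simp
  have hsplit : ∀ z : Fin N → ℝ, ∑ i ∈ x, z (e i) + ∑ i ∈ xᶜ, z (e i) = ∑ i, z (e i) :=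
    fun z => Finset.sum_add_sum_compl x (fun i => z (e i))
  have hle : ∀ w ∈ cell e p y, ∑ i ∈ x, w (e i) ≤ Fintype.card κ := by
    intro w hw
    rw [← total e p y hw, ← hsplit w]
    have : 0 ≤ ∑ i ∈ xᶜ, w (e i) := Finset.sum_nonneg (fun i _ => hw.1 _)
    linarith
  have heq : ∀ z ∈ cell e p x, ∑ i ∈ x, z (e i) = Fintype.card κ := by
    intro z hz
    rw [← total e p x hz, ← hsplit z]
    have : ∑ i ∈ xᶜ, z (e i) = 0 :=
      Finset.sum_eq_zero (fun i hi => hz.2.2 i (Finset.mem_compl.1 hi))
    linarith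
  ext z
  constructor
  · intro hz
    refine ⟨cell_mono e p hxy hz, fun w hw => ?_⟩
    rw [hl, hl, heq z hz]
    exact hle w hw
  · rintro ⟨hz, hmax⟩
    have h1 := hmax z0 (cell_mono e p hxy hz0)
    rw [hl, hl, heq z0 hz0] at h1
    have h2 := total e p y hz
    have h3 := hsplit z
    have h4 : ∑ i ∈ xᶜ, z (e i) ≤ 0 := by linarith
    have h5 : ∀ i ∈ xᶜ, 0 ≤ z (e i) := fun i _ => hz.1 _
    have h6 : ∑ i ∈ xᶜ, z (e i) = 0 := le_antisymm h4 (Finset.sum_nonneg h5)
    have h7 := (Finset.sum_eq_zero_iff_of_nonneg h5).1 h6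
    exact ⟨hz.1, hz.2.1, fun i hi => h7 i (Finset.mem_compl.2 hi)⟩

/-- M7b -/
theorem exposed_cell (e : ι ≃ Fin N) (p : ι → κ) (y : Finset ι) (F : Set (Fin N → ℝ))
    (h : IsExposed ℝ (cell e p y) F) (hF : F.Nonempty) :
    ∃ x ⊆ y, Hits p x ∧ F = cell e p x := by
  obtain ⟨l, hl⟩ := h hF
  obtain ⟨zF, hzF⟩ := hF
  have hzy : zF ∈ cell e p y := by
    rw [hl] at hzF
    exact hzF.1
  set v : ι → ℝ := fun i => l (Pi.single (e i) 1) with hv
  -- `y` meets every block
  have hhit : ∀ b, ∃ i ∈ y, p i = b := by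
    intro b
    by_contra hcon
    push Not at hcon
    have h1 := hzy.2.1 b
    rw [Finset.sum_eq_zero] at h1
    · norm_num at h1
    · intro i hi
      exact hzy.2.2 i (fun hy => hcon i hy (Finset.mem_filter.1 hi).2)
  have hmaxb : ∀ b, ∃ i, (i ∈ y ∧ p i = b) ∧ ∀ j ∈ y, p j = b → v j ≤ v i := by
    intro b
    obtain ⟨i1, hi1, hi1b⟩ := hhit b
    obtain ⟨i, hi, hmax⟩ := Finset.exists_max_image (y.filter (fun i => p i = b)) v
      ⟨i1, Finset.mem_filter.2 ⟨hi1, hi1b⟩⟩
    exact ⟨i, ⟨(Finset.mem_filter.1 hi).1, (Finset.mem_filter.1 hi).2⟩,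
      fun j hj hjb => hmax j (Finset.mem_filter.2 ⟨hj, hjb⟩)⟩
  choose s hs hsmax using hmaxb
  have hlz : ∀ z : Fin N → ℝ, l z = ∑ i, z (e i) * v i := by
    intro z
    have hz : z = ∑ i, z (e i) • (Pi.single (e i) (1 : ℝ) : Fin N → ℝ) := by
      ext j
      obtain ⟨i0, rfl⟩ := e.surjective j
      rw [Finset.sum_apply, Finset.sum_eq_single i0]
      · simp
      · intro i _ hi
        have hne : e i0 ≠ e i := fun h => hi (e.injective h).symm
        simp [Pi.single_eq_of_ne hne]
      · intro h'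
        exact absurd (Finset.mem_univ _) h'
    conv_lhs => rw [hz]
    rw [map_sum]
    refine Finset.sum_congr rfl (fun i _ => ?_)
    rw [map_smul, smul_eq_mul]
  -- value in terms of the defects
  have hdef : ∀ z ∈ cell e p y, ∑ i, z (e i) * (v (s (p i)) - v i) =
      ∑ b, v (s b) - l z := by
    intro z hz
    rw [hlz z]
    have h1 : ∑ i, z (e i) * v (s (p i)) = ∑ b, v (s b) := by
      rw [← Finset.sum_fiberwise Finset.univ p (fun i => z (e i) * v (s (p i)))]
      refine Finset.sum_congr rfl (fun b _ => ?_)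
      rw [Finset.sum_congr rfl (fun i hi => by
        rw [(Finset.mem_filter.1 hi).2] : ∀ i ∈ Finset.univ.filter (fun i => p i = b),
          z (e i) * v (s (p i)) = z (e i) * v (s b))]
      rw [← Finset.sum_mul, hz.2.1 b, one_mul]
    rw [← h1, ← Finset.sum_sub_distrib]
    exact Finset.sum_congr rfl (fun i _ => by ring)
  have hnn : ∀ z ∈ cell e p y, ∀ i, 0 ≤ z (e i) * (v (s (p i)) - v i) := by
    intro z hz i
    by_cases hi : i ∈ y
    · exact mul_nonneg (hz.1 _) (sub_nonneg.2 (hsmax (p i) i hi rfl))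
    · rw [hz.2.2 i hi, zero_mul]
  refine ⟨y.filter (fun i => v i = v (s (p i))), Finset.filter_subset _ _, ?_, ?_⟩
  · intro b
    refine ⟨s b, Finset.mem_filter.2 ⟨(hs b).1, ?_⟩, (hs b).2⟩
    rw [(hs b).2]
  · -- a vertex of maximal value
    have hz1 : (∑ b, Pi.single (e (s b)) (1 : ℝ) : Fin N → ℝ) ∈
        cell e p (y.filter (fun i => v i = v (s (p i)))) := by
      have hval : ∀ j, (∑ b, Pi.single (e (s b)) (1 : ℝ) : Fin N → ℝ) (e j)
          = ∑ b, if s b = j then (1 : ℝ) else 0 := by
        intro j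
        rw [Finset.sum_apply]
        refine Finset.sum_congr rfl (fun b _ => ?_)
        by_cases h : s b = j
        · rw [if_pos h, h]
          simp
        · rw [if_neg h]
          have hne : e j ≠ e (s b) := fun h' => h (e.injective h').symm
          simp [Pi.single_eq_of_ne hne]
      refine ⟨fun i => ?_, fun c => ?_, fun i hi => ?_⟩
      · obtain ⟨j, rfl⟩ := e.surjective i
        rw [hval]
        apply Finset.sum_nonneg
        intro b _
        split_ifs <;> norm_num
      · rw [Finset.sum_congr rfl (fun j _ => hval j), Finset.sum_comm]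
        have h1 : ∀ b : κ, (∑ j ∈ Finset.univ.filter (fun i => p i = c),
            if s b = j then (1 : ℝ) else 0) = if b = c then 1 else 0 := by
          intro b
          rw [Finset.sum_ite_eq]
          by_cases h : b = c
          · have : s b ∈ Finset.univ.filter (fun i => p i = c) :=
              Finset.mem_filter.2 ⟨Finset.mem_univ _, (hs b).2.trans h⟩
            rw [if_pos this, if_pos h]
          · have : s b ∉ Finset.univ.filter (fun i => p i = c) := by
              intro h'
              exact h ((hs b).2.symm.trans (Finset.mem_filter.1 h').2)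
            rw [if_neg this, if_neg h]
        rw [Finset.sum_congr rfl (fun b _ => h1 b)]
        simp
      · rw [hval]
        apply Finset.sum_eq_zero
        intro b _
        rw [if_neg]
        intro h
        apply hi
        rw [← h]
        refine Finset.mem_filter.2 ⟨(hs b).1, ?_⟩
        rw [(hs b).2]
    -- elements of the small cell have maximal value
    have hmaxval : ∀ z ∈ cell e p (y.filter (fun i => v i = v (s (p i)))),
        l z = ∑ b, v (s b) := by
      intro z hz
      have h1 := hdef z (cell_mono e p (Finset.filter_subset _ _) hz)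
      have h2 : ∑ i, z (e i) * (v (s (p i)) - v i) = 0 := by
        apply Finset.sum_eq_zero
        intro i _
        by_cases hi : i ∈ y.filter (fun i => v i = v (s (p i)))
        · rw [(Finset.mem_filter.1 hi).2, sub_self, mul_zero]
        · rw [hz.2.2 i hi, zero_mul]
      linarith
    have hupper : ∀ w ∈ cell e p y, l w ≤ ∑ b, v (s b) := by
      intro w hw
      have h1 := hdef w hw
      have h2 : 0 ≤ ∑ i, w (e i) * (v (s (p i)) - v i) :=
        Finset.sum_nonneg (fun i _ => hnn w hw i)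
      linarith
    rw [hl]
    ext z
    constructor
    · rintro ⟨hz, hmax⟩
      have h1 := hmax _ (cell_mono e p (Finset.filter_subset _ _) hz1)
      rw [hmaxval _ hz1] at h1
      have h2 := hdef z hz
      have h3 : ∑ i, z (e i) * (v (s (p i)) - v i) = 0 := by
        apply le_antisymm
        · linarith
        · exact Finset.sum_nonneg (fun i _ => hnn z hz i)
      have h4 := (Finset.sum_eq_zero_iff_of_nonneg (fun i _ => hnn z hz i)).1 h3
      refine ⟨hz.1, hz.2.1, fun i hi => ?_⟩
      by_cases hy : i ∈ y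
      · have h5 := h4 i (Finset.mem_univ _)
        rcases mul_eq_zero.1 h5 with h6 | h6
        · exact h6
        · exact absurd (Finset.mem_filter.2 ⟨hy, (sub_eq_zero.1 h6).symm⟩) hi
      · exact hz.2.2 i hy
    · intro hz
      refine ⟨cell_mono e p (Finset.filter_subset _ _) hz, fun w hw => ?_⟩
      rw [hmaxval z hz]
      exact hupper w hw

end

end Pool.Agent.SR
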