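import Pool.Agent.SR.M7a
import Pool.Agent.SR.M7b

/-! M7c: the cells form a polyhedral complex. -/

namespace Pool.Agent.SR

open Pool.Agent.helper45.OC

/-- a point of a cell with a given coordinate equal to `1` -/
private lemma exists_pt {ι κ : Type*} [Fintype ι] [DecidableEq ι] [DecidableEq κ] {N : ℕ}
    (e : ι ≃ Fin N) (p : ι → κ) (s : κ → ι) (hs : ∀ b, p (s b) = b) (y : Finset ι)
    (hy : ∀ b, s b ∈ y) :
    (fun j : Fin N => if s (p (e.symm j)) = e.symm j then (1 : ℝ) else 0) ∈ cell e p y := by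
  refine ⟨?_, ?_, ?_⟩
  · intro j
    dsimp only
    split_ifs <;> norm_num
  · intro b
    rw [Finset.sum_eq_single (s b)]
    · simp [hs b]
    · intro i hi hne
      have hib : p i = b := (Finset.mem_filter.1 hi).2
      simp only [Equiv.symm_apply_apply]
      rw [if_neg]
      rw [hib]
      exact fun h => hne h.symm
    · intro h
      exact (h (Finset.mem_filter.2 ⟨Finset.mem_univ (s b), hs b⟩)).elim
  · intro i hi
    simp only [Equiv.symm_apply_apply]
    rw [if_neg]
    intro h
    exact hi (h ▸ hy (p i))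

theorem cell_nonempty {ι κ : Type*} [Fintype ι] [DecidableEq ι] [Fintype κ]
    [DecidableEq κ] {N : ℕ} (e : ι ≃ Fin N) (p : ι → κ) (y : Finset ι)
    (hy : Hits p y) : (cell e p y).Nonempty := by
  choose s hs1 hs2 using hy
  exact ⟨_, exists_pt e p s hs2 y hs1⟩

theorem cell_subset_iff {ι κ : Type*} [Fintype ι] [DecidableEq ι] [Fintype κ]
    [DecidableEq κ] {N : ℕ} (e : ι ≃ Fin N) (p : ι → κ) (x y : Finset ι) (hx : Hits p x)
    (hy : Hits p y) : cell e p x ⊆ cell e p y ↔ x ⊆ y := by
  constructor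
  · intro h i hi
    choose s hs1 hs2 using hx
    by_contra hiy
    have h1 := h (exists_pt e p (Function.update s (p i) i) (by
      intro b
      by_cases hb : b = p i
      · subst hb
        simp
      · rw [Function.update_of_ne hb]
        exact hs2 b) x (by
      intro b
      by_cases hb : b = p i
      · subst hb
        simpa using hi
      · rw [Function.update_of_ne hb]
        exact hs1 b))
    have h2 := h1.2.2 i hiy
    simp at h2
  · intro h z hz
    exact ⟨hz.1, hz.2.1, fun i hi => hz.2.2 i (fun h' => hi (h h'))⟩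

/-- the intersection of two cells -/
private lemma cell_inter {ι κ : Type*} [Fintype ι] [DecidableEq ι] [DecidableEq κ] {N : ℕ}
    (e : ι ≃ Fin N) (p : ι → κ) (x y : Finset ι) :
    cell e p x ∩ cell e p y = cell e p (x ∩ y) := by
  ext z
  constructor
  · rintro ⟨h1, h2⟩
    refine ⟨h1.1, h1.2.1, fun i hi => ?_⟩
    by_cases hx : i ∈ x
    · exact h2.2.2 i (fun hy => hi (Finset.mem_inter.2 ⟨hx, hy⟩))
    · exact h1.2.2 i hx
  · intro h
    exact ⟨⟨h.1, h.2.1, fun i hi => h.2.2 i (fun h' => hi (Finset.mem_inter.1 h').1)⟩,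
      ⟨h.1, h.2.1, fun i hi => h.2.2 i (fun h' => hi (Finset.mem_inter.1 h').2)⟩⟩

theorem cplx_isPolyhedralComplex {ι κ : Type*} [Fintype ι] [DecidableEq ι] [Fintype κ]
    [DecidableEq κ] {N : ℕ} (e : ι ≃ Fin N) (p : ι → κ) (L : Set (Finset ι))
    (hL : ∀ y ∈ L, Hits p y) (hdown : ∀ y ∈ L, ∀ x : Finset ι, Hits p x → x ⊆ y → x ∈ L) :
    IsPolyhedralComplex (cplx e p L) := by
  have hempty : ∀ A : Set (Fin N → ℝ), IsExposed ℝ A ∅ := by
    intro A h
    exact absurd h Set.not_nonempty_empty
  refine ⟨?_, ?_, ?_, ?_, ?_⟩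
  · exact (Set.Finite.image _ (Set.toFinite L)).insert _
  · exact Set.mem_insert _ _
  · rintro P (rfl | ⟨y, _, rfl⟩)
    · exact ⟨∅, by simp⟩
    · exact cell_isPolytope e p y
  · rintro P (rfl | ⟨y, hy, rfl⟩) F hF
    · have : F = ∅ := Set.subset_empty_iff.1 hF.subset
      rw [this]
      exact Set.mem_insert _ _
    · rcases F.eq_empty_or_nonempty with rfl | hne
      · exact Set.mem_insert _ _
      · obtain ⟨x, hxy, hx, rfl⟩ := exposed_cell e p y F hF hne
        exact Or.inr ⟨x, hdown y hy x hx hxy, rfl⟩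
  · rintro P (rfl | ⟨x, _, rfl⟩) Q (rfl | ⟨y, _, rfl⟩)
    · simp only [Set.empty_inter]
      exact ⟨hempty _, hempty _⟩
    · simp only [Set.empty_inter]
      exact ⟨hempty _, hempty _⟩
    · simp only [Set.inter_empty]
      exact ⟨hempty _, hempty _⟩
    · rw [cell_inter]
      exact ⟨cell_exposed e p _ _ Finset.inter_subset_left,
        cell_exposed e p _ _ Finset.inter_subset_right⟩

end Pool.Agent.SR
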