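import Mathlib
import Pool.Agent.SR.Defs

/-! SR, module M8a: counting the chains below a cell. -/

namespace Pool.Agent.SR

open Pool.Agent.helper45.OC Finset

/-! ### sums over subsets split over blocks -/

theorem m8_split {ι κ : Type*} [Fintype ι] [DecidableEq ι] [Fintype κ] [DecidableEq κ]
    (p : ι → κ) (f : ℕ → ℤ) (y : Finset ι) :
    ∑ x ∈ y.powerset, ∏ b : κ, f ((x.filter (fun i => p i = b)).card) =
      ∏ b : κ, ∑ s ∈ (y.filter (fun i => p i = b)).powerset, f s.card := by
  rw [Finset.prod_univ_sum]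
  symm
  refine Finset.sum_bij' (fun g _ => Finset.univ.biUnion g)
    (fun x _ => fun b => x.filter (fun i => p i = b)) ?_ ?_ ?_ ?_ ?_
  · intro g hg
    rw [Fintype.mem_piFinset] at hg
    rw [mem_powerset]
    intro i hi
    rw [mem_biUnion] at hi
    obtain ⟨b, _, hb⟩ := hi
    exact (mem_filter.mp (mem_powerset.mp (hg b) hb)).1
  · intro x hx
    rw [Fintype.mem_piFinset]
    intro b
    rw [mem_powerset] at hx ⊢
    exact filter_subset_filter _ hx
  · intro g hg
    rw [Fintype.mem_piFinset] at hg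
    funext b
    ext i
    rw [mem_filter, mem_biUnion]
    constructor
    · rintro ⟨⟨b', _, hb'⟩, h⟩
      have h2 := (mem_filter.mp (mem_powerset.mp (hg b') hb')).2
      rw [h2] at h
      rw [← h]
      exact hb'
    · intro h
      exact ⟨⟨b, mem_univ _, h⟩, (mem_filter.mp (mem_powerset.mp (hg b) h)).2⟩
  · intro x _
    ext i
    rw [mem_biUnion]
    constructor
    · rintro ⟨b, _, hb⟩
      exact (mem_filter.mp hb).1
    · intro h
      exact ⟨p i, mem_univ _, mem_filter.mpr ⟨h, rfl⟩⟩
  · intro g hg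
    rw [Fintype.mem_piFinset] at hg
    apply Finset.prod_congr rfl
    intro b _
    congr 2
    ext i
    rw [mem_filter, mem_biUnion]
    constructor
    · intro h
      exact ⟨⟨b, mem_univ _, h⟩, (mem_filter.mp (mem_powerset.mp (hg b) h)).2⟩
    · rintro ⟨⟨b', _, hb'⟩, h⟩
      have h2 := (mem_filter.mp (mem_powerset.mp (hg b') hb')).2
      rw [h2] at h
      rw [← h]
      exact hb'

/-- the product over the blocks -/
def zet {ι κ : Type*} [Fintype ι] [DecidableEq ι] [Fintype κ] [DecidableEq κ]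
    (p : ι → κ) (l : ℕ) (x : Finset ι) : ℤ :=
  ∏ b : κ, (((l : ℤ) + 1) ^ ((x.filter (fun i => p i = b)).card) -
    (l : ℤ) ^ ((x.filter (fun i => p i = b)).card))

theorem zet_sum {ι κ : Type*} [Fintype ι] [DecidableEq ι] [Fintype κ] [DecidableEq κ]
    (p : ι → κ) (l : ℕ) (y : Finset ι) :
    ∑ x ∈ y.powerset, zet p l x = zet p (l + 1) y := by
  unfold zet
  rw [m8_split p (fun c => ((l : ℤ) + 1) ^ c - (l : ℤ) ^ c) y]
  apply Finset.prod_congr rfl
  intro b _
  rw [Finset.sum_sub_distrib]
  have h1 := Finset.sum_pow_mul_eq_add_pow ((l : ℤ) + 1) 1 (y.filter (fun i => p i = b))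
  have h2 := Finset.sum_pow_mul_eq_add_pow (l : ℤ) 1 (y.filter (fun i => p i = b))
  simp only [one_pow, mul_one] at h1 h2
  rw [h1, h2]
  push_cast
  ring

theorem zet_not_hits {ι κ : Type*} [Fintype ι] [DecidableEq ι] [Fintype κ] [DecidableEq κ]
    (p : ι → κ) (l : ℕ) (x : Finset ι) (hx : ¬ Hits p x) : zet p l x = 0 := by
  unfold Hits at hx
  push Not at hx
  obtain ⟨b, hb⟩ := hx
  apply Finset.prod_eq_zero (mem_univ b)
  have h : x.filter (fun i => p i = b) = ∅ := by
    rw [filter_eq_empty_iff]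
    exact fun i hi => hb i hi
  rw [h]
  simp

theorem zet_zero {ι κ : Type*} [Fintype ι] [DecidableEq ι] [Fintype κ] [DecidableEq κ]
    (p : ι → κ) (x : Finset ι) (hx : Hits p x) : zet p 0 x = 1 := by
  unfold zet
  apply Finset.prod_eq_one
  intro b _
  obtain ⟨i, hi, hb⟩ := hx b
  have h : (x.filter (fun i => p i = b)).card ≠ 0 := by
    rw [Finset.card_ne_zero]
    exact ⟨i, mem_filter.mpr ⟨hi, hb⟩⟩
  simp [h]

open Classical in
theorem zet_below {ι κ : Type*} [Fintype ι] [DecidableEq ι] [Fintype κ] [DecidableEq κ]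
    (p : ι → κ) (L : Set (Finset ι)) (hL : ∀ y ∈ L, Hits p y)
    (hdown : ∀ y ∈ L, ∀ x : Finset ι, Hits p x → x ⊆ y → x ∈ L) (l : ℕ) (y : ↥L) :
    ∑ x ∈ (Finset.univ : Finset ↥L).filter (fun x => x < y), zet p l x.1 =
      zet p (l + 1) y.1 - zet p l y.1 := by
  rw [← zet_sum p l y.1, ← Finset.add_sum_erase y.1.powerset (zet p l)
    (mem_powerset.mpr (Finset.Subset.refl y.1)), add_sub_cancel_left]
  have h1 : ∑ x ∈ y.1.powerset.erase y.1, zet p l x =
      ∑ x ∈ (y.1.powerset.erase y.1).filter (fun x => Hits p x), zet p l x := by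
    symm
    apply Finset.sum_subset (filter_subset _ _)
    intro x hx hx'
    apply zet_not_hits
    intro hh
    exact hx' (mem_filter.mpr ⟨hx, hh⟩)
  rw [h1]
  refine Finset.sum_bij (fun x _ => x.1) ?_ ?_ ?_ ?_
  · intro x hx
    rw [mem_filter] at hx
    rw [mem_filter, mem_erase, mem_powerset]
    have hlt : x.1 < y.1 := hx.2
    exact ⟨⟨hlt.ne, hlt.le⟩, hL x.1 x.2⟩
  · intro a _ b _ h
    exact Subtype.ext h
  · intro x hx
    rw [mem_filter, mem_erase, mem_powerset] at hx
    have hxL : x ∈ L := hdown y.1 y.2 x hx.2 hx.1.2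
    refine ⟨⟨x, hxL⟩, ?_, rfl⟩
    rw [mem_filter]
    refine ⟨mem_univ _, ?_⟩
    have : x < y.1 := lt_of_le_of_ne hx.1.2 hx.1.1
    exact this
  · intro x _
    rfl

/-! ### chains -/

/-- chains with top element `y` versus chains with top element below `y`. -/
def snocEquiv {Q : Type*} [PartialOrder Q] (j : ℕ) (y : Q) :
    {c : Chain Q (j + 2) // c.1 (Fin.last (j + 1)) = y} ≃
      {c : Chain Q (j + 1) // c.1 (Fin.last j) < y} where
  toFun c := ⟨⟨fun i => c.1.1 i.castSucc, fun a b hab => c.1.2 (by simpa using hab)⟩, by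
    have h := c.1.2 (Fin.castSucc_lt_last (Fin.last j))
    rw [c.2] at h
    exact h⟩
  invFun c := ⟨⟨Fin.snoc (α := fun _ => Q) c.1.1 y, by
    intro a b hab
    induction b using Fin.lastCases with
    | last =>
      rw [Fin.snoc_last]
      induction a using Fin.lastCases with
      | last => exact absurd hab (lt_irrefl _)
      | cast a =>
        rw [Fin.snoc_castSucc]
        exact lt_of_le_of_lt (c.1.2.monotone (Fin.le_last a)) c.2
    | cast b =>
      induction a using Fin.lastCases with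
      | last => exact absurd hab (not_lt.mpr (Fin.le_last _))
      | cast a =>
        rw [Fin.snoc_castSucc, Fin.snoc_castSucc]
        exact c.1.2 (by simpa using hab)⟩, by
    show Fin.snoc (α := fun _ => Q) c.1.1 y (Fin.last (j + 1)) = y
    exact Fin.snoc_last (α := fun _ => Q) y c.1.1⟩
  left_inv c := by
    apply Subtype.ext
    apply Subtype.ext
    funext i
    induction i using Fin.lastCases with
    | last => simp [c.2]
    | cast i => simp
  right_inv c := by
    apply Subtype.ext
    apply Subtype.ext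
    funext i
    simp

open Classical in
theorem card_top_succ {Q : Type*} [PartialOrder Q] [Fintype Q] (j : ℕ) (y : Q) :
    Nat.card {c : Chain Q (j + 2) // c.1 (Fin.last (j + 1)) = y} =
      ∑ x ∈ (Finset.univ : Finset Q).filter (fun x => x < y),
        Nat.card {c : Chain Q (j + 1) // c.1 (Fin.last j) = x} := by
  rw [Nat.card_congr (snocEquiv j y)]
  have h1 : Nat.card {c : Chain Q (j + 1) // c.1 (Fin.last j) < y} =
      ((Finset.univ : Finset (Chain Q (j + 1))).filter (fun c => c.1 (Fin.last j) < y)).card := by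
    rw [Nat.card_eq_fintype_card, Fintype.card_subtype]
  rw [h1, Finset.card_eq_sum_card_fiberwise (f := fun c : Chain Q (j + 1) => c.1 (Fin.last j))
    (t := (Finset.univ : Finset Q).filter (fun x => x < y))]
  · apply Finset.sum_congr rfl
    intro x hx
    rw [mem_filter] at hx
    rw [Nat.card_eq_fintype_card, Fintype.card_subtype]
    congr 1
    ext c
    simp only [mem_filter, mem_univ, true_and]
    constructor
    · exact fun h => h.2
    · intro h
      exact ⟨by rw [h]; exact hx.2, h⟩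
  · intro c hc
    simpa using hc

/-- iterated difference at `0` -/
def dif (j : ℕ) (Z : ℕ → ℤ) : ℤ :=
  ∑ l ∈ Finset.range (j + 1), (-1 : ℤ) ^ (j - l) * (j.choose l : ℤ) * Z l

theorem dif_eq (j : ℕ) (Z : ℕ → ℤ) : dif j Z = (fwdDiff 1)^[j] Z 0 := by
  rw [fwdDiff_iter_eq_sum_shift, dif]
  apply Finset.sum_congr rfl
  intro l _
  simp

theorem dif_succ (j : ℕ) (Z : ℕ → ℤ) : dif (j + 1) Z = dif j (fun l => Z (l + 1) - Z l) := by
  rw [dif_eq, dif_eq, Function.iterate_succ_apply]
  rfl

theorem dif_sum {α : Type*} (s : Finset α) (j : ℕ) (Z : ℕ → α → ℤ) :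
    ∑ x ∈ s, dif j (fun l => Z l x) = dif j (fun l => ∑ x ∈ s, Z l x) := by
  unfold dif
  rw [Finset.sum_comm]
  apply Finset.sum_congr rfl
  intro l _
  rw [Finset.mul_sum]

/-- M8a: chains below a given cell -/
theorem card_chain_top {ι κ : Type*} [Fintype ι] [DecidableEq ι] [Fintype κ] [DecidableEq κ]
    (p : ι → κ) (L : Set (Finset ι)) (hL : ∀ y ∈ L, Hits p y)
    (hdown : ∀ y ∈ L, ∀ x : Finset ι, Hits p x → x ⊆ y → x ∈ L) (j : ℕ) (y : ↥L) :
    (Nat.card {c : Chain (↥L) (j + 1) // c.1 (Fin.last j) = y} : ℤ) =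
      ∑ l ∈ Finset.range (j + 1), (-1 : ℤ) ^ (j - l) * (j.choose l : ℤ) *
        ∏ b : κ, (((l : ℤ) + 1) ^ ((y.1.filter (fun i => p i = b)).card) -
          (l : ℤ) ^ ((y.1.filter (fun i => p i = b)).card)) := by
  classical
  have key : ∀ (j : ℕ) (y : ↥L),
      (Nat.card {c : Chain (↥L) (j + 1) // c.1 (Fin.last j) = y} : ℤ) =
        dif j (fun l => zet p l y.1) := by
    intro j
    induction j with
    | zero =>
      intro y
      have h1 : Nat.card {c : Chain (↥L) (0 + 1) // c.1 (Fin.last 0) = y} = 1 := by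
        rw [Nat.card_eq_one_iff_unique]
        refine ⟨⟨fun a b => ?_⟩, ⟨⟨⟨fun _ => y, fun a b hab => ?_⟩, rfl⟩⟩⟩
        · apply Subtype.ext
          apply Subtype.ext
          funext i
          have hi : i = Fin.last 0 := Fin.ext (by omega)
          rw [hi, a.2, b.2]
        · have h2 := Fin.lt_def.mp hab
          exact absurd h2 (by omega)
      rw [h1]
      unfold dif
      simp [zet_zero p y.1 (hL y.1 y.2)]
    | succ j ih =>
      intro y
      rw [card_top_succ, Nat.cast_sum, dif_succ]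
      rw [Finset.sum_congr rfl (fun x _ => ih x), dif_sum _ j (fun l (x : ↥L) => zet p l x.1)]
      congr 1
      funext l
      convert zet_below p L hL hdown l y
  exact key j y

end Pool.Agent.SR
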