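import Pool.Agent.SR.Defs

namespace Pool.Agent.SR

open Pool.Agent.helper45.OC
open Polynomial

namespace B8

/-- the weight -/
def wt {ι κ : Type*} [DecidableEq ι] [Fintype κ] [DecidableEq κ] (p : ι → κ) (y : Finset ι)
    (l : ℕ) : ℤ :=
  ∏ b : κ, (((l : ℤ) + 1) ^ ((y.filter (fun i => p i = b)).card) -
          (l : ℤ) ^ ((y.filter (fun i => p i = b)).card))

theorem wt_not {ι κ : Type*} [DecidableEq ι] [Fintype κ] [DecidableEq κ] (p : ι → κ)
    (y : Finset ι) (hy : ¬ Hits p y) (l : ℕ) : wt p y l = 0 := by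
  unfold Hits at hy
  push Not at hy
  obtain ⟨b, hb⟩ := hy
  unfold wt
  apply Finset.prod_eq_zero (Finset.mem_univ b)
  have : (y.filter (fun i => p i = b)) = ∅ := by
    rw [Finset.filter_eq_empty_iff]
    intro i hi
    exact hb i hi
  rw [this]
  simp

theorem sum_powerset_prod {ι κ R : Type*} [CommSemiring R] [DecidableEq ι] [Fintype κ]
    [DecidableEq κ] (p : ι → κ)
    (g : κ → Finset ι → R) (y : Finset ι) :
    ∑ x ∈ y.powerset, ∏ b : κ, g b (x.filter (fun i => p i = b)) =
      ∏ b : κ, ∑ x ∈ (y.filter (fun i => p i = b)).powerset, g b x := by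
  classical
  rw [Finset.prod_univ_sum]
  symm
  refine Finset.sum_bij' (fun f _ => Finset.univ.biUnion f)
    (fun x _ b => x.filter (fun i => p i = b)) ?_ ?_ ?_ ?_ ?_
  · intro f hf
    rw [Fintype.mem_piFinset] at hf
    rw [Finset.mem_powerset]
    intro i hi
    rw [Finset.mem_biUnion] at hi
    obtain ⟨b, -, hb⟩ := hi
    have := Finset.mem_powerset.1 (hf b) hb
    exact (Finset.mem_filter.1 this).1
  · intro x hx
    rw [Fintype.mem_piFinset]
    intro b
    rw [Finset.mem_powerset] at hx ⊢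
    exact Finset.filter_subset_filter _ hx
  · intro f hf
    rw [Fintype.mem_piFinset] at hf
    funext b
    ext i
    rw [Finset.mem_filter, Finset.mem_biUnion]
    constructor
    · rintro ⟨⟨b', -, hb'⟩, hi⟩
      have h1 := Finset.mem_powerset.1 (hf b') hb'
      have h2 := (Finset.mem_filter.1 h1).2
      rw [← hi, h2]
      exact hb'
    · intro hi
      have h1 := Finset.mem_powerset.1 (hf b) hi
      exact ⟨⟨b, Finset.mem_univ _, hi⟩, (Finset.mem_filter.1 h1).2⟩
  · intro x hx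
    ext i
    rw [Finset.mem_biUnion]
    constructor
    · rintro ⟨b, -, hb⟩
      exact (Finset.mem_filter.1 hb).1
    · intro hi
      exact ⟨p i, Finset.mem_univ _, Finset.mem_filter.2 ⟨hi, rfl⟩⟩
  · intro f hf
    rw [Fintype.mem_piFinset] at hf
    apply Finset.prod_congr rfl
    intro b _
    congr 1
    ext i
    rw [Finset.mem_filter, Finset.mem_biUnion]
    constructor
    · intro hi
      have h1 := Finset.mem_powerset.1 (hf b) hi
      exact ⟨⟨b, Finset.mem_univ _, hi⟩, (Finset.mem_filter.1 h1).2⟩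
    · rintro ⟨⟨b', -, hb'⟩, hi⟩
      have h1 := Finset.mem_powerset.1 (hf b') hb'
      have h2 := (Finset.mem_filter.1 h1).2
      rw [← hi, h2]
      exact hb'

/-- generating polynomial -/
theorem gen_poly {ι κ : Type*} [DecidableEq ι] [Fintype κ]
    [DecidableEq κ] (p : ι → κ) (U : Finset ι) (l : ℕ) :
    ∑ y ∈ U.powerset, (C (wt p y l) * X ^ y.card : ℤ[X]) =
      ∏ b : κ, ∑ k ∈ Finset.range ((U.filter (fun i => p i = b)).card + 1),
        ((U.filter (fun i => p i = b)).card.choose k) •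
          (C (((l : ℤ) + 1) ^ k - (l : ℤ) ^ k) * X ^ k : ℤ[X]) := by
  rw [Finset.prod_congr rfl (fun b _ => (Finset.sum_powerset_apply_card
    (fun k => (C (((l : ℤ) + 1) ^ k - (l : ℤ) ^ k) * X ^ k : ℤ[X]))
    (x := U.filter (fun i => p i = b))).symm)]
  rw [← sum_powerset_prod p (fun _ x => (C (((l : ℤ) + 1) ^ x.card - (l : ℤ) ^ x.card) *
    X ^ x.card : ℤ[X])) U]
  apply Finset.sum_congr rfl
  intro y _
  rw [Finset.prod_mul_distrib, Finset.prod_pow_eq_pow_sum, ← map_prod]
  congr 2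
  exact Finset.card_eq_sum_card_fiberwise (fun i _ => Finset.mem_coe.2 (Finset.mem_univ (p i)))

/-- sum of the coefficients up to degree `N` -/
noncomputable def trc (N : ℕ) : ℤ[X] →ₗ[ℤ] ℤ := ∑ m ∈ Finset.range (N + 1), Polynomial.lcoeff ℤ m

theorem trc_mono (N k : ℕ) (a : ℤ) : trc N (C a * X ^ k) = if k ≤ N then a else 0 := by
  unfold trc
  rw [LinearMap.sum_apply]
  simp only [Polynomial.lcoeff_apply, Polynomial.coeff_C_mul, Polynomial.coeff_X_pow]
  simp only [mul_ite, mul_one, mul_zero]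
  rw [Finset.sum_ite_eq' (Finset.range (N + 1)) k (fun _ => a)]
  simp only [Finset.mem_range, Nat.lt_succ_iff]

section

variable (n K M : ℕ)

theorem card_sS : (sS n K M).card = n := by
  unfold sS
  rw [Finset.card_image_of_injective _ (f := fun i : Fin n => (Sum.inl (Sum.inl i) : Gr n K M))
    (Sum.inl_injective.comp Sum.inl_injective)]
  simp

theorem U1_none : (U1 n K M).filter (fun i => blk n K M i = none) = sS n K M := by
  ext i
  simp only [U1, sS, Finset.mem_filter, Finset.mem_union, Finset.mem_image, Finset.mem_univ,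
    true_and]
  constructor
  · rintro ⟨h | h, hb⟩
    · exact h
    · obtain ⟨q, rfl⟩ := h
      simp [blk] at hb
  · rintro ⟨a, rfl⟩
    exact ⟨Or.inl ⟨a, rfl⟩, rfl⟩

theorem U1_some (j : Fin M) : ((U1 n K M).filter (fun i => blk n K M i = some j)).card = 2 := by
  have : (U1 n K M).filter (fun i => blk n K M i = some j) =
      {Sum.inr (j, false), Sum.inr (j, true)} := by
    ext i
    simp only [U1, sS, Finset.mem_filter, Finset.mem_union, Finset.mem_image, Finset.mem_univ,
      true_and, Finset.mem_insert, Finset.mem_singleton]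
    constructor
    · rintro ⟨h | h, hb⟩
      · obtain ⟨a, rfl⟩ := h
        simp [blk] at hb
      · obtain ⟨⟨j', c⟩, rfl⟩ := h
        simp only [blk, Option.some.injEq] at hb
        subst hb
        cases c
        · exact Or.inl rfl
        · exact Or.inr rfl
    · rintro (rfl | rfl)
      · exact ⟨Or.inr ⟨(j, false), rfl⟩, rfl⟩
      · exact ⟨Or.inr ⟨(j, true), rfl⟩, rfl⟩
  rw [this, Finset.card_pair]
  simp

theorem sum_fam1_poly (l : ℕ) :
    ∑ y ∈ (U1 n K M).powerset, (C (wt (blk n K M) y l) * X ^ y.card : ℤ[X]) =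
      (∑ k ∈ Finset.range (n + 1), (n.choose k) •
          (C (((l : ℤ) + 1) ^ k - (l : ℤ) ^ k) * X ^ k : ℤ[X])) *
        ∑ i ∈ Finset.range (M + 1), (C ((2 * (l : ℤ) + 1) ^ i * 2 ^ (M - i) * (M.choose i : ℤ)) *
          X ^ (M + i) : ℤ[X]) := by
  rw [gen_poly, Fintype.prod_option, U1_none, card_sS]
  congr 1
  rw [Finset.prod_congr rfl (fun j _ => by rw [U1_some n K M j])]
  rw [Finset.prod_const, Finset.card_univ, Fintype.card_fin]
  have h1 : ∑ k ∈ Finset.range (2 + 1), ((2 : ℕ).choose k) •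
      (C (((l : ℤ) + 1) ^ k - (l : ℤ) ^ k) * X ^ k : ℤ[X]) =
      X * (C (2 * (l : ℤ) + 1) * X + C 2) := by
    simp only [Finset.sum_range_succ, Finset.sum_range_zero]
    simp only [Nat.choose_zero_right, Nat.choose_one_right, Nat.choose_self, pow_zero, pow_one]
    have e1 : ((l : ℤ) + 1) ^ 2 - (l : ℤ) ^ 2 = 2 * (l : ℤ) + 1 := by ring
    have e2 : ((l : ℤ) + 1) - (l : ℤ) = 1 := by ring
    rw [e1, e2]
    simp only [sub_self, map_zero, zero_mul, smul_zero, zero_add, map_one, one_mul, one_smul]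
    have e3 : (C 2 : ℤ[X]) = 2 := rfl
    rw [e3]
    simp only [nsmul_eq_mul]
    push_cast
    ring
  rw [h1, mul_pow, add_pow, Finset.mul_sum]
  apply Finset.sum_congr rfl
  intro i _
  rw [mul_pow, ← C_pow, ← C_pow]
  simp only [map_mul]
  rw [pow_add]
  have : ((M.choose i : ℕ) : ℤ[X]) = C ((M.choose i : ℕ) : ℤ) := by simp
  rw [this]
  ring

theorem sum_fam1 (hM : n ≤ M) (l : ℕ) :
    ∑ y ∈ (U1 n K M).powerset.filter (fun y => y.card ≤ n + M), wt (blk n K M) y l =
      ∑ s ∈ Finset.range n, ∑ i ∈ Finset.range (n - s),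
    ((n.choose (s + 1) : ℤ) * (M.choose i : ℤ) * 2 ^ (M - i) *
      (((l : ℤ) + 1) ^ (s + 1) - (l : ℤ) ^ (s + 1)) * (2 * (l : ℤ) + 1) ^ i) := by
  have h := congrArg (trc (n + M)) (sum_fam1_poly n K M l)
  rw [map_sum] at h
  simp only [trc_mono] at h
  rw [← Finset.sum_filter] at h
  rw [h, Finset.sum_mul_sum, map_sum, Finset.sum_range_succ']
  have h0 : trc (n + M) (∑ j ∈ Finset.range (M + 1), (n.choose 0 •
      (C (((l : ℤ) + 1) ^ 0 - (l : ℤ) ^ 0) * X ^ 0 : ℤ[X])) *
      (C ((2 * (l : ℤ) + 1) ^ j * 2 ^ (M - j) * (M.choose j : ℤ)) * X ^ (M + j) : ℤ[X])) = 0 := by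
    simp
  rw [h0, add_zero]
  apply Finset.sum_congr rfl
  intro s hs
  rw [Finset.mem_range] at hs
  rw [map_sum]
  have h1 : ∀ i ∈ Finset.range (M + 1), trc (n + M) ((n.choose (s + 1) •
      (C (((l : ℤ) + 1) ^ (s + 1) - (l : ℤ) ^ (s + 1)) * X ^ (s + 1) : ℤ[X])) *
      (C ((2 * (l : ℤ) + 1) ^ i * 2 ^ (M - i) * (M.choose i : ℤ)) * X ^ (M + i) : ℤ[X])) =
      if i ∈ Finset.range (n - s) then ((n.choose (s + 1) : ℤ) * (M.choose i : ℤ) * 2 ^ (M - i) *
      (((l : ℤ) + 1) ^ (s + 1) - (l : ℤ) ^ (s + 1)) * (2 * (l : ℤ) + 1) ^ i) else 0 := by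
    intro i _
    have e : (n.choose (s + 1) •
      (C (((l : ℤ) + 1) ^ (s + 1) - (l : ℤ) ^ (s + 1)) * X ^ (s + 1) : ℤ[X])) *
      (C ((2 * (l : ℤ) + 1) ^ i * 2 ^ (M - i) * (M.choose i : ℤ)) * X ^ (M + i) : ℤ[X]) =
      C ((n.choose (s + 1) : ℤ) * (M.choose i : ℤ) * 2 ^ (M - i) *
      (((l : ℤ) + 1) ^ (s + 1) - (l : ℤ) ^ (s + 1)) * (2 * (l : ℤ) + 1) ^ i) *
      X ^ (s + 1 + (M + i)) := by
      rw [nsmul_eq_mul]
      have : ((n.choose (s + 1) : ℕ) : ℤ[X]) = C ((n.choose (s + 1) : ℕ) : ℤ) := by simp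
      rw [this]
      simp only [map_mul]
      rw [pow_add X (s + 1) (M + i)]
      ring
    rw [e, trc_mono]
    have e2 : (s + 1 + (M + i) ≤ n + M) ↔ i ∈ Finset.range (n - s) := by
      rw [Finset.mem_range]; omega
    simp only [e2]
  rw [Finset.sum_congr rfl h1, ← Finset.sum_filter]
  apply Finset.sum_congr _ (fun _ _ => rfl)
  ext i
  rw [Finset.mem_filter, Finset.mem_range, Finset.mem_range]
  omega

variable {n K M}

theorem ap_inj {i i' : Fin K} (h : (ap i : Gr n K M) = ap i') : i = i' := by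
  unfold ap at h
  exact Sum.inr_injective (Sum.inl_injective h)

theorem ap_nmem_U1 (i : Fin K) : (ap i : Gr n K M) ∉ U1 n K M := by
  simp [ap, U1, sS]

theorem ap_nmem_sS (i : Fin K) : (ap i : Gr n K M) ∉ sS n K M := by
  simp [ap, sS]

theorem ap_nmem_zz (i : Fin K) : (ap i : Gr n K M) ∉ zz n K M := by
  simp [ap, zz]

theorem nmem_zz_of_sS {q : Gr n K M} (h : q ∈ sS n K M) : q ∉ zz n K M := by
  simp only [sS, Finset.mem_image, Finset.mem_univ, true_and] at h
  obtain ⟨a, rfl⟩ := h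
  simp [zz]

/-- the cells of the cones -/
def mk2 (q : Fin K × Finset (Gr n K M)) : Finset (Gr n K M) := insert (ap q.1) (q.2 ∪ zz n K M)

theorem mk2_inj : Set.InjOn (mk2 (n := n) (K := K) (M := M))
    ((Finset.univ : Finset (Fin K)) ×ˢ (sS n K M).ssubsets : Finset _) := by
  rintro ⟨i, t⟩ h ⟨i', t'⟩ h' e
  rw [Finset.mem_coe, Finset.mem_product, Finset.mem_ssubsets] at h h'
  have ht : t ⊆ sS n K M := h.2.subset
  have ht' : t' ⊆ sS n K M := h'.2.subset
  unfold mk2 at e
  simp only at e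
  have hi : i = i' := by
    have : (ap i : Gr n K M) ∈ insert (ap i') (t' ∪ zz n K M) := by
      rw [← e]; exact Finset.mem_insert_self _ _
    rw [Finset.mem_insert, Finset.mem_union] at this
    rcases this with h1 | h1 | h1
    · exact ap_inj h1
    · exact absurd (ht' h1) (ap_nmem_sS i)
    · exact absurd h1 (ap_nmem_zz i)
  subst hi
  have key : ∀ (t : Finset (Gr n K M)), t ⊆ sS n K M →
      (insert (ap i) (t ∪ zz n K M)).filter (fun q => q ∈ sS n K M) = t := by
    intro t ht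
    ext q
    rw [Finset.mem_filter, Finset.mem_insert, Finset.mem_union]
    constructor
    · rintro ⟨h1 | h1 | h1, h2⟩
      · rw [h1] at h2; exact absurd h2 (ap_nmem_sS i)
      · exact h1
      · exact absurd h1 (nmem_zz_of_sS h2)
    · intro h1
      exact ⟨Or.inr (Or.inl h1), ht h1⟩
  have : t = t' := by rw [← key t ht, ← key t' ht', e]
  rw [this]

theorem wt_mk2 (i : Fin K) (t : Finset (Gr n K M)) (ht : t ⊆ sS n K M) (l : ℕ) :
    wt (blk n K M) (mk2 (i, t)) l = ((l : ℤ) + 1) ^ (t.card + 1) - (l : ℤ) ^ (t.card + 1) := by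
  unfold wt
  rw [Fintype.prod_option]
  have h1 : (mk2 (i, t)).filter (fun q => blk n K M q = none) = insert (ap i) t := by
    ext q
    unfold mk2
    rw [Finset.mem_filter, Finset.mem_insert, Finset.mem_union, Finset.mem_insert]
    constructor
    · rintro ⟨h1 | h1 | h1, h2⟩
      · exact Or.inl h1
      · exact Or.inr h1
      · simp only [zz, Finset.mem_image, Finset.mem_univ, true_and] at h1
        obtain ⟨j, rfl⟩ := h1
        simp [blk] at h2
    · rintro (h1 | h1)
      · subst h1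
        exact ⟨Or.inl rfl, rfl⟩
      · refine ⟨Or.inr (Or.inl h1), ?_⟩
        have := ht h1
        simp only [sS, Finset.mem_image, Finset.mem_univ, true_and] at this
        obtain ⟨a, rfl⟩ := this
        rfl
  have h2 : (insert (ap i) t).card = t.card + 1 :=
    Finset.card_insert_of_notMem (fun h => ap_nmem_sS i (ht h))
  have h3 : ∀ j : Fin M, ((mk2 (i, t)).filter (fun q => blk n K M q = some j)).card = 1 := by
    intro j
    rw [Finset.card_eq_one]
    refine ⟨Sum.inr (j, false), ?_⟩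
    ext q
    unfold mk2
    rw [Finset.mem_filter, Finset.mem_insert, Finset.mem_union, Finset.mem_singleton]
    constructor
    · rintro ⟨h1 | h1 | h1, h2⟩
      · subst h1
        simp [ap, blk] at h2
      · have := ht h1
        simp only [sS, Finset.mem_image, Finset.mem_univ, true_and] at this
        obtain ⟨a, rfl⟩ := this
        simp [blk] at h2
      · simp only [zz, Finset.mem_image, Finset.mem_univ, true_and] at h1
        obtain ⟨j', rfl⟩ := h1
        simp only [blk, Option.some.injEq] at h2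
        rw [h2]
    · rintro rfl
      refine ⟨Or.inr (Or.inr ?_), rfl⟩
      simp [zz]
  rw [h1, h2, Finset.prod_eq_one, mul_one]
  intro j _
  rw [h3 j]
  ring

theorem sum_fam2 (l : ℕ) :
    ∑ y ∈ ((Finset.univ : Finset (Fin K)) ×ˢ (sS n K M).ssubsets).image mk2,
      wt (blk n K M) y l =
    (K : ℤ) * ∑ t ∈ Finset.range n, (n.choose t : ℤ) *
      (((l : ℤ) + 1) ^ (t + 1) - (l : ℤ) ^ (t + 1)) := by
  rw [Finset.sum_image mk2_inj, Finset.sum_product]
  have h1 : ∀ i : Fin K, ∑ t ∈ (sS n K M).ssubsets, wt (blk n K M) (mk2 (i, t)) l =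
      ∑ t ∈ Finset.range n, (n.choose t : ℤ) *
      (((l : ℤ) + 1) ^ (t + 1) - (l : ℤ) ^ (t + 1)) := by
    intro i
    have h2 := Finset.sum_powerset_apply_card (fun k => (((l : ℤ) + 1) ^ (k + 1) -
      (l : ℤ) ^ (k + 1))) (x := sS n K M)
    rw [card_sS, Finset.sum_range_succ, ← Finset.sum_erase_add _ _
      (Finset.mem_powerset_self (sS n K M)), card_sS, Nat.choose_self, one_smul] at h2
    have h3 := add_right_cancel h2
    rw [Finset.ssubsets]
    rw [← Finset.sum_congr rfl (fun t _ => nsmul_eq_mul (n.choose t)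
      (((l : ℤ) + 1) ^ (t + 1) - (l : ℤ) ^ (t + 1)))]
    rw [← h3]
    apply Finset.sum_congr rfl
    intro t ht
    rw [Finset.mem_erase, Finset.mem_powerset] at ht
    exact wt_mk2 i t ht.2 l
  rw [Finset.sum_congr rfl (fun i _ => h1 i), Finset.sum_const, Finset.card_univ, Fintype.card_fin,
    nsmul_eq_mul]

end

end B8

open B8 in
/-- M8b: the sum over all cells -/
theorem sum_fam {n K M : ℕ} (hn : 2 ≤ n) (hM : n ≤ M) (hK : 1 ≤ K) (l : ℕ) :
    ∑ y ∈ (Set.toFinite (fam n K M)).toFinset, ∏ b : Option (Fin M),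
      (((l : ℤ) + 1) ^ ((y.filter (fun i => blk n K M i = b)).card) -
          (l : ℤ) ^ ((y.filter (fun i => blk n K M i = b)).card)) = gg n K M l := by
  classical
  change ∑ y ∈ (Set.toFinite (fam n K M)).toFinset, wt (blk n K M) y l = gg n K M l
  have h1 : (Set.toFinite (fam n K M)).toFinset =
      ((U1 n K M).powerset.filter (fun y => y.card ≤ n + M)).filter
        (fun y => Hits (blk n K M) y) ∪
      ((Finset.univ : Finset (Fin K)) ×ˢ (sS n K M).ssubsets).image mk2 := by
    ext y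
    rw [Set.Finite.mem_toFinset, Finset.mem_union, Finset.mem_filter, Finset.mem_filter,
      Finset.mem_powerset, Finset.mem_image]
    unfold fam
    rw [Set.mem_union]
    apply or_congr
    · unfold fam1
      rw [Set.mem_ofPred_eq]
      tauto
    · unfold fam2
      rw [Set.mem_ofPred_eq]
      constructor
      · rintro ⟨i, t, ht, rfl⟩
        exact ⟨(i, t), Finset.mem_product.2 ⟨Finset.mem_univ _, Finset.mem_ssubsets.2 ht⟩, rfl⟩
      · rintro ⟨⟨i, t⟩, h, rfl⟩
        rw [Finset.mem_product, Finset.mem_ssubsets] at h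
        exact ⟨i, t, h.2, rfl⟩
  rw [h1, Finset.sum_union, sum_fam2]
  · unfold gg
    congr 1
    rw [← sum_fam1 n K M hM l, Finset.sum_filter]
    apply Finset.sum_congr rfl
    intro y _
    split_ifs with h
    · rfl
    · exact (wt_not _ y h l).symm
  · rw [Finset.disjoint_left]
    intro y hy hy'
    rw [Finset.mem_filter, Finset.mem_filter, Finset.mem_powerset] at hy
    rw [Finset.mem_image] at hy'
    obtain ⟨⟨i, t⟩, -, rfl⟩ := hy'
    exact ap_nmem_U1 i (hy.1.1 (Finset.mem_insert_self _ _))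

end Pool.Agent.SR
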