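import Pool.Agent.SR.Defs
import Pool.Agent.SR.M6a
import Pool.Agent.SR.M8a
import Pool.Agent.SR.M8b

/-! M8c: the number of chains of the family. -/

namespace Pool.Agent.SR

open Pool.Agent.helper45.OC

theorem card_chain_fam {n K M : ℕ} (hn : 2 ≤ n) (hM : n ≤ M) (hK : 1 ≤ K) (j : ℕ) :
    (Nat.card (Chain (↥(fam n K M)) j) : ℤ) = cc n K M j := by
  classical
  obtain ⟨h1, h2, _, _⟩ := fam_basic hn hM hK
  cases j with
  | zero =>
    have hu : Unique (Chain (↥(fam n K M)) 0) :=
      ⟨⟨⟨fun i => i.elim0, fun i => i.elim0⟩⟩, fun a => Subtype.ext (funext fun i => i.elim0)⟩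
    rw [Nat.card_unique]
    rfl
  | succ j =>
    have hfin : Finite (↥(fam n K M)) := (Set.toFinite (fam n K M)).to_subtype
    have hfc : Finite (Chain (↥(fam n K M)) (j + 1)) := Subtype.finite
    let _ : Fintype (↥(fam n K M)) := Fintype.ofFinite _
    have e1 : Nat.card (Chain (↥(fam n K M)) (j + 1)) =
        ∑ y : ↥(fam n K M), Nat.card {c : Chain (↥(fam n K M)) (j + 1) // c.1 (Fin.last j) = y} := by
      rw [← Nat.card_sigma]
      exact Nat.card_congr (Equiv.sigmaFiberEquiv
        (fun c : Chain (↥(fam n K M)) (j + 1) => c.1 (Fin.last j))).symm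
    rw [e1]
    push_cast
    have e2 : ∀ y : ↥(fam n K M),
        (Nat.card {c : Chain (↥(fam n K M)) (j + 1) // c.1 (Fin.last j) = y} : ℤ) =
        ∑ l ∈ Finset.range (j + 1), (-1 : ℤ) ^ (j - l) * (j.choose l : ℤ) *
          ∏ b : Option (Fin M), (((l : ℤ) + 1) ^ ((y.1.filter (fun i => blk n K M i = b)).card) -
            (l : ℤ) ^ ((y.1.filter (fun i => blk n K M i = b)).card)) :=
      fun y => card_chain_top (blk n K M) (fam n K M) (fun y hy => (h1 y hy).1) h2 j y
    rw [Finset.sum_congr rfl (fun y _ => e2 y), Finset.sum_comm]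
    change _ = ∑ l ∈ Finset.range (j + 1), (-1 : ℤ) ^ (j - l) * (j.choose l : ℤ) * gg n K M l
    refine Finset.sum_congr rfl fun l _ => ?_
    rw [← Finset.mul_sum]
    congr 1
    rw [← sum_fam hn hM hK l]
    symm
    rw [Finset.sum_subtype (p := fun y => y ∈ fam n K M)]
    intro y
    exact Set.Finite.mem_toFinset _

end Pool.Agent.SR
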