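import Pool.Agent.SR.Defs2
import Pool.Agent.helper62.SR.LogConc

namespace Pool.Agent.SR

open Polynomial

theorem not_realRooted {a : ℝ[X]} (_h0 : a.coeff 0 = 1) (hpos : ∀ i, 0 ≤ a.coeff i)
    (h : a.coeff 2 ^ 2 < a.coeff 1 * a.coeff 3) : ¬ RealRooted a := by
  intro hr
  exact absurd (Pool.Agent.helper62.SR.log_concave a hr hpos 1) (not_le.mpr h)

end Pool.Agent.SR
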