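import Pool.Agent.SR.Defs2

/-! M9c: existence and uniqueness of the symmetric decomposition. -/

namespace Pool.Agent.SR

open Polynomial Pool.Agent.helper45.OC

/-- M9c -/
theorem coeff_symmDecomp (n : ℕ) (hn : 1 ≤ n) {p a b : ℝ[X]} (h : IsSymmDecomp n p a b) :
    a.coeff 0 = p.coeff 0 ∧ ∀ i < n, a.coeff (i + 1) = a.coeff i + p.coeff (i + 1) - p.coeff (n - i) := by
  obtain ⟨hp, ⟨ha1, ha2⟩, hb1, hb2⟩ := h
  have h0 : p.coeff 0 = a.coeff 0 := by
    rw [hp, coeff_add, coeff_X_mul_zero, add_zero]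
  have hs : ∀ i, p.coeff (i + 1) = a.coeff (i + 1) + b.coeff i := by
    intro i
    rw [hp, coeff_add, coeff_X_mul]
  refine ⟨h0.symm, fun i hi => ?_⟩
  have h1 := hs i
  have h2 := hs (n - 1 - i)
  have h3 : n - 1 - i + 1 = n - i := by omega
  rw [h3] at h2
  have h4 := ha2 i hi.le
  have h5 := hb2 i (by omega)
  rw [h1, h2, ← h4, ← h5]
  ring

/-- M9c -/
theorem exists_symmDecomp (n : ℕ) (hn : 1 ≤ n) (p : ℝ[X]) (hp : p.natDegree ≤ n) :
    ∃ a b, IsSymmDecomp n p a b := by
  set S : ℕ → ℝ := fun m => ∑ j ∈ Finset.range m, p.coeff j with hS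
  have hS1 : ∀ m, S (m + 1) = S m + p.coeff m := fun m => Finset.sum_range_succ _ _
  have hS0 : S 0 = 0 := Finset.sum_range_zero _
  set a : ℝ[X] := ∑ i ∈ Finset.range (n + 1), monomial i (S (i + 1) + S (n + 1 - i) - S (n + 1))
    with ha
  set b : ℝ[X] := ∑ i ∈ Finset.range n, monomial i (S (n + 1) - S (i + 1) - S (n - i)) with hb
  have hca : ∀ i, a.coeff i = if i ≤ n then S (i + 1) + S (n + 1 - i) - S (n + 1) else 0 := by
    intro i
    rw [ha, finsetSum_coeff]
    simp only [coeff_monomial]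
    rw [Finset.sum_ite_eq' (Finset.range (n + 1)) i]
    simp only [Finset.mem_range, Nat.lt_succ_iff]
  have hcb : ∀ i, b.coeff i = if i < n then S (n + 1) - S (i + 1) - S (n - i) else 0 := by
    intro i
    rw [hb, finsetSum_coeff]
    simp only [coeff_monomial]
    rw [Finset.sum_ite_eq' (Finset.range n) i]
    simp only [Finset.mem_range]
  refine ⟨a, b, ?_, ⟨?_, ?_⟩, ?_, ?_⟩
  · ext i
    rw [coeff_add]
    rcases i with _ | i
    · rw [coeff_X_mul_zero, add_zero, hca, if_pos (Nat.zero_le _), hS1 0, hS0, Nat.sub_zero]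
      ring
    · rw [coeff_X_mul, hca, hcb]
      by_cases hi : i < n
      · rw [if_pos (by omega : i + 1 ≤ n), if_pos hi, hS1 (i + 1),
          (by omega : n + 1 - (i + 1) = n - i)]
        ring
      · rw [if_neg (by omega : ¬ i + 1 ≤ n), if_neg hi,
          coeff_eq_zero_of_natDegree_lt (by omega : p.natDegree < i + 1), add_zero]
  · rw [natDegree_le_iff_coeff_eq_zero]
    intro i hi
    rw [hca, if_neg (by omega)]
  · intro i hi
    rw [hca, hca, if_pos hi, if_pos (by omega : n - i ≤ n), (by omega : n + 1 - (n - i) = i + 1),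
      (by omega : n - i + 1 = n + 1 - i)]
    ring
  · rw [natDegree_le_iff_coeff_eq_zero]
    intro i hi
    rw [hcb, if_neg (by omega)]
  · intro i hi
    rw [hcb, hcb, if_pos (by omega : i < n), if_pos (by omega : n - 1 - i < n),
      (by omega : n - (n - 1 - i) = i + 1), (by omega : n - 1 - i + 1 = n - i)]
    ring

/-- M9c -/
theorem symmDecomp_unique (n : ℕ) (hn : 1 ≤ n) {p a b a' b' : ℝ[X]} (h : IsSymmDecomp n p a b)
    (h' : IsSymmDecomp n p a' b') : a' = a ∧ b' = b := by
  obtain ⟨h0, h1⟩ := coeff_symmDecomp n hn h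
  obtain ⟨h0', h1'⟩ := coeff_symmDecomp n hn h'
  have hle : ∀ i ≤ n, a'.coeff i = a.coeff i := by
    intro i
    induction i with
    | zero => intro _; rw [h0, h0']
    | succ i ih =>
      intro hi
      rw [h1 i (by omega), h1' i (by omega), ih (by omega)]
  have haa : a' = a := by
    ext i
    by_cases hi : i ≤ n
    · exact hle i hi
    · rw [coeff_eq_zero_of_natDegree_lt (by have := h'.2.1.1; omega),
        coeff_eq_zero_of_natDegree_lt (by have := h.2.1.1; omega)]
  refine ⟨haa, ?_⟩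
  have e1 := h.1
  have e2 := h'.1
  rw [haa, e1] at e2
  have e3 : X * b = X * b' := add_left_cancel e2
  exact (mul_left_cancel₀ X_ne_zero e3).symm

end Pool.Agent.SR
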