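import Pool.Agent.SR.Defs

/-! Definitions for MP_64f3b0_co, Q1 (the same as in the hand-in on Q2). -/

namespace Pool.Agent.SR

open Polynomial Pool.Agent.helper45.OC

/-- The dimension of the polyhedral complex `L` (equivalently, of its barycentric subdivision) is
`n - 1`: the longest chains of nonempty cells have `n` elements. -/
def HasDim (n : ℕ) {N : ℕ} (L : Set (Set (Fin N → ℝ))) : Prop :=
  Nonempty (Chain (Cells L) n) ∧ IsEmpty (Chain (Cells L) (n + 1))

/-- `F` is a facet (inclusion-maximal cell) of `L`. -/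
def IsFacet {N : ℕ} (L : Set (Set (Fin N → ℝ))) (F : Set (Fin N → ℝ)) : Prop :=
  F ∈ L ∧ ∀ G ∈ L, F ⊆ G → G = F

/-- `L` is Cohen-Macaulay* over `k`, of dimension `n - 1`: `L` and all complexes obtained from `L`
by deleting one facet are Cohen-Macaulay over `k` and of dimension `n - 1`. -/
def IsCMStar (k : Type*) [Field k] (n : ℕ) {N : ℕ} (L : Set (Set (Fin N → ℝ))) : Prop :=
  (CohenMacaulay k (Cells L) ∧ HasDim n L) ∧
    ∀ F, IsFacet L F → CohenMacaulay k (Cells (L \ {F})) ∧ HasDim n (L \ {F})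

/-- The `h`-polynomial of the barycentric subdivision of an `(n - 1)`-dimensional complex `L`. -/
noncomputable def hSd (n : ℕ) {N : ℕ} (L : Set (Set (Fin N → ℝ))) : ℝ[X] :=
  ∑ i ∈ Finset.range (n + 1),
    C (Nat.card (Chain (Cells L) i) : ℝ) * X ^ i * (1 - X) ^ (n - i)

/-- `p = a + x b` is the symmetric decomposition of `p` with respect to `n ≥ 1`: the polynomials
`a` and `b` satisfy `a(x) = x ^ n a(1 / x)` and `b(x) = x ^ (n - 1) b(1 / x)`. -/
def IsSymmDecomp (n : ℕ) (p a b : ℝ[X]) : Prop :=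
  p = a + X * b ∧
    (a.natDegree ≤ n ∧ ∀ i ≤ n, a.coeff i = a.coeff (n - i)) ∧
    (b.natDegree ≤ n - 1 ∧ ∀ i ≤ n - 1, b.coeff i = b.coeff (n - 1 - i))

/-- All roots of `p` are real, or `p = 0`. -/
def RealRooted (p : ℝ[X]) : Prop := p = 0 ∨ Multiset.card p.roots = p.natDegree

/-- coefficients of the `h`-polynomial from the numbers of chains -/
def pc (n : ℕ) (c : ℕ → ℤ) (m : ℕ) : ℤ :=
  ∑ i ∈ Finset.range (m + 1), c i * (-1) ^ (m - i) * ((n - i).choose (m - i) : ℤ)

/-- coefficients of the symmetric part -/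
def ac (n : ℕ) (c : ℕ → ℤ) : ℕ → ℤ
  | 0 => pc n c 0
  | i + 1 => ac n c i + pc n c (i + 1) - pc n c (n - i)

end Pool.Agent.SR
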