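import Mathlib
import Pool.Agent.SR.Defs2

/-! SR, module M9d: coefficients of the `h`-polynomial. -/

namespace Pool.Agent.SR

open Polynomial Pool.Agent.helper45.OC

theorem coeff_one_sub_X_pow (k m : ℕ) :
    ((1 - X : ℝ[X]) ^ k).coeff m = (-1) ^ m * (k.choose m : ℝ) := by
  have h1 : (1 - X : ℝ[X]) ^ k = ((1 + X : ℝ[X]) ^ k).comp (C (-1) * X) := by
    simp only [pow_comp, add_comp, one_comp, X_comp]
    congr 1
    simp [sub_eq_add_neg]
  rw [h1, comp_C_mul_X_coeff, coeff_one_add_X_pow]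
  ring

theorem coeff_h_term (a : ℝ) (i k m : ℕ) :
    (C a * X ^ i * (1 - X) ^ k : ℝ[X]).coeff m =
      if i ≤ m then a * ((-1) ^ (m - i) * (k.choose (m - i) : ℝ)) else 0 := by
  rw [mul_assoc, coeff_C_mul, coeff_X_pow_mul']
  split_ifs with h
  · rw [coeff_one_sub_X_pow]
  · rw [mul_zero]

/-- M9d -/
theorem coeff_h (n : ℕ) (c : ℕ → ℤ) (m : ℕ) (hm : m ≤ n) :
    (∑ i ∈ Finset.range (n + 1), C ((c i : ℤ) : ℝ) * X ^ i * (1 - X) ^ (n - i) : ℝ[X]).coeff m =
      (pc n c m : ℝ) := by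
  rw [finsetSum_coeff, pc, Int.cast_sum]
  rw [← Finset.sum_subset (Finset.range_mono (by omega : m + 1 ≤ n + 1))]
  · apply Finset.sum_congr rfl
    intro i hi
    rw [Finset.mem_range] at hi
    rw [coeff_h_term, if_pos (by omega)]
    push_cast
    ring
  · intro i _ hi
    rw [Finset.mem_range] at hi
    rw [coeff_h_term, if_neg (by omega)]

theorem natDegree_h (n : ℕ) (c : ℕ → ℝ) :
    (∑ i ∈ Finset.range (n + 1), C (c i) * X ^ i * (1 - X) ^ (n - i) : ℝ[X]).natDegree ≤ n := by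
  apply natDegree_sum_le_of_forall_le
  intro i hi
  rw [Finset.mem_range] at hi
  have h1 : (1 - X : ℝ[X]).natDegree ≤ 1 := by
    refine (natDegree_sub_le _ _).trans ?_
    simp
  have h2 : ((1 - X : ℝ[X]) ^ (n - i)).natDegree ≤ n - i := by
    refine natDegree_pow_le.trans ?_
    calc (n - i) * (1 - X : ℝ[X]).natDegree ≤ (n - i) * 1 := Nat.mul_le_mul_left _ h1
      _ = n - i := mul_one _
  have h3 : (C (c i) * X ^ i : ℝ[X]).natDegree ≤ i := natDegree_C_mul_X_pow_le _ _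
  refine natDegree_mul_le.trans ?_
  omega

end Pool.Agent.SR
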