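import Pool.Agent.SR.M3
import Pool.Agent.SR.M3b
import Pool.Agent.SR.M6b
import Pool.Agent.SR.M6c
import Pool.Agent.SR.M6de
import Pool.Agent.SR.M7c
import Pool.Agent.SR.M8c
import Pool.Agent.SR.M9b
import Pool.Agent.SR.M9c
import Pool.Agent.SR.M9d

/-! Assembly. -/

namespace Pool.Agent.SR

open Polynomial Pool.Agent.helper45.OC

universe u v w

section geo

variable {ι κ : Type*} [Fintype ι] [DecidableEq ι] [Fintype κ] [DecidableEq κ] {N : ℕ}

/-- cells of the geometric complex are the members of the family -/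
noncomputable def cellsIso (e : ι ≃ Fin N) (p : ι → κ) (L : Set (Finset ι))
    (hL : ∀ y ∈ L, Hits p y) : ↥L ≃o Cells (cplx e p L) := by
  let f : ↥L → Cells (cplx e p L) := fun y =>
    ⟨cell e p y.1, Or.inr ⟨y.1, y.2, rfl⟩, cell_nonempty e p y.1 (hL y.1 y.2)⟩
  have hf : ∀ y y' : ↥L, f y ≤ f y' ↔ y ≤ y' := by
    intro y y'
    exact cell_subset_iff e p y.1 y'.1 (hL y.1 y.2) (hL y'.1 y'.2)
  have hinj : Function.Injective f := by
    intro y y' h
    exact le_antisymm ((hf y y').mp h.le) ((hf y' y).mp h.ge)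
  have hsur : Function.Surjective f := by
    rintro ⟨P, hP, hne⟩
    rcases hP with hP | ⟨y, hy, rfl⟩
    · rw [hP] at hne
      exact absurd hne Set.not_nonempty_empty
    · exact ⟨⟨y, hy⟩, rfl⟩
  exact { toEquiv := Equiv.ofBijective f ⟨hinj, hsur⟩, map_rel_iff' := fun {a b} => hf a b }

lemma cell_injOn (e : ι ≃ Fin N) (p : ι → κ) {x y : Finset ι} (hx : Hits p x) (hy : Hits p y)
    (h : cell e p x = cell e p y) : x = y :=
  Finset.Subset.antisymm ((cell_subset_iff e p x y hx hy).mp h.le)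
    ((cell_subset_iff e p y x hy hx).mp h.ge)

lemma cplx_diff (e : ι ≃ Fin N) (p : ι → κ) (L : Set (Finset ι)) (hL : ∀ y ∈ L, Hits p y)
    (y0 : Finset ι) (h0 : y0 ∈ L) : cplx e p L \ {cell e p y0} = cplx e p (L \ {y0}) := by
  have hne : (cell e p y0).Nonempty := cell_nonempty e p y0 (hL y0 h0)
  ext P
  constructor
  · rintro ⟨hP | ⟨y, hy, rfl⟩, hP2⟩
    · exact Or.inl hP
    · refine Or.inr ⟨y, ⟨hy, ?_⟩, rfl⟩
      intro h
      rw [Set.mem_singleton_iff] at h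
      subst h
      exact hP2 rfl
  · rintro (hP | ⟨y, ⟨hy, hy2⟩, rfl⟩)
    · refine ⟨Or.inl hP, ?_⟩
      intro h
      rw [Set.mem_singleton_iff] at h
      rw [hP] at h
      rw [← h] at hne
      exact Set.not_nonempty_empty hne
    · refine ⟨Or.inr ⟨y, hy, rfl⟩, ?_⟩
      intro h
      exact hy2 (cell_injOn e p (hL y hy) (hL y0 h0) h)

end geo

section main

variable {n K M : ℕ}

lemma fam_cm (hn : 2 ≤ n) (hM : n ≤ M) (hK : 1 ≤ K) (E : Set (Finset (Gr n K M)))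
    (hE : Adm n K M E) (k : Type v) [Field k] :
    CohenMacaulay k (↥(fam n K M \ E)) := by
  obtain ⟨h1, -, -, -⟩ := fam_basic (n := n) (K := K) (M := M) hn hM hK
  refine cm_of_G (fam n K M \ E) (Set.toFinite _) n (rk n K M) ?_ ?_ (fam_G hn hM hK E hE)
    (fam_low hn hM hK E hE) (fam_up hn hM hK E hE) ?_ k
  · intro x hx y hy hxy
    have hx1 := (h1 x hx.1).2.1
    have hlt := Finset.card_lt_card hxy
    unfold rk
    omega
  · intro x hx
    have hx1 := (h1 x hx.1).2.1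
    have hx2 := (h1 x hx.1).2.2
    unfold rk
    omega
  · intro x hx y hy hxy
    exact fam_mid hn hM hK E hE x y hx hy hxy

lemma fam_hits (hn : 2 ≤ n) (hM : n ≤ M) (hK : 1 ≤ K) :
    ∀ y ∈ fam n K M, Hits (blk n K M) y :=
  fun y hy => ((fam_basic (n := n) (K := K) (M := M) hn hM hK).1 y hy).1

lemma isCMStar_fam (hn : 2 ≤ n) (hM : n ≤ M) (hK : 1 ≤ K) {N : ℕ} (e : Gr n K M ≃ Fin N)
    (k : Type v) [Field k] : IsCMStar k n (cplx e (blk n K M) (fam n K M)) := by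
  have hH := fam_hits (n := n) (K := K) (M := M) hn hM hK
  have key : ∀ E : Set (Finset (Gr n K M)), Adm n K M E →
      CohenMacaulay k (Cells (cplx e (blk n K M) (fam n K M \ E))) ∧
        HasDim n (cplx e (blk n K M) (fam n K M \ E)) := by
    intro E hE
    have hH' : ∀ y ∈ fam n K M \ E, Hits (blk n K M) y := fun y hy => hH y hy.1
    have iso := cellsIso e (blk n K M) (fam n K M \ E) hH'
    refine ⟨cm_congr iso k (fam_cm hn hM hK E hE k), ?_⟩
    obtain ⟨⟨c⟩, h2⟩ := fam_dim (n := n) (K := K) (M := M) hn hM hK E hE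
    refine ⟨⟨chainCongr iso n c⟩, ⟨fun c' => h2.false ((chainCongr iso (n + 1)).symm c')⟩⟩
  have h0 := key ∅ (Or.inl rfl)
  rw [Set.sdiff_empty] at h0
  refine ⟨h0, ?_⟩
  rintro F ⟨hF, hmax⟩
  obtain ⟨⟨c⟩, -⟩ := fam_dim (n := n) (K := K) (M := M) hn hM hK ∅ (Or.inl rfl)
  have hn0 : 0 < n := by omega
  obtain ⟨q, hq⟩ := c.1 ⟨0, hn0⟩
  rw [Set.sdiff_empty] at hq
  have hFne : F ≠ ∅ := by
    intro h
    subst h
    have h1 := hmax (cell e (blk n K M) q) (Or.inr ⟨q, hq, rfl⟩) (Set.empty_subset _)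
    have h2 := cell_nonempty e (blk n K M) q (hH q hq)
    rw [h1] at h2
    exact Set.not_nonempty_empty h2
  rcases hF with hF | ⟨y0, hy0, rfl⟩
  · exact absurd hF hFne
  · rw [cplx_diff e (blk n K M) (fam n K M) hH y0 hy0]
    refine key {y0} (Or.inr ⟨y0, hy0, ?_, rfl⟩)
    intro y hy hle
    have h1 := hmax (cell e (blk n K M) y) (Or.inr ⟨y, hy, rfl⟩)
      ((cell_subset_iff e (blk n K M) y0 y (hH y0 hy0) (hH y hy)).mpr hle)
    exact cell_injOn e (blk n K M) (hH y hy) (hH y0 hy0) h1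

lemma hSd_fam (hn : 2 ≤ n) (hM : n ≤ M) (hK : 1 ≤ K) {N : ℕ} (e : Gr n K M ≃ Fin N) :
    hSd n (cplx e (blk n K M) (fam n K M)) =
      ∑ i ∈ Finset.range (n + 1), C ((cc n K M i : ℤ) : ℝ) * X ^ i * (1 - X) ^ (n - i) := by
  have iso := cellsIso e (blk n K M) (fam n K M) (fam_hits (n := n) (K := K) (M := M) hn hM hK)
  unfold hSd
  refine Finset.sum_congr rfl fun i _ => ?_
  have h1 : Nat.card (Chain (Cells (cplx e (blk n K M) (fam n K M))) i) =
      Nat.card (Chain (↥(fam n K M)) i) := (Nat.card_congr (chainCongr iso i)).symm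
  rw [h1, ← card_chain_fam hn hM hK i]
  simp

lemma coeff_a (hn : 2 ≤ n) (hM : n ≤ M) (hK : 1 ≤ K) {N : ℕ} (e : Gr n K M ≃ Fin N)
    {a b : ℝ[X]} (h : IsSymmDecomp n (hSd n (cplx e (blk n K M) (fam n K M))) a b) :
    ∀ i ≤ n, a.coeff i = ((ac n (cc n K M) i : ℤ) : ℝ) := by
  obtain ⟨h0, h1⟩ := coeff_symmDecomp n (by omega) h
  rw [hSd_fam hn hM hK e] at h0 h1
  intro i
  induction i with
  | zero =>
    intro _
    rw [h0, coeff_h n _ 0 (by omega)]
    rfl
  | succ i ih =>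
    intro hi
    rw [h1 i (by omega), ih (by omega), coeff_h n _ (i + 1) hi, coeff_h n _ (n - i) (by omega)]
    simp only [ac]
    push_cast
    ring

theorem main_general (hn : 3 ≤ n) (hM : n ≤ M) (hK : 1 ≤ K)
    (h0 : ac n (cc n K M) 0 = 1)
    (hpos : ∀ i ≤ n, 0 ≤ ac n (cc n K M) i)
    (hnum : ac n (cc n K M) 2 ^ 2 < ac n (cc n K M) 1 * ac n (cc n K M) 3) :
    ∃ (N : ℕ) (L : Set (Set (Fin N → ℝ))), IsPolyhedralComplex L ∧
      (∀ (k : Type u) [Field k], IsCMStar k n L) ∧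
      ∃ a b : ℝ[X], IsSymmDecomp n (hSd n L) a b ∧
        (∀ a' b' : ℝ[X], IsSymmDecomp n (hSd n L) a' b' → a' = a ∧ b' = b) ∧
        (∀ i, 0 ≤ a.coeff i) ∧ ¬ RealRooted a := by
  have hn2 : 2 ≤ n := by omega
  let e := Fintype.equivFin (Gr n K M)
  obtain ⟨hb1, hb2, -, -⟩ := fam_basic (n := n) (K := K) (M := M) hn2 hM hK
  refine ⟨_, cplx e (blk n K M) (fam n K M), ?_, ?_, ?_⟩
  · exact cplx_isPolyhedralComplex e (blk n K M) (fam n K M) (fun y hy => (hb1 y hy).1) hb2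
  · intro k _
    exact isCMStar_fam hn2 hM hK e k
  · have hdeg : (hSd n (cplx e (blk n K M) (fam n K M))).natDegree ≤ n := by
      rw [hSd_fam hn2 hM hK e]
      exact natDegree_h n _
    obtain ⟨a, b, hab⟩ := exists_symmDecomp n (by omega) _ hdeg
    have hc := coeff_a hn2 hM hK e hab
    have hpos' : ∀ i, 0 ≤ a.coeff i := by
      intro i
      by_cases hi : i ≤ n
      · rw [hc i hi]
        exact_mod_cast hpos i hi
      · rw [coeff_eq_zero_of_natDegree_lt (lt_of_le_of_lt hab.2.1.1 (by omega))]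
    refine ⟨a, b, hab, fun a' b' h' => symmDecomp_unique n (by omega) hab h', hpos', ?_⟩
    apply not_realRooted _ hpos'
    · rw [hc 1 (by omega), hc 2 (by omega), hc 3 hn]
      exact_mod_cast hnum
    · rw [hc 0 (by omega), h0]
      simp

end main

end Pool.Agent.SR
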