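import Pool.Agent.SR.Defs
import Pool.Agent.helper58.SR.Hom

/-! M2: homology of the class `G`. -/

namespace Pool.Agent.SR

open Finsupp Pool.Agent.helper45.OC Pool.Agent.helper58.SR

universe u v

/-- a cone is acyclic -/
theorem hv_cone {k : Type v} [Field k] {Q : Type u} [PartialOrder Q] (x : Q)
    (hx : ∀ y, y ≠ x → y < x ∨ x < y) : ∀ n, HomologyVanishes k Q n
  | 0 => hv_zero_of_nonempty ⟨x⟩
  | n + 1 => by
    intro z hz
    obtain ⟨p, y, rfl⟩ := exists_decomp (x := x) z
    let f : Pn x → Lk x := fun y => ⟨y.1, hx y.1 y.2⟩
    have hf : StrictMono f := fun _ _ h => h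
    have hLL : ∀ (m : ℕ) (q : Chain (Pn x) m →₀ k), LL k x m (lmap k f hf m q) = PP k x m q := by
      intro m q
      induction q using Finsupp.induction_linear with
      | zero => simp only [map_zero]
      | add z z' h h' => simp only [map_add, h, h']
      | single c a =>
        rw [lmap_single, LL_single, PP_single]
        rfl
    have hPL : ∀ (m : ℕ) (q : Chain (Lk x) m →₀ k), lmap k f hf m (LP k x m q) = q := by
      intro m q
      induction q using Finsupp.induction_linear with
      | zero => simp only [map_zero]
      | add z z' h h' => simp only [map_add, h, h']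
      | single c a =>
        rw [LP_single, lmap_single]
        rfl
    have key : boundary k (Pn x) n p = - LP k x n y := by
      cases n with
      | zero =>
        rw [map_add, boundary_PP, boundary_J_zero, ← PP_LP, ← map_add] at hz
        have h1 := lmap_injective (k := k) (fun y : Pn x => (y : Q)) (fun _ _ h => h)
          Subtype.val_injective 0 (hz.trans (map_zero _).symm)
        exact eq_neg_of_add_eq_zero_left h1
      | succ n =>
        rw [map_add, boundary_PP, boundary_J_succ, ← PP_LP] at hz
        have h1 : PP k x (n + 1) (boundary k (Pn x) (n + 1) p + LP k x (n + 1) y) =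
            J k x n (boundary k (Lk x) n y) := by
          rw [map_add]
          rw [← sub_eq_zero, ← hz]
          abel
        have h2 := decomp_indep h1
        rw [h2, map_zero] at h1
        have h3 := lmap_injective (k := k) (fun y : Pn x => (y : Q)) (fun _ _ h => h)
          Subtype.val_injective (n + 1) (h1.trans (map_zero _).symm)
        exact eq_neg_of_add_eq_zero_left h3
    refine ⟨J k x (n + 1) (lmap k f hf (n + 1) p), ?_⟩
    rw [boundary_J_succ, hLL, boundary_lmap, key, map_neg, hPL, map_neg]
    abel

theorem hv_of_G {α : Type u} [PartialOrder α] {S : Set α} {m : ℕ} (h : G m S)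
    {k : Type v} [Field k] {n : ℕ} (hn : n < m) : HomologyVanishes k S n := by
  induction h generalizing n with
  | zero S => exact absurd hn (Nat.not_lt_zero n)
  | pt m x =>
    refine hv_cone (⟨x, rfl⟩ : ({x} : Set α)) ?_ n
    intro y hy
    exact absurd (Subtype.ext (Set.mem_singleton_iff.1 y.2)) hy
  | add m S x hx hS hL ihS ihL =>
    cases n with
    | zero => exact hv_zero_of_nonempty ⟨⟨x, Set.mem_insert _ _⟩⟩
    | succ n =>
      let X : (insert x S : Set α) := ⟨x, Set.mem_insert _ _⟩
      have eL : ↥{y | y ∈ S ∧ (y < x ∨ x < y)} ≃o Lk X :=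
        { toFun := fun y => ⟨⟨y.1, Set.mem_insert_of_mem _ y.2.1⟩, y.2.2⟩
          invFun := fun y => ⟨y.1.1, by
            have h1 : y.1.1 ∈ (insert x S : Set α) := y.1.2
            have h2 : y.1.1 < x ∨ x < y.1.1 := y.2
            rcases Set.mem_insert_iff.1 h1 with h3 | h3
            · exact absurd h2 (by rw [h3]; simp)
            · exact ⟨h3, h2⟩⟩
          left_inv := fun _ => rfl
          right_inv := fun _ => rfl
          map_rel_iff' := Iff.rfl }
      have eP : ↥S ≃o Pn X :=
        { toFun := fun y => ⟨⟨y.1, Set.mem_insert_of_mem _ y.2⟩, fun h => hx (by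
            have h1 : y.1 = x := congrArg Subtype.val h
            rw [← h1]; exact y.2)⟩
          invFun := fun y => ⟨y.1.1, by
            have h1 : y.1.1 ∈ (insert x S : Set α) := y.1.2
            rcases Set.mem_insert_iff.1 h1 with h3 | h3
            · exact absurd (Subtype.ext h3) y.2
            · exact h3⟩
          left_inv := fun _ => rfl
          right_inv := fun _ => rfl
          map_rel_iff' := Iff.rfl }
      exact hv_insert X n (hv_iso eL n (ihL (by omega))) (hv_iso eP (n + 1) (ihS hn))

end Pool.Agent.SR
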