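import Pool.Agent.SR.Defs
import Pool.Agent.SR.M1
import Pool.Agent.SR.M2

/-! Cohen-Macaulay criterion (module M3). -/

namespace Pool.Agent.SR

open Pool.Agent.helper45.OC

universe u v w

namespace M3

section map

variable {k : Type v} [Field k] {Q : Type u} {Q' : Type w} [PartialOrder Q] [PartialOrder Q']

/-- the image of a chain under an order isomorphism -/
def cmap (e : Q ≃o Q') {n : ℕ} (c : Chain Q n) : Chain Q' n :=
  ⟨e ∘ c.1, e.strictMono.comp c.2⟩

lemma cmap_erase (e : Q ≃o Q') {n : ℕ} (c : Chain Q (n + 1)) (i : Fin (n + 1)) :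
    (cmap e c).erase i = cmap e (c.erase i) := rfl

/-- the induced map on chain groups -/
noncomputable def lmap (k : Type v) [Field k] (e : Q ≃o Q') (n : ℕ) :
    (Chain Q n →₀ k) →ₗ[k] (Chain Q' n →₀ k) :=
  Finsupp.lmapDomain k k (cmap e)

lemma lmap_single (e : Q ≃o Q') {n : ℕ} (c : Chain Q n) (a : k) :
    lmap k e n (Finsupp.single c a) = Finsupp.single (cmap e c) a := by
  rw [lmap, Finsupp.lmapDomain_apply, Finsupp.mapDomain_single]

lemma boundary_lmap (e : Q ≃o Q') (n : ℕ) (z : Chain Q (n + 1) →₀ k) :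
    boundary k Q' n (lmap k e (n + 1) z) = lmap k e n (boundary k Q n z) := by
  induction z using Finsupp.induction_linear with
  | zero => simp only [map_zero]
  | add z z' h h' => simp only [map_add, h, h']
  | single c a =>
    have e' : (Finsupp.single c a : Chain Q (n + 1) →₀ k) = a • Finsupp.single c 1 := by simp
    rw [e']
    simp only [map_smul]
    congr 1
    rw [lmap_single, boundary_single, boundary_single, map_sum]
    apply Finset.sum_congr rfl
    intro i _
    rw [map_smul, lmap_single, cmap_erase]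

lemma lmap_surj (e : Q ≃o Q') (n : ℕ) (z : Chain Q' n →₀ k) :
    lmap k e n (lmap k e.symm n z) = z := by
  induction z using Finsupp.induction_linear with
  | zero => simp only [map_zero]
  | add z z' h h' => simp only [map_add, h, h']
  | single c a =>
    rw [lmap_single, lmap_single]
    congr 1
    apply Subtype.ext
    funext i
    exact e.apply_symm_apply _

/-- invariance under order isomorphisms -/
theorem hv_iso (e : Q ≃o Q') : ∀ (n : ℕ), HomologyVanishes k Q n → HomologyVanishes k Q' n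
  | 0, h => by
    intro z
    obtain ⟨w, hw⟩ := h (lmap k e.symm 0 z)
    refine ⟨lmap k e 1 w, ?_⟩
    rw [boundary_lmap, hw, lmap_surj]
  | n + 1, h => by
    intro z hz
    obtain ⟨w, hw⟩ := h (lmap k e.symm (n + 1) z) (by rw [boundary_lmap, hz, map_zero])
    refine ⟨lmap k e (n + 2) w, ?_⟩
    rw [boundary_lmap, hw, lmap_surj]

end map

section crit

variable {α : Type u} [PartialOrder α]

/-- a chain below `t` is not longer than the rank of `t` -/
lemma le_rank (L : Set α) (r : α → ℕ) (hr : ∀ x ∈ L, ∀ y ∈ L, x < y → r x < r y) :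
    ∀ (m : ℕ) (c : Fin m → α), StrictMono c → (∀ i, c i ∈ L) → ∀ t ∈ L, (∀ i, c i < t) → m ≤ r t
  | 0, _, _, _, _, _, _ => Nat.zero_le _
  | m + 1, c, hc, hL, t, ht, hct => by
    have h1 := le_rank L r hr m (fun i => c i.castSucc)
      (fun i j hij => hc (Fin.castSucc_lt_castSucc_iff.mpr hij)) (fun i => hL _)
      (c (Fin.last m)) (hL _) (fun i => hc (Fin.castSucc_lt_last i))
    have h2 := hr _ (hL (Fin.last m)) _ ht (hct _)
    omega

/-- link of a chain in the ideal below `t` -/
lemma G_below (L : Set α) (hfin : L.Finite) (r : α → ℕ)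
    (hr : ∀ x ∈ L, ∀ y ∈ L, x < y → r x < r y)
    (hlow : ∀ y ∈ L, G (r y) {x | x ∈ L ∧ x < y})
    (hmid : ∀ x ∈ L, ∀ y ∈ L, x < y → G (r y - r x - 1) {z | z ∈ L ∧ x < z ∧ z < y}) :
    ∀ (m : ℕ) (c : Fin m → α), StrictMono c → (∀ i, c i ∈ L) → ∀ t ∈ L, (∀ i, c i < t) →
      G (r t - m) {y | y ∈ L ∧ y < t ∧ ∀ i, y < c i ∨ c i < y}
  | 0, c, _, _, t, ht, _ => by
    have h1 := hlow t ht
    have h2 : {y | y ∈ L ∧ y < t ∧ ∀ i, y < c i ∨ c i < y} = {x | x ∈ L ∧ x < t} := by
      ext y
      constructor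
      · rintro ⟨h, h', _⟩; exact ⟨h, h'⟩
      · rintro ⟨h, h'⟩; exact ⟨h, h', fun i => i.elim0⟩
    rw [h2]; exact h1
  | m + 1, c, hc, hL, t, ht, hct => by
    have hmono : StrictMono (fun i : Fin m => c i.castSucc) :=
      fun i j hij => hc (Fin.castSucc_lt_castSucc_iff.mpr hij)
    have hlast : ∀ i : Fin m, c i.castSucc < c (Fin.last m) :=
      fun i => hc (Fin.castSucc_lt_last i)
    have h1 := G_below L hfin r hr hlow hmid m (fun i => c i.castSucc) hmono (fun i => hL _)
      (c (Fin.last m)) (hL _) hlast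
    have h2 := hmid (c (Fin.last m)) (hL _) t ht (hct _)
    have h3 := le_rank L r hr m (fun i => c i.castSucc) hmono (fun i => hL _)
      (c (Fin.last m)) (hL _) hlast
    have h4 := hr _ (hL (Fin.last m)) _ ht (hct _)
    have h5 := G.join h1 h2 (hfin.subset (fun y hy => hy.1)) (hfin.subset (fun y hy => hy.1))
      (by
        rintro a ⟨_, ha, _⟩ b ⟨_, hb, _⟩
        exact ha.trans hb)
    have h6 : r (c (Fin.last m)) - m + (r t - r (c (Fin.last m)) - 1) = r t - (m + 1) := by omega
    rw [h6] at h5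
    have h7 : {y | y ∈ L ∧ y < t ∧ ∀ i, y < c i ∨ c i < y} =
        {y | y ∈ L ∧ y < c (Fin.last m) ∧ ∀ i : Fin m, y < c i.castSucc ∨ c i.castSucc < y} ∪
        {z | z ∈ L ∧ c (Fin.last m) < z ∧ z < t} := by
      ext y
      constructor
      · rintro ⟨hy, hyt, hyc⟩
        rcases hyc (Fin.last m) with h | h
        · exact Or.inl ⟨hy, h, fun i => hyc _⟩
        · exact Or.inr ⟨hy, h, hyt⟩
      · rintro (⟨hy, hys, hyc⟩ | ⟨hy, hys, hyt⟩)
        · refine ⟨hy, hys.trans (hct _), fun i => ?_⟩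
          refine Fin.lastCases ?_ (fun j => ?_) i
          · exact Or.inl hys
          · exact hyc j
        · refine ⟨hy, hyt, fun i => ?_⟩
          refine Fin.lastCases ?_ (fun j => ?_) i
          · exact Or.inr hys
          · exact Or.inr ((hlast j).trans hys)
    rw [h7]; exact h5

/-- link of a chain -/
lemma G_link (L : Set α) (hfin : L.Finite) (n : ℕ) (r : α → ℕ)
    (hr : ∀ x ∈ L, ∀ y ∈ L, x < y → r x < r y) (hlt : ∀ x ∈ L, r x < n)
    (h0 : G n L)
    (hlow : ∀ y ∈ L, G (r y) {x | x ∈ L ∧ x < y})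
    (hup : ∀ x ∈ L, G (n - 1 - r x) {y | y ∈ L ∧ x < y})
    (hmid : ∀ x ∈ L, ∀ y ∈ L, x < y → G (r y - r x - 1) {z | z ∈ L ∧ x < z ∧ z < y}) :
    ∀ (m : ℕ) (c : Fin m → α), StrictMono c → (∀ i, c i ∈ L) →
      G (n - m) {y | y ∈ L ∧ ∀ i, y < c i ∨ c i < y}
  | 0, c, _, _ => by
    have h2 : {y | y ∈ L ∧ ∀ i, y < c i ∨ c i < y} = L := by
      ext y
      constructor
      · rintro ⟨h, _⟩; exact h
      · intro h; exact ⟨h, fun i => i.elim0⟩
    rw [h2]; exact h0
  | m + 1, c, hc, hL => by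
    have hmono : StrictMono (fun i : Fin m => c i.castSucc) :=
      fun i j hij => hc (Fin.castSucc_lt_castSucc_iff.mpr hij)
    have hlast : ∀ i : Fin m, c i.castSucc < c (Fin.last m) :=
      fun i => hc (Fin.castSucc_lt_last i)
    have h1 := G_below L hfin r hr hlow hmid m (fun i => c i.castSucc) hmono (fun i => hL _)
      (c (Fin.last m)) (hL _) hlast
    have h2 := hup (c (Fin.last m)) (hL _)
    have h3 := le_rank L r hr m (fun i => c i.castSucc) hmono (fun i => hL _)
      (c (Fin.last m)) (hL _) hlast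
    have h4 := hlt _ (hL (Fin.last m))
    have h5 := G.join h1 h2 (hfin.subset (fun y hy => hy.1)) (hfin.subset (fun y hy => hy.1))
      (by
        rintro a ⟨_, ha, _⟩ b ⟨_, hb⟩
        exact ha.trans hb)
    have h6 : r (c (Fin.last m)) - m + (n - 1 - r (c (Fin.last m))) = n - (m + 1) := by omega
    rw [h6] at h5
    have h7 : {y | y ∈ L ∧ ∀ i, y < c i ∨ c i < y} =
        {y | y ∈ L ∧ y < c (Fin.last m) ∧ ∀ i : Fin m, y < c i.castSucc ∨ c i.castSucc < y} ∪
        {y | y ∈ L ∧ c (Fin.last m) < y} := by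
      ext y
      constructor
      · rintro ⟨hy, hyc⟩
        rcases hyc (Fin.last m) with h | h
        · exact Or.inl ⟨hy, h, fun i => hyc _⟩
        · exact Or.inr ⟨hy, h⟩
      · rintro (⟨hy, hys, hyc⟩ | ⟨hy, hys⟩)
        · refine ⟨hy, fun i => ?_⟩
          refine Fin.lastCases ?_ (fun j => ?_) i
          · exact Or.inl hys
          · exact hyc j
        · refine ⟨hy, fun i => ?_⟩
          refine Fin.lastCases ?_ (fun j => ?_) i
          · exact Or.inr hys
          · exact Or.inr ((hlast j).trans hys)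
    rw [h7]; exact h5

/-- two chains in each other's links have distinct ranks -/
lemma card_le {L : Set α} {n : ℕ} (r : α → ℕ)
    (hr : ∀ x ∈ L, ∀ y ∈ L, x < y → r x < r y) (hlt : ∀ x ∈ L, r x < n) {m j : ℕ}
    (c : Chain (↥L) m) (d : Chain (Link c) j) : j + m ≤ n := by
  let ρ : ↥L → Fin n := fun x => ⟨r x.1, hlt x.1 x.2⟩
  have hρ : ∀ a b : ↥L, a < b → ρ a < ρ b := fun a b hab => hr _ a.2 _ b.2 hab
  let φ : Fin j ⊕ Fin m → Fin n := Sum.elim (fun i => ρ (d.1 i).1) (fun i => ρ (c.1 i))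
  have hφ : Function.Injective φ := by
    rintro (i | i) (j | j) hij
    · simp only [φ, Sum.elim_inl] at hij
      congr 1
      by_contra hne
      rcases lt_or_gt_of_ne hne with h | h
      · have := hρ _ _ (d.2 h : (d.1 i).1 < (d.1 j).1)
        rw [hij] at this; exact lt_irrefl _ this
      · have := hρ _ _ (d.2 h : (d.1 j).1 < (d.1 i).1)
        rw [hij] at this; exact lt_irrefl _ this
    · simp only [φ, Sum.elim_inl, Sum.elim_inr] at hij
      rcases (d.1 i).2 j with h | h
      · have := hρ _ _ h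
        rw [hij] at this; exact absurd this (lt_irrefl _)
      · have := hρ _ _ h
        rw [hij] at this; exact absurd this (lt_irrefl _)
    · simp only [φ, Sum.elim_inl, Sum.elim_inr] at hij
      rcases (d.1 j).2 i with h | h
      · have := hρ _ _ h
        rw [hij] at this; exact absurd this (lt_irrefl _)
      · have := hρ _ _ h
        rw [hij] at this; exact absurd this (lt_irrefl _)
    · simp only [φ, Sum.elim_inr] at hij
      congr 1
      by_contra hne
      rcases lt_or_gt_of_ne hne with h | h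
      · have := hρ _ _ (c.2 h)
        rw [hij] at this; exact lt_irrefl _ this
      · have := hρ _ _ (c.2 h)
        rw [hij] at this; exact lt_irrefl _ this
  have := Fintype.card_le_of_injective φ hφ
  simpa using this

/-- the link of a chain of `↥L` as a subset of `α` -/
def linkIso {L : Set α} {m : ℕ} (c : Chain (↥L) m) :
    ↥{y : α | y ∈ L ∧ ∀ i, y < (c.1 i).1 ∨ (c.1 i).1 < y} ≃o Link c where
  toFun y := ⟨⟨y.1, y.2.1⟩, fun i => y.2.2 i⟩
  invFun y := ⟨y.1.1, y.1.2, fun i => y.2 i⟩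
  left_inv _ := rfl
  right_inv _ := rfl
  map_rel_iff' := Iff.rfl

end crit

end M3

theorem cm_of_G {α : Type u} [PartialOrder α] (L : Set α) (hfin : L.Finite) (n : ℕ) (r : α → ℕ)
    (hr : ∀ x ∈ L, ∀ y ∈ L, x < y → r x < r y) (hlt : ∀ x ∈ L, r x < n)
    (h0 : G n L)
    (hlow : ∀ y ∈ L, G (r y) {x | x ∈ L ∧ x < y})
    (hup : ∀ x ∈ L, G (n - 1 - r x) {y | y ∈ L ∧ x < y})
    (hmid : ∀ x ∈ L, ∀ y ∈ L, x < y → G (r y - r x - 1) {z | z ∈ L ∧ x < z ∧ z < y})
    (k : Type v) [Field k] : CohenMacaulay k L := by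
  intro m c j hd
  obtain ⟨d⟩ := hd
  have h1 := M3.card_le r hr hlt c d
  have h2 := M3.G_link L hfin n r hr hlt h0 hlow hup hmid m (fun i => (c.1 i).1)
    (fun i j hij => c.2 hij) (fun i => (c.1 i).2)
  have h3 : HomologyVanishes k
      ↥{y : α | y ∈ L ∧ ∀ i, y < (c.1 i).1 ∨ (c.1 i).1 < y} j :=
    hv_of_G h2 (by omega)
  exact M3.hv_iso (M3.linkIso c) j h3

end Pool.Agent.SR
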