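import Pool.Agent.SR.Defs2

/-! M7a: cells are polytopes. -/

namespace Pool.Agent.SR

open Polynomial Pool.Agent.helper45.OC

open scoped Pointwise

section
variable {ι κ : Type*} [Fintype ι] [DecidableEq ι] [Fintype κ] [DecidableEq κ] {N : ℕ}

private lemma cell_convex (e : ι ≃ Fin N) (p : ι → κ) (y : Finset ι) :
    Convex ℝ (cell e p y) := by
  intro x hx z hz a b ha hb hab
  refine ⟨fun i => ?_, fun c => ?_, fun i hi => ?_⟩
  · have h1 := hx.1 i
    have h2 := hz.1 i
    simp only [Pi.add_apply, Pi.smul_apply, smul_eq_mul]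
    exact add_nonneg (mul_nonneg ha h1) (mul_nonneg hb h2)
  · simp only [Pi.add_apply, Pi.smul_apply, smul_eq_mul]
    rw [Finset.sum_add_distrib, ← Finset.mul_sum, ← Finset.mul_sum, hx.2.1 c, hz.2.1 c]
    linarith
  · simp only [Pi.add_apply, Pi.smul_apply, smul_eq_mul]
    rw [hx.2.2 i hi, hz.2.2 i hi]
    ring

/-- the vertices of the simplex of one block -/
private def blockPts (e : ι ≃ Fin N) (p : ι → κ) (y : Finset ι) (b : κ) : Set (Fin N → ℝ) :=
  (fun i => Pi.single (e i) (1 : ℝ)) '' {i | i ∈ y ∧ p i = b}

private lemma blockPts_sum_finite (e : ι ≃ Fin N) (p : ι → κ) (y : Finset ι) (s : Finset κ) :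
    (∑ b ∈ s, blockPts e p y b).Finite := by
  induction s using Finset.induction_on with
  | empty => simp
  | insert a s ha ih =>
    rw [Finset.sum_insert ha]
    exact (Set.Finite.image _ (Set.toFinite _)).add ih

private lemma sum_single (e : ι ≃ Fin N) (y : Finset ι) (x : Fin N → ℝ)
    (hx : ∀ i, i ∉ y → x (e i) = 0) :
    ∑ i ∈ y, x (e i) • (Pi.single (e i) (1 : ℝ) : Fin N → ℝ) = x := by
  ext j
  obtain ⟨i0, rfl⟩ := e.surjective j
  rw [Finset.sum_apply]
  by_cases h : i0 ∈ y
  · rw [Finset.sum_eq_single i0]
    · simp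
    · intro i _ hi
      have hne : e i0 ≠ e i := fun h => hi (e.injective h).symm
      simp [Pi.single_eq_of_ne hne]
    · intro h'
      exact absurd h h'
  · rw [hx i0 h]
    apply Finset.sum_eq_zero
    intro i hi
    have hne : e i0 ≠ e i := by
      intro h'
      have := e.injective h'
      subst this
      exact h hi
    simp [Pi.single_eq_of_ne hne]

/-- M7a -/
theorem cell_isPolytope (e : ι ≃ Fin N) (p : ι → κ) (y : Finset ι) :
    IsPolytope (cell e p y) := by
  refine ⟨(blockPts_sum_finite e p y Finset.univ).toFinset, ?_⟩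
  rw [Set.Finite.coe_toFinset]
  apply Set.Subset.antisymm
  · intro x hx
    rw [convexHull_sum, Set.mem_finsetSum]
    refine ⟨fun b => ∑ i ∈ y.filter (fun i => p i = b), x (e i) • Pi.single (e i) (1 : ℝ), ?_, ?_⟩
    · intro b _
      apply (convex_convexHull ℝ _).sum_mem
      · intro i _
        exact hx.1 _
      · rw [← hx.2.1 b]
        apply Finset.sum_subset
        · intro i hi
          exact Finset.mem_filter.2 ⟨Finset.mem_univ _, (Finset.mem_filter.1 hi).2⟩
        · intro i hi hi'
          apply hx.2.2
          intro hy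
          exact hi' (Finset.mem_filter.2 ⟨hy, (Finset.mem_filter.1 hi).2⟩)
      · intro i hi
        apply subset_convexHull
        exact ⟨i, ⟨(Finset.mem_filter.1 hi).1, (Finset.mem_filter.1 hi).2⟩, rfl⟩
    · rw [Finset.sum_fiberwise]
      exact sum_single e y x hx.2.2
  · apply convexHull_min _ (cell_convex e p y)
    intro x hx
    rw [Set.mem_finsetSum] at hx
    obtain ⟨g, hg, rfl⟩ := hx
    have hg' : ∀ b, ∃ i, (i ∈ y ∧ p i = b) ∧ Pi.single (e i) (1 : ℝ) = g b :=
      fun b => hg (Finset.mem_univ b)
    choose s hs hs2 using hg'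
    have hval : ∀ j, (∑ b, g b) (e j) = ∑ b, if s b = j then (1 : ℝ) else 0 := by
      intro j
      rw [Finset.sum_apply]
      refine Finset.sum_congr rfl (fun b _ => ?_)
      rw [← hs2 b]
      by_cases h : s b = j
      · rw [if_pos h, h]
        simp
      · rw [if_neg h]
        have hne : e j ≠ e (s b) := fun h' => h (e.injective h').symm
        simp [Pi.single_eq_of_ne hne]
    refine ⟨fun i => ?_, fun c => ?_, fun i hi => ?_⟩
    · obtain ⟨j, rfl⟩ := e.surjective i
      rw [hval]
      apply Finset.sum_nonneg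
      intro b _
      split_ifs <;> norm_num
    · rw [Finset.sum_congr rfl (fun j _ => hval j), Finset.sum_comm]
      have h1 : ∀ b : κ, (∑ j ∈ Finset.univ.filter (fun i => p i = c),
          if s b = j then (1 : ℝ) else 0) = if b = c then 1 else 0 := by
        intro b
        rw [Finset.sum_ite_eq]
        by_cases h : b = c
        · have : s b ∈ Finset.univ.filter (fun i => p i = c) :=
            Finset.mem_filter.2 ⟨Finset.mem_univ _, (hs b).2.trans h⟩
          rw [if_pos this, if_pos h]
        · have : s b ∉ Finset.univ.filter (fun i => p i = c) := by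
            intro h'
            exact h ((hs b).2.symm.trans (Finset.mem_filter.1 h').2)
          rw [if_neg this, if_neg h]
      rw [Finset.sum_congr rfl (fun b _ => h1 b)]
      simp
    · rw [hval]
      apply Finset.sum_eq_zero
      intro b _
      rw [if_neg]
      intro h
      exact hi (h ▸ (hs b).1)

end

end Pool.Agent.SR
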